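import Pool.Agent.H848.GO.Haar

/-!
# The number of the irreducible characters which occur is bounded
-/

set_option autoImplicit false
set_option linter.unusedSectionVars false
set_option linter.unusedVariables false

namespace Pool.Agent.H848.GO

open Complex ComplexConjugate MeasureTheory Filter Topology
open Pool.Agent.W353.AT (MRep)

namespace Sys

section
variable {G A : Type} [Group G] [AddCommGroup A] (𝒮 : Sys G A)

theorem abs_Θ_le (l : A) (g : G) : |𝒮.Θ l g| ≤ 𝒮.M := by
  have hz : 𝒮.Θ 0 g = 𝒮.M := 𝒮.zero g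
  have hs : 𝒮.Θ (-l) g = 𝒮.Θ l g := 𝒮.symm l g
  have key : ∀ t : ℝ, 0 ≤ (1 + t ^ 2) * 𝒮.Θ 0 g + 2 * t * 𝒮.Θ l g := by
    intro t
    have h := 𝒮.pd g Bool Finset.univ (fun b => cond b l 0) (fun b => cond b t 1)
    change 0 ≤ ∑ i, ∑ j, (cond i t 1) * (cond j t 1) *
      𝒮.Θ ((cond i l 0) - (cond j l 0)) g at h
    simp only [Fintype.sum_bool, cond_true, cond_false, sub_self, sub_zero, zero_sub, hs] at h
    linarith
  have h1 := key 1
  have h2 := key (-1)
  rw [hz] at h1 h2
  rw [abs_le]
  constructor <;> linarith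

theorem Θ_level (l : A) (g : G) {u : G} (hu : u ∈ 𝒮.U l) : 𝒮.Θ l (g * u) = 𝒮.Θ l g := by
  unfold Θ
  refine Finset.sum_congr rfl fun p hp => ?_
  congr 2
  unfold Representation.character
  rw [map_mul, 𝒮.triv l p hp u hu, mul_one]

theorem c_level (x : A × ℚ) (g : G) {u : G} (hu : u ∈ 𝒮.U x.1) : 𝒮.c (g * u) x = 𝒮.c g x := by
  unfold c
  refine Finset.sum_congr rfl fun p hp => ?_
  rw [map_mul, 𝒮.triv _ p hp u hu, mul_one]

end

section
variable {G A : Type} [Group G] [AddCommGroup A] (𝒮 : Sys G A) [Countable A]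
  [Module.Finite ℤ A] [TopologicalSpace G] [IsTopologicalGroup G] [CompactSpace G]
  [MeasurableSpace G] [BorelSpace G] (μ : Measure G) [μ.IsHaarMeasure] [IsProbabilityMeasure μ]
  (hopen : ∀ l, IsOpen (𝒮.U l : Set G))

include hopen in
theorem measurable_c (f : A × ℚ → ℤ) : MeasurableSet {g | 𝒮.c g = f} := by
  have h1 : {g | 𝒮.c g = f} = ⋂ x : A × ℚ, {g | 𝒮.c g x = f x} := by
    ext g
    simp only [Set.mem_ofPred_eq, Set.mem_iInter]
    exact ⟨fun h x => by rw [h], fun h => funext h⟩
  rw [h1]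
  refine MeasurableSet.iInter fun x => ?_
  exact (measurable_level (hopen x.1) (fun g => 𝒮.c g x) fun g u hu =>
    𝒮.c_level x g hu) (measurableSet_singleton (f x))

include hopen in
theorem measurable_Θ (l : A) : Measurable (𝒮.Θ l) :=
  measurable_level (hopen l) _ fun g _ hu => 𝒮.Θ_level l g hu

include hopen in
/-- finitely many functions up to a small measure -/
theorem exists_finite {η : ℝ} (hη : 0 < η) : ∃ T : Finset (A × ℚ → ℤ),
    μ.real {g | 𝒮.c g ∉ T} ≤ η := by
  classical
  obtain ⟨f, hf⟩ := (𝒮.countable_range_c).exists_eq_range (Set.range_nonempty _)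
  set B : ℕ → Set G := fun k => {g | 𝒮.c g ∉ (Finset.range k).image f} with hB
  have hBm : ∀ k, MeasurableSet (B k) := by
    intro k
    have h1 : B k = (⋃ c ∈ (Finset.range k).image f, {g | 𝒮.c g = c})ᶜ := by
      ext g
      rw [hB]
      simp only [Set.mem_ofPred_eq, Set.mem_compl_iff, Set.mem_iUnion, exists_prop, not_exists,
        not_and]
      constructor
      · intro h c hc h1
        exact h (h1 ▸ hc)
      · intro h h1
        exact h _ h1 rfl
    rw [h1]
    exact (Finset.measurableSet_biUnion _ fun c _ => 𝒮.measurable_c hopen c).compl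
  have hanti : Antitone B := by
    intro k k' hk g hg
    rw [hB] at hg ⊢
    simp only [Set.mem_ofPred_eq] at hg ⊢
    exact fun h => hg (Finset.image_subset_image (Finset.range_subset_range.2 hk) h)
  have hempty : ⋂ k, B k = ∅ := by
    ext g
    simp only [Set.mem_iInter, Set.mem_empty_iff_false, iff_false, not_forall]
    have h1 : 𝒮.c g ∈ Set.range f := hf ▸ Set.mem_range_self g
    obtain ⟨k, hk⟩ := h1
    refine ⟨k + 1, ?_⟩
    rw [hB]
    simp only [Set.mem_ofPred_eq, not_not]
    exact Finset.mem_image.2 ⟨k, Finset.mem_range.2 (Nat.lt_succ_self k), hk⟩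
  have h1 := tendsto_measure_iInter_atTop (μ := μ) (s := B)
    (fun k => (hBm k).nullMeasurableSet) hanti ⟨0, measure_ne_top _ _⟩
  rw [hempty, measure_empty] at h1
  have h2 := (ENNReal.tendsto_toReal ENNReal.zero_ne_top).comp h1
  rw [ENNReal.toReal_zero] at h2
  obtain ⟨k, hk⟩ := (h2.eventually_lt_const hη).exists
  exact ⟨(Finset.range k).image f, hk.le⟩

include hopen in
/-- **Only boundedly many irreducible characters occur.** -/
theorem exists_bound : ∃ B : ℕ, ∀ (κ : Type) (S : Finset κ) (p : κ → MRep G) (V : Subgroup G)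
    [V.Normal] [Finite (G ⧸ V)], IsOpen (V : Set G) →
    (∀ k ∈ S, ∀ u ∈ V, (p k).2 u = 1) → (∀ k ∈ S, (p k).2.IsIrreducible) →
    (∀ k ∈ S, ∀ l ∈ S, k ≠ l → IsEmpty ((p k).2.Equiv (p l).2)) →
    (∀ k ∈ S, ∃ l, 1 ≤ |∫ g, 𝒮.Θ l g * ((p k).2.character g).re ∂μ|) → S.card ≤ B := by
  classical
  set M : ℝ := (𝒮.M : ℝ) with hM
  have hM0 : (0 : ℝ) ≤ M := Nat.cast_nonneg _
  set s : ℝ := 1 / (2 * (M + 1)) with hs
  have hs0 : 0 < s := by positivity
  obtain ⟨T, hT⟩ := 𝒮.exists_finite μ hopen (η := s ^ 2) (by positivity)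
  refine ⟨⌈4 * (M + 1) ^ 2 * (T.card : ℝ) ^ 2⌉₊, ?_⟩
  intro κ S p V _ _ hV htriv hirr hne hbig
  set R : Set G := {g | 𝒮.c g ∉ T} with hR
  have hRm : MeasurableSet R := by
    have h1 : R = (⋃ c ∈ T, {g | 𝒮.c g = c})ᶜ := by
      ext g
      rw [hR]
      simp only [Set.mem_ofPred_eq, Set.mem_compl_iff, Set.mem_iUnion, exists_prop, not_exists,
        not_and]
      constructor
      · intro h c hc h1
        exact h (h1 ▸ hc)
      · intro h h1
        exact h _ h1 rfl
    rw [h1]
    exact (Finset.measurableSet_biUnion _ fun c _ => 𝒮.measurable_c hopen c).compl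
  -- the key inequality
  have key : ∀ k ∈ S, 1 / (2 * (M + 1)) ≤
      ∑ c ∈ T, |∫ g in {g | 𝒮.c g = c}, ((p k).2.character g).re ∂μ| := by
    intro k hk
    obtain ⟨l, hl⟩ := hbig k hk
    set f : G → ℝ := fun g => 𝒮.Θ l g * ((p k).2.character g).re with hf
    have hcm := meas_char hV (htriv k hk)
    have hfm : Measurable f := (𝒮.measurable_Θ hopen l).mul hcm
    have hcb : ∀ g, |((p k).2.character g).re| ≤ (p k).1 := fun g =>
      (Complex.abs_re_le_norm _).trans (char_bound (htriv k hk) g)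
    have hfb : ∀ g, |f g| ≤ M * (p k).1 := by
      intro g
      rw [hf, abs_mul]
      exact mul_le_mul (𝒮.abs_Θ_le l g) (hcb g) (abs_nonneg _) hM0
    have hfi : Integrable f μ := integrable_of_bound μ hfm hfb
    have h1 : ∫ g, f g ∂μ = (∑ c ∈ T, ∫ g in {g | 𝒮.c g = c}, f g ∂μ) + ∫ g in R, f g ∂μ := by
      have h2 := integral_add_compl hRm hfi
      have h3 : Rᶜ = ⋃ c ∈ T, {g | 𝒮.c g = c} := by
        ext g
        rw [hR]
        simp
      rw [← h2, h3, integral_biUnion_finset T (fun c _ => 𝒮.measurable_c hopen c)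
        (fun c _ c' _ hcc => by
          rw [Function.onFun, Set.disjoint_left]
          intro g hg hg'
          exact hcc (hg.symm.trans hg')) (fun c _ => hfi.integrableOn), add_comm]
    have h4 : ∀ c ∈ T, |∫ g in {g | 𝒮.c g = c}, f g ∂μ| ≤
        M * |∫ g in {g | 𝒮.c g = c}, ((p k).2.character g).re ∂μ| := by
      intro c _
      by_cases hc : ∃ g₀, 𝒮.c g₀ = c
      · obtain ⟨g₀, hg₀⟩ := hc
        have h5 : ∫ g in {g | 𝒮.c g = c}, f g ∂μ =
            ∫ g in {g | 𝒮.c g = c}, 𝒮.Θ l g₀ * ((p k).2.character g).re ∂μ := by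
          refine setIntegral_congr_fun (𝒮.measurable_c hopen c) fun g hg => ?_
          rw [hf]
          simp only
          rw [𝒮.Θ_of_c (hg.trans hg₀.symm) l]
        rw [h5, integral_const_mul, abs_mul]
        exact mul_le_mul_of_nonneg_right (𝒮.abs_Θ_le l g₀) (abs_nonneg _)
      · have h5 : {g | 𝒮.c g = c} = ∅ := by
          ext g
          simp only [Set.mem_ofPred_eq, Set.mem_empty_iff_false, iff_false]
          exact fun h => hc ⟨g, h⟩
        rw [h5]
        simp
    have h6 : |∫ g in R, f g ∂μ| ≤ M * s := by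
      have hsq := integral_sq μ {k} p V hV (fun k' hk' => by
        rw [Finset.mem_singleton] at hk'
        subst hk'
        exact htriv _ hk) (fun k' hk' => by
        rw [Finset.mem_singleton] at hk'
        subst hk'
        exact hirr _ hk) (fun a ha b hb hab => by
        rw [Finset.mem_singleton] at ha hb
        exact absurd (ha.trans hb.symm) hab) (fun _ => 1)
      simp only [Finset.sum_singleton, Complex.ofReal_one, one_mul, one_pow] at hsq
      have hni : Integrable (fun g => ‖(p k).2.character g‖ ^ 2) μ := by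
        refine integrable_of_bound μ ?_ (C := ((p k).1 : ℝ) ^ 2) fun g => ?_
        · exact (measurable_level hV (fun g => (p k).2.character g) fun g u hu =>
            char_level (htriv k hk) g hu).norm.pow_const 2
        · rw [abs_of_nonneg (sq_nonneg _)]
          exact pow_le_pow_left₀ (norm_nonneg _) (char_bound (htriv k hk) g) 2
      have h7 : |∫ g in R, f g ∂μ| ≤ ∫ g in R, |f g| ∂μ := abs_integral_le_integral_abs
      refine h7.trans ?_
      have h8 : ∫ g in R, |f g| ∂μ ≤
          ∫ g in R, M * ((s * ‖(p k).2.character g‖ ^ 2 + s⁻¹) / 2) ∂μ := by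
        refine integral_mono hfi.abs.integrableOn
          (((hni.const_mul s).add (integrable_const _)).div_const 2 |>.const_mul M).integrableOn
          fun g => ?_
        have h9 : |f g| ≤ M * ‖(p k).2.character g‖ := by
          rw [hf, abs_mul]
          exact mul_le_mul (𝒮.abs_Θ_le l g) (Complex.abs_re_le_norm _) (abs_nonneg _) hM0
        refine h9.trans (mul_le_mul_of_nonneg_left ?_ hM0)
        set y := ‖(p k).2.character g‖
        have h10 : 0 ≤ s⁻¹ * (s * y - 1) ^ 2 := by positivity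
        have h11 : s⁻¹ * (s * y - 1) ^ 2 = s * y ^ 2 - 2 * y + s⁻¹ := by
          field_simp
          ring
        linarith
      refine h8.trans ?_
      rw [integral_const_mul]
      refine mul_le_mul_of_nonneg_left ?_ hM0
      have h12 : ∫ g in R, ((s * ‖(p k).2.character g‖ ^ 2 + s⁻¹) / 2) ∂μ =
          (s * ∫ g in R, ‖(p k).2.character g‖ ^ 2 ∂μ + s⁻¹ * μ.real R) / 2 := by
        rw [integral_div, integral_add (hni.const_mul s).integrableOn
          (integrable_const _).integrableOn, integral_const_mul, setIntegral_const, smul_eq_mul,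
          mul_comm s⁻¹]
      rw [h12]
      have h13 : ∫ g in R, ‖(p k).2.character g‖ ^ 2 ∂μ ≤ 1 := by
        rw [← hsq]
        exact setIntegral_le_integral hni (Eventually.of_forall fun g => sq_nonneg _)
      have h14 : s⁻¹ * μ.real R ≤ s := by
        calc s⁻¹ * μ.real R ≤ s⁻¹ * s ^ 2 := mul_le_mul_of_nonneg_left hT (by positivity)
          _ = s := by field_simp
      nlinarith
    have h15 : 1 ≤ M * ∑ c ∈ T, |∫ g in {g | 𝒮.c g = c}, ((p k).2.character g).re ∂μ| +
        M * s := by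
      refine hl.trans ?_
      have h16 : |∫ g, f g ∂μ| ≤ ∑ c ∈ T, |∫ g in {g | 𝒮.c g = c}, f g ∂μ| +
          |∫ g in R, f g ∂μ| := by
        rw [h1]
        exact (abs_add_le _ _).trans (add_le_add (Finset.abs_sum_le_sum_abs _ _) le_rfl)
      refine h16.trans (add_le_add ?_ h6)
      rw [Finset.mul_sum]
      exact Finset.sum_le_sum h4
    set Z := ∑ c ∈ T, |∫ g in {g | 𝒮.c g = c}, ((p k).2.character g).re ∂μ| with hZ
    have hZ0 : 0 ≤ Z := Finset.sum_nonneg fun c _ => abs_nonneg _
    have h17 : M * s ≤ 1 / 2 := by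
      rw [hs, mul_one_div, div_le_div_iff₀ (by positivity) (by norm_num)]
      linarith
    rw [div_le_iff₀ (by positivity)]
    nlinarith
  -- sum over the characters
  have h1 : ∀ k ∈ S, 1 / (4 * (M + 1) ^ 2) ≤
      T.card * ∑ c ∈ T, (∫ g in {g | 𝒮.c g = c}, ((p k).2.character g).re ∂μ) ^ 2 := by
    intro k hk
    have h2 := key k hk
    have h3 := sq_sum_le_card_mul_sum_sq (s := T)
      (f := fun c => |∫ g in {g | 𝒮.c g = c}, ((p k).2.character g).re ∂μ|)
    simp only [sq_abs] at h3
    refine le_trans ?_ h3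
    have h4 : (1 : ℝ) / (4 * (M + 1) ^ 2) = (1 / (2 * (M + 1))) ^ 2 := by
      rw [div_pow]
      ring
    rw [h4]
    exact pow_le_pow_left₀ (by positivity) h2 2
  have h2 : (S.card : ℝ) * (1 / (4 * (M + 1) ^ 2)) ≤ T.card * T.card := by
    calc (S.card : ℝ) * (1 / (4 * (M + 1) ^ 2)) = ∑ k ∈ S, 1 / (4 * (M + 1) ^ 2) := by
          rw [Finset.sum_const, nsmul_eq_mul]
      _ ≤ ∑ k ∈ S, T.card *
          ∑ c ∈ T, (∫ g in {g | 𝒮.c g = c}, ((p k).2.character g).re ∂μ) ^ 2 :=
          Finset.sum_le_sum h1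
      _ = T.card * ∑ c ∈ T, ∑ k ∈ S,
          (∫ g in {g | 𝒮.c g = c}, ((p k).2.character g).re ∂μ) ^ 2 := by
          rw [← Finset.mul_sum, Finset.sum_comm]
      _ ≤ T.card * ∑ c ∈ T, 1 := by
          refine mul_le_mul_of_nonneg_left (Finset.sum_le_sum fun c _ => ?_) (Nat.cast_nonneg _)
          exact bessel_set μ S p V hV htriv hirr hne (𝒮.measurable_c hopen c)
      _ = T.card * T.card := by rw [Finset.sum_const, nsmul_eq_mul, mul_one]
  rw [mul_one_div, div_le_iff₀ (by positivity)] at h2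
  have h3 : (S.card : ℝ) ≤ 4 * (M + 1) ^ 2 * (T.card : ℝ) ^ 2 := by linarith
  exact_mod_cast h3.trans (Nat.le_ceil _)

end

end Sys

end Pool.Agent.H848.GO
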