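import Pool.Graph.R_seed8.W353.AT.Dec
import Pool.Graph.R_seed8.W353.L1.Complete

/-!
# Class functions orthogonal to all irreducible characters
-/

set_option autoImplicit false

namespace Pool.Agent.H848.GO

open Complex ComplexConjugate
open Pool.Agent.W353.AT (MRep decomp)

section
variable (Q : Type) [Group Q]

/-- the regular representation -/
noncomputable def regRep : Representation ℂ Q (Q → ℂ) where
  toFun g := LinearMap.funLeft ℂ ℂ (fun x => g⁻¹ * x)
  map_one' := by
    have : (fun x : Q => (1 : Q)⁻¹ * x) = id := by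
      funext x
      simp
    rw [this]
    exact LinearMap.ext fun f => LinearMap.funLeft_id ℂ ℂ f
  map_mul' g h := by
    refine LinearMap.ext fun f => funext fun x => ?_
    change f ((g * h)⁻¹ * x) = f (h⁻¹ * (g⁻¹ * x))
    rw [mul_inv_rev, mul_assoc]

theorem regRep_char [Fintype Q] [DecidableEq Q] (g : Q) :
    (regRep Q).character g = if g = 1 then (Fintype.card Q : ℂ) else 0 := by
  unfold Representation.character
  rw [LinearMap.trace_eq_matrix_trace ℂ (Pi.basisFun ℂ Q)]
  unfold Matrix.trace
  have h1 : ∀ i : Q, Matrix.diag (LinearMap.toMatrix (Pi.basisFun ℂ Q)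
      (Pi.basisFun ℂ Q) (regRep Q g)) i = if g = 1 then 1 else 0 := by
    intro i
    rw [Matrix.diag_apply, LinearMap.toMatrix_apply, Pi.basisFun_apply, Pi.basisFun_repr]
    change (Pi.single i (1 : ℂ) : Q → ℂ) (g⁻¹ * i) = _
    by_cases h : g = 1
    · subst h
      rw [inv_one, one_mul, Pi.single_eq_same, if_pos rfl]
    · rw [if_neg h, Pi.single_eq_of_ne]
      intro h2
      apply h
      have h3 : g⁻¹ = 1 := by
        have := congrArg (· * i⁻¹) h2
        simpa using this
      exact inv_eq_one.1 h3
  rw [Finset.sum_congr rfl fun i _ => h1 i]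
  split_ifs <;> simp

variable {Q}

/-- **Completeness of the irreducible characters.** -/
theorem complete [Fintype Q] (f : Q → ℂ) (hf : ∀ a x, f (x * a * x⁻¹) = f a)
    (h : ∀ y : MRep Q, y.2.IsIrreducible → ∑ q, f q * y.2.character q = 0) (x : Q) : f x = 0 := by
  classical
  obtain ⟨L, hL1, hL2⟩ := decomp (Q := Q) _ (Q → ℂ) (regRep Q) rfl
  have h1 : ∀ L' : List (MRep Q), (∀ y ∈ L', y.2.IsIrreducible) →
      ∑ q, f q * (L'.map fun y => y.2.character (q * x⁻¹)).sum = 0 := by
    intro L'
    induction L' with
    | nil => intro _; simp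
    | cons y L' ih =>
      intro hL'
      have h2 := ih fun z hz => hL' z (List.mem_cons_of_mem _ hz)
      have hy := hL' y List.mem_cons_self
      simp only [List.map_cons, List.sum_cons, mul_add, Finset.sum_add_distrib]
      rw [h2, add_zero]
      obtain ⟨l, hl1, hl2⟩ := Pool.Agent.W353.L1.central y.2 hy f hf
      rw [h y hy] at hl2
      have h3 : ∑ q, f q * y.2.character (q * x⁻¹) =
          LinearMap.trace ℂ _ ((∑ q, f q • y.2 q) * y.2 x⁻¹) := by
        rw [Finset.sum_mul, map_sum]
        refine Finset.sum_congr rfl fun q _ => ?_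
        rw [smul_mul_assoc, map_smul, smul_eq_mul, ← map_mul]
        rfl
      rw [h3, hl1]
      rcases mul_eq_zero.1 hl2 with h4 | h4
      · rw [h4, zero_smul, zero_mul, map_zero]
      · have h5 : y.1 = 0 := by exact_mod_cast h4
        have h6 : Subsingleton (Fin y.1 → ℂ) := by
          rw [h5]
          infer_instance
        have h7 : ((l • (1 : Module.End ℂ (Fin y.1 → ℂ))) * y.2 x⁻¹) = 0 :=
          LinearMap.ext fun z => Subsingleton.elim _ _
        rw [h7, map_zero]
  have h2 := h1 L hL1
  simp only [← hL2, regRep_char] at h2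
  rw [Finset.sum_eq_single x] at h2
  · rw [mul_inv_cancel, if_pos rfl] at h2
    have h3 : (Fintype.card Q : ℂ) ≠ 0 := by exact_mod_cast Fintype.card_ne_zero
    exact (mul_eq_zero.1 h2).resolve_right h3
  · intro q _ hq
    rw [if_neg, mul_zero]
    intro h3
    exact hq (mul_inv_eq_one.1 h3)
  · intro h3
    exact absurd (Finset.mem_univ _) h3

end

end Pool.Agent.H848.GO
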