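import Mathlib

/-!
# The L-functions of the tensor products of exterior powers over number fields, and their Artin twists

`X` is a smooth projective variety of dimension `d` over a number field `K`, with Betti numbers `N i`,
`i ≤ 2 d`.  We consider the L-functions of `Λ^{k_1} H^{i_1}(X) ⊗ ⋯ ⊗ Λ^{k_r} H^{i_r}(X)` over the number
fields `F ⊇ K`, and their twists by complex representations of the absolute Galois group of `K` with
open kernel (Artin representations).
-/

set_option autoImplicit false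

namespace Pool.Agent.H848.GO

open NumberField IsDedekindDomain Filter Topology Polynomial

section
variable {K : Type} [Field K] {n : ℕ}

/-- The set `X` of homogeneous polynomials over `𝓞_K` in `n` variables gives a projective variety over
`K`.  For a field `κ` with `q` elements and a homomorphism `𝓞_K → κ` this is `(q - 1)` times the number
of the points of `X` with coordinates in `κ`: the number of the nonzero solutions of the equations. -/
noncomputable def cone (X : Set (MvPolynomial (Fin n) (𝓞 K))) {κ : Type} [Field κ]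
    (φ : 𝓞 K →+* κ) : ℕ :=
  Nat.card {u : Fin n → κ // u ≠ 0 ∧ ∀ f ∈ X, MvPolynomial.eval₂ φ u f = 0}

/-- `α i a`, `a = 1, …, N i`, are the eigenvalues of the geometric Frobenius at the prime `v` of `F ⊇ K`
on `H^i(X)`, `i = 0, …, 2d`, for a variety `X` of dimension `d`: they have the absolute value
`q_v^{i/2}`, and for every finite extension `κ` of the residue field of `v`, of degree `e`, the number
of the points of `X` with coordinates in `κ` is `∑ (-1)^i ∑_a (α i a)^e`.  By the theorem of Deligne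
such numbers exist at almost all primes if `X` is smooth and `N i` are the Betti numbers of `X`; they
are unique up to the order. -/
def IsFrobenius (X : Set (MvPolynomial (Fin n) (𝓞 K))) (d : ℕ) (N : ℕ → ℕ) {F : Type} [Field F]
    [NumberField F] [Algebra K F] (v : HeightOneSpectrum (𝓞 F))
    (α : ∀ i : Fin (2 * d + 1), Fin (N i) → ℂ) : Prop :=
  (∀ i a, ‖α i a‖ = (Ideal.absNorm v.asIdeal : ℝ) ^ (((i : ℕ) : ℝ) / 2)) ∧
    ∀ (κ : Type) [Field κ] [Finite κ] (φ : 𝓞 F →+* κ) (e : ℕ), RingHom.ker φ = v.asIdeal →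
      Nat.card κ = Ideal.absNorm v.asIdeal ^ e →
      (cone X (φ.comp (algebraMap (𝓞 K) (𝓞 F))) : ℂ) = ((Ideal.absNorm v.asIdeal : ℂ) ^ e - 1) *
        ∑ i : Fin (2 * d + 1), (-1 : ℂ) ^ (i : ℕ) * ∑ a, α i a ^ e

/-- A sequence `w` of pairs `(i_j, k_j)` stands for the representation
`Λ^{k_1} H^{i_1}(X) ⊗ ⋯ ⊗ Λ^{k_r} H^{i_r}(X)`.  Its weight is `∑ i_j k_j`. -/
def weight {d r : ℕ} (w : Fin r → Fin (2 * d + 1) × ℕ) : ℕ := ∑ j, ((w j).1 : ℕ) * (w j).2

/-- The basis of the representation: the families `(S_j)` of sets `S_j` of `k_j` basis vectors of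
`H^{i_j}(X)`. -/
def basis {d : ℕ} (N : ℕ → ℕ) {r : ℕ} (w : Fin r → Fin (2 * d + 1) × ℕ) :
    Finset (∀ j, Finset (Fin (N (w j).1))) :=
  Fintype.piFinset fun j => Finset.univ.powersetCard (w j).2

/-- The eigenvalue on the basis vector `S`. -/
def eigenvalue {d : ℕ} {N : ℕ → ℕ} {r : ℕ} (w : Fin r → Fin (2 * d + 1) × ℕ)
    (α : ∀ i : Fin (2 * d + 1), Fin (N i) → ℂ) (S : ∀ j, Finset (Fin (N (w j).1))) : ℂ :=
  ∏ j, ∏ a ∈ S j, α (w j).1 a

/-- The polynomials `B v` are the Euler factors of `L(w / F, s)`, the L-function of the representation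
`Λ^{k_1} H^{i_1}(X) ⊗ ⋯ ⊗ Λ^{k_r} H^{i_r}(X)` over `F ⊇ K`: at almost all primes `v` of `F` the Euler
factor is the product of the `1 - α_S z` over the eigenvalues `α_S`; at the other primes `B v` is
an arbitrary polynomial, and no factor `1 / B_v(q_v^{-s})` has a pole at `s = weight / 2 + 1`. -/
def IsEulerSystem (X : Set (MvPolynomial (Fin n) (𝓞 K))) (d : ℕ) (N : ℕ → ℕ) {r : ℕ}
    (w : Fin r → Fin (2 * d + 1) × ℕ) {F : Type} [Field F] [NumberField F] [Algebra K F]
    (B : HeightOneSpectrum (𝓞 F) → ℂ[X]) : Prop :=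
  (∀ᶠ v in cofinite, ∃ α : ∀ i : Fin (2 * d + 1), Fin (N i) → ℂ, IsFrobenius X d N v α ∧
    ∀ z : ℂ, (B v).eval z = ∏ S ∈ basis N w, (1 - eigenvalue w α S * z)) ∧
  ∀ v, (B v).eval ((Ideal.absNorm v.asIdeal : ℂ) ^ (-((weight w : ℂ) / 2 + 1))) ≠ 0

/-- The Euler product `∏_v B_v(q_v^{-s})⁻¹`. -/
noncomputable def LFun {F : Type} [Field F] [NumberField F]
    (B : HeightOneSpectrum (𝓞 F) → ℂ[X]) (s : ℂ) : ℂ :=
  ∏' v : HeightOneSpectrum (𝓞 F), ((B v).eval ((Ideal.absNorm v.asIdeal : ℂ) ^ (-s)))⁻¹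

/-- The Euler product has a pole of order `m` at `s₀` in the sense that
`log |L(s₀ + ε)| / log(1/ε)` tends to `m` as `ε → 0+`.  This is the case if `(s - s₀)^m L(s)`
has a finite nonzero limit as real `s → s₀⁺`. -/
def HasPole {F : Type} [Field F] [NumberField F] (B : HeightOneSpectrum (𝓞 F) → ℂ[X]) (s₀ : ℂ)
    (m : ℤ) : Prop :=
  Tendsto (fun ε : ℝ => Real.log ‖LFun B (s₀ + ε)‖ / Real.log (1 / ε)) (𝓝[>] 0) (𝓝 (m : ℝ))

/-- `F` is a number field, and `L(w / F, s)` has a pole of order `m` at `s = weight / 2 + 1`. -/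
def PoleOver (X : Set (MvPolynomial (Fin n) (𝓞 K))) (d : ℕ) (N : ℕ → ℕ) {r : ℕ}
    (w : Fin r → Fin (2 * d + 1) × ℕ) (F : Type) [Field F] [Algebra K F] (m : ℤ) : Prop :=
  ∃ (_ : NumberField F) (B : HeightOneSpectrum (𝓞 F) → ℂ[X]),
    IsEulerSystem X d N w B ∧ HasPole B ((weight w : ℂ) / 2 + 1) m

/-- `σ` is an arithmetic Frobenius element at the prime `v` of `K`: there is a maximal ideal `Q` above
`v` of the ring of all algebraic integers with `σ x ≡ x ^ q_v` modulo `Q` for all `x`. -/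
def IsFrobeniusElement [NumberField K] (v : HeightOneSpectrum (𝓞 K))
    (σ : Gal(AlgebraicClosure K/K)) : Prop :=
  ∃ Q : Ideal (𝓞 (AlgebraicClosure K)), Q.IsMaximal ∧
    Q.comap (algebraMap (𝓞 K) (𝓞 (AlgebraicClosure K))) = v.asIdeal ∧
    ∀ x : 𝓞 (AlgebraicClosure K), σ • x - x ^ Ideal.absNorm v.asIdeal ∈ Q

/-- An Artin representation: a complex representation of the absolute Galois group that is trivial on
an open subgroup. -/
def IsArtin {k : ℕ} (χ : Representation ℂ Gal(AlgebraicClosure K/K) (Fin k → ℂ)) : Prop :=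
  ∃ U : Subgroup Gal(AlgebraicClosure K/K), IsOpen (U : Set Gal(AlgebraicClosure K/K)) ∧
    ∀ u ∈ U, χ u = 1

/-- The polynomials `B v` are the Euler factors of `L(w ⊗ χ, s)`: for almost all primes `v` of `K`,
`B_v(z) = ∏_S det(1 - α_S z χ(σ⁻¹))` for the eigenvalues `α_S` and the geometric Frobenius `σ⁻¹`; at
the other primes `B v` is an arbitrary polynomial, and no factor `1 / B_v(q_v^{-s})` has a pole at
`s = weight / 2 + 1`. -/
def IsTwistedSystem [NumberField K] (X : Set (MvPolynomial (Fin n) (𝓞 K))) (d : ℕ) (N : ℕ → ℕ)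
    {r : ℕ} (w : Fin r → Fin (2 * d + 1) × ℕ) {k : ℕ}
    (χ : Representation ℂ Gal(AlgebraicClosure K/K) (Fin k → ℂ))
    (B : HeightOneSpectrum (𝓞 K) → ℂ[X]) : Prop :=
  (∀ᶠ v in cofinite, ∃ α : ∀ i : Fin (2 * d + 1), Fin (N i) → ℂ, IsFrobenius X d N v α ∧
    ∀ σ, IsFrobeniusElement v σ → ∀ z : ℂ,
      (B v).eval z = ∏ S ∈ basis N w, LinearMap.det (1 - (eigenvalue w α S * z) • χ σ⁻¹)) ∧
  ∀ v, (B v).eval ((Ideal.absNorm v.asIdeal : ℂ) ^ (-((weight w : ℂ) / 2 + 1))) ≠ 0

/-- `L(w ⊗ χ, s)` has a pole of order `m` at `s = weight / 2 + 1`. -/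
def TwistedPole [NumberField K] (X : Set (MvPolynomial (Fin n) (𝓞 K))) (d : ℕ) (N : ℕ → ℕ)
    {r : ℕ} (w : Fin r → Fin (2 * d + 1) × ℕ) {k : ℕ}
    (χ : Representation ℂ Gal(AlgebraicClosure K/K) (Fin k → ℂ)) (m : ℤ) : Prop :=
  ∃ B : HeightOneSpectrum (𝓞 K) → ℂ[X],
    IsTwistedSystem X d N w χ B ∧ HasPole B ((weight w : ℂ) / 2 + 1) m

/-- The dimension of the space of the elements of `V` fixed by the absolute Galois group of `F`: if `V`
is the space of the classes of the algebraic cycles over the algebraic closure, the rank of the group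
of the algebraic cycles over `F` modulo homological equivalence. -/
noncomputable def rank {V : Type} [AddCommGroup V] [Module ℚ V]
    (ρ : Representation ℚ Gal(AlgebraicClosure K/K) V)
    (F : IntermediateField K (AlgebraicClosure K)) : ℕ :=
  Module.finrank ℚ (Representation.invariants (ρ.comp F.fixingSubgroup.subtype))

end

end Pool.Agent.H848.GO
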