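import Pool.Agent.H848.GO.Eig
import Pool.Agent.H848.PD.Count
import Pool.Graph.R_seed8.W353.AT.Dec

/-!
# The functions on `A × ℚ` attached to the elements of a group
-/

set_option autoImplicit false

namespace Pool.Agent.H848.GO

open Complex ComplexConjugate
open Pool.Agent.W353.AT (MRep)
open Pool.Agent.H848.PD (IsPD)

/-- Families of integral combinations of characters, with positivity. -/
structure Sys (G A : Type) [Group G] [AddCommGroup A] where
  E : A → Finset (MRep G)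
  δ : A → MRep G → ℤ
  U : A → Subgroup G
  M : ℕ
  normal : ∀ l, (U l).Normal
  fin : ∀ l, Finite (G ⧸ U l)
  triv : ∀ l, ∀ p ∈ E l, ∀ u ∈ U l, p.2 u = 1
  pd : ∀ (g : G) (ι : Type) (s : Finset ι) (a : ι → A) (u : ι → ℝ),
    0 ≤ ∑ i ∈ s, ∑ j ∈ s, u i * u j *
      ∑ p ∈ E (a i - a j), (δ (a i - a j) p : ℝ) * (p.2.character g).re
  zero : ∀ g, ∑ p ∈ E 0, (δ 0 p : ℝ) * (p.2.character g).re = M
  symm : ∀ l g, ∑ p ∈ E (-l), (δ (-l) p : ℝ) * (p.2.character g).re =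
    ∑ p ∈ E l, (δ l p : ℝ) * (p.2.character g).re

namespace Sys
variable {G A : Type} [Group G] [AddCommGroup A] (𝒮 : Sys G A)

/-- the combination of characters -/
noncomputable def Θ (l : A) (g : G) : ℝ := ∑ p ∈ 𝒮.E l, (𝒮.δ l p : ℝ) * (p.2.character g).re

/-- the multiplicities -/
noncomputable def c (g : G) (x : A × ℚ) : ℤ :=
  ∑ p ∈ 𝒮.E x.1, 𝒮.δ x.1 p * (mult (p.2 g) x.2 + mult (p.2 g) (-x.2))

theorem pow_mem (g : G) (l : A) {n : ℕ} (h : Nat.card (G ⧸ 𝒮.U l) ∣ n) : g ^ n ∈ 𝒮.U l := by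
  have := 𝒮.normal l
  have := 𝒮.fin l
  obtain ⟨k, rfl⟩ := h
  rw [← QuotientGroup.eq_one_iff, QuotientGroup.mk_pow, pow_mul, pow_card_eq_one', one_pow]

theorem pow_eq_one {l : A} {p : MRep G} (hp : p ∈ 𝒮.E l) (g : G) {n : ℕ}
    (h : Nat.card (G ⧸ 𝒮.U l) ∣ n) : (p.2 g) ^ n = 1 := by
  rw [← map_pow]
  exact 𝒮.triv l p hp _ (𝒮.pow_mem g l h)

theorem c_eq (g : G) (l : A) {q : ℚ} {n : ℕ} (hn : 0 < n) (h : Nat.card (G ⧸ 𝒮.U l) ∣ n)
    (hq : ∃ k : ℤ, (n : ℚ) * q = k) :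
    (n : ℝ) * 𝒮.c g (l, q) = 2 * ∑ k ∈ Finset.range n, 𝒮.Θ l (g ^ k) * (ee (k * q)).re := by
  have hq' : ∃ k : ℤ, (n : ℚ) * (-q) = k := by
    obtain ⟨k, hk⟩ := hq
    exact ⟨-k, by push_cast; rw [← hk]; ring⟩
  have h1 : ∀ p ∈ 𝒮.E l, (n : ℝ) * ((mult (p.2 g) q : ℝ) + mult (p.2 g) (-q)) =
      2 * ∑ k ∈ Finset.range n, (p.2.character (g ^ k)).re * (ee (k * q)).re := by
    intro p hp
    have e1 := mult_eq (p.2 g) hn (𝒮.pow_eq_one hp g h) hq
    have e2 := mult_eq (p.2 g) hn (𝒮.pow_eq_one hp g h) hq'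
    have e3 : (n : ℂ) * (mult (p.2 g) q + mult (p.2 g) (-q)) =
        ∑ k ∈ Finset.range n, p.2.character (g ^ k) * ((2 * (ee (k * q)).re : ℝ) : ℂ) := by
      rw [mul_add, e1, e2, ← Finset.sum_add_distrib]
      refine Finset.sum_congr rfl fun k _ => ?_
      rw [← mul_add]
      have e4 : LinearMap.trace ℂ (Fin p.1 → ℂ) (p.2 g ^ k) = p.2.character (g ^ k) := by
        unfold Representation.character
        rw [map_pow p.2 g k]
      rw [e4]
      congr 1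
      have e5 : -((k : ℚ) * -q) = k * q := by ring
      rw [e5, ee_conj]
      have := Complex.add_conj (ee (k * q))
      rw [add_comm] at this
      rw [this]
    have e4 := congrArg Complex.re e3
    rw [Complex.re_sum] at e4
    have e5 : ((n : ℂ) * (mult (p.2 g) q + mult (p.2 g) (-q))).re =
        (n : ℝ) * ((mult (p.2 g) q : ℝ) + mult (p.2 g) (-q)) := by
      have : ((n : ℂ) * (mult (p.2 g) q + mult (p.2 g) (-q))) =
          (((n : ℝ) * ((mult (p.2 g) q : ℝ) + mult (p.2 g) (-q)) : ℝ) : ℂ) := by push_cast; rfl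
      rw [this, Complex.ofReal_re]
    rw [e5] at e4
    rw [e4, Finset.mul_sum]
    refine Finset.sum_congr rfl fun k _ => ?_
    rw [Complex.re_mul_ofReal]
    ring
  unfold c Θ
  simp only
  push_cast
  rw [Finset.mul_sum]
  have h2 : ∀ p ∈ 𝒮.E l, (n : ℝ) * ((𝒮.δ l p : ℝ) * ((mult (p.2 g) q : ℝ) + mult (p.2 g) (-q))) =
      2 * ∑ k ∈ Finset.range n, ((𝒮.δ l p : ℝ) * (p.2.character (g ^ k)).re) * (ee (k * q)).re := by
    intro p hp
    have := h1 p hp
    calc (n : ℝ) * ((𝒮.δ l p : ℝ) * ((mult (p.2 g) q : ℝ) + mult (p.2 g) (-q))) =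
        (𝒮.δ l p : ℝ) * ((n : ℝ) * ((mult (p.2 g) q : ℝ) + mult (p.2 g) (-q))) := by ring
      _ = (𝒮.δ l p : ℝ) * (2 * ∑ k ∈ Finset.range n,
          (p.2.character (g ^ k)).re * (ee (k * q)).re) := by rw [this]
      _ = _ := by
        rw [Finset.mul_sum, Finset.mul_sum, Finset.mul_sum]
        exact Finset.sum_congr rfl fun k _ => by ring
  rw [Finset.sum_congr rfl h2, ← Finset.mul_sum, Finset.sum_comm]
  congr 1
  refine Finset.sum_congr rfl fun k _ => ?_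
  rw [Finset.sum_mul]

theorem Θ_inv (l : A) (g : G) : 𝒮.Θ l g⁻¹ = 𝒮.Θ l g := by
  unfold Θ
  refine Finset.sum_congr rfl fun p hp => ?_
  congr 1
  have hn : 0 < Nat.card (G ⧸ 𝒮.U l) := by
    have := 𝒮.fin l
    exact Nat.card_pos
  have h1 := Pool.Agent.W540.BE.trace_conj (p.2 g) (p.2 g⁻¹) (by
    rw [← map_mul, mul_inv_cancel, map_one]) hn (𝒮.pow_eq_one hp g dvd_rfl)
  have h2 : p.2.character g⁻¹ = conj (p.2.character g) := h1.symm
  rw [h2, Complex.conj_re]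

/-- a common exponent -/
theorem exists_exp {ι : Type*} (s : Finset ι) (l : ι → A) (q : ι → ℚ) : ∃ n : ℕ, 0 < n ∧
    (∀ i ∈ s, Nat.card (G ⧸ 𝒮.U (l i)) ∣ n) ∧ ∀ i ∈ s, ∃ k : ℤ, (n : ℚ) * q i = k := by
  classical
  refine ⟨∏ i ∈ s, (Nat.card (G ⧸ 𝒮.U (l i)) * (q i).den), ?_, fun i hi => ?_, fun i hi => ?_⟩
  · refine Finset.prod_pos fun i _ => Nat.mul_pos ?_ (q i).pos
    have := 𝒮.fin (l i)
    exact Nat.card_pos
  · exact (Dvd.intro _ rfl).trans (Finset.dvd_prod_of_mem _ hi)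
  · obtain ⟨m, hm⟩ := (Dvd.intro_left _ rfl : (q i).den ∣
      Nat.card (G ⧸ 𝒮.U (l i)) * (q i).den).trans
        (Finset.dvd_prod_of_mem (fun i => Nat.card (G ⧸ 𝒮.U (l i)) * (q i).den) hi)
    rw [hm]
    refine ⟨m * (q i).num, ?_⟩
    push_cast
    rw [mul_comm ((q i).den : ℚ), mul_assoc, Rat.den_mul_eq_num]

theorem c_symm (g : G) (x : A × ℚ) : 𝒮.c g (-x) = 𝒮.c g x := by
  obtain ⟨l, q⟩ := x
  obtain ⟨n, hn, h1, h2⟩ := 𝒮.exists_exp (Finset.univ : Finset Bool) (fun b => cond b l (-l))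
    (fun _ => q)
  have e1 := 𝒮.c_eq g l hn (h1 true (Finset.mem_univ _)) (h2 true (Finset.mem_univ _))
  obtain ⟨k, hk⟩ := h2 true (Finset.mem_univ _)
  have e2 := 𝒮.c_eq g (-l) (q := -q) hn (h1 false (Finset.mem_univ _)) ⟨-k, by
    push_cast
    rw [← hk]
    ring⟩
  have e3 : (n : ℝ) * 𝒮.c g (-l, -q) = n * 𝒮.c g (l, q) := by
    rw [e1, e2]
    congr 1
    refine Finset.sum_congr rfl fun k _ => ?_
    have e4 : (k : ℚ) * -q = -(k * q) := by ring
    rw [e4, ee_conj, Complex.conj_re]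
    congr 1
    exact 𝒮.symm l (g ^ k)
  have hn0 : (n : ℝ) ≠ 0 := by exact_mod_cast hn.ne'
  have e4 := mul_left_cancel₀ hn0 e3
  have e5 : (-(l, q) : A × ℚ) = (-l, -q) := rfl
  rw [e5]
  exact_mod_cast e4

theorem c_pd (g : G) : IsPD (𝒮.c g) := by
  classical
  refine ⟨𝒮.c_symm g, fun f => ?_⟩
  obtain ⟨n, hn, h1, h2⟩ := 𝒮.exists_exp (f.support ×ˢ f.support)
    (fun x => x.1.1 - x.2.1) (fun x => x.1.2 - x.2.2)
  have hn0 : (0 : ℝ) < n := by exact_mod_cast hn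
  have e1 : (n : ℝ) * (f.sum fun x a => f.sum fun y b => a * b * (𝒮.c g (x - y) : ℝ)) =
      2 * ∑ k ∈ Finset.range n,
        ((∑ x ∈ f.support, ∑ y ∈ f.support, (f x * (ee (k * x.2)).re) *
          (f y * (ee (k * y.2)).re) * 𝒮.Θ (x.1 - y.1) (g ^ k)) +
        (∑ x ∈ f.support, ∑ y ∈ f.support, (f x * (ee (k * x.2)).im) *
          (f y * (ee (k * y.2)).im) * 𝒮.Θ (x.1 - y.1) (g ^ k))) := by
    have e2 : ∀ x ∈ f.support, ∀ y ∈ f.support, (n : ℝ) * (f x * f y * (𝒮.c g (x - y) : ℝ)) =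
        2 * ∑ k ∈ Finset.range n, ((f x * (ee (k * x.2)).re) *
          (f y * (ee (k * y.2)).re) * 𝒮.Θ (x.1 - y.1) (g ^ k) + (f x * (ee (k * x.2)).im) *
          (f y * (ee (k * y.2)).im) * 𝒮.Θ (x.1 - y.1) (g ^ k)) := by
      intro x hx y hy
      have e3 := 𝒮.c_eq g (x.1 - y.1) (q := x.2 - y.2) hn
        (h1 (x, y) (Finset.mem_product.2 ⟨hx, hy⟩)) (h2 (x, y) (Finset.mem_product.2 ⟨hx, hy⟩))
      have e4 : x - y = (x.1 - y.1, x.2 - y.2) := rfl
      rw [e4]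
      calc (n : ℝ) * (f x * f y * (𝒮.c g (x.1 - y.1, x.2 - y.2) : ℝ)) =
          f x * f y * (n * 𝒮.c g (x.1 - y.1, x.2 - y.2)) := by ring
        _ = f x * f y * (2 * ∑ k ∈ Finset.range n,
            𝒮.Θ (x.1 - y.1) (g ^ k) * (ee (k * (x.2 - y.2))).re) := by rw [e3]
        _ = _ := by
          rw [mul_left_comm, Finset.mul_sum]
          congr 1
          refine Finset.sum_congr rfl fun k _ => ?_
          have e5 : (k : ℚ) * (x.2 - y.2) = k * x.2 + -(k * y.2) := by ring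
          rw [e5, ee_add, ee_conj, Complex.mul_re, Complex.conj_re, Complex.conj_im]
          ring
    rw [Finsupp.sum, Finset.mul_sum]
    simp only [Finsupp.sum, Finset.mul_sum]
    rw [Finset.sum_congr rfl fun x hx => Finset.sum_congr rfl fun y hy => e2 x hx y hy]
    simp only [Finset.mul_sum]
    rw [Finset.sum_congr rfl fun x _ => Finset.sum_comm, Finset.sum_comm]
    refine Finset.sum_congr rfl fun k _ => ?_
    rw [← Finset.sum_add_distrib, Finset.mul_sum]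
    refine Finset.sum_congr rfl fun x _ => ?_
    rw [← Finset.sum_add_distrib, Finset.mul_sum]
  have e2 : 0 ≤ (n : ℝ) * (f.sum fun x a => f.sum fun y b => a * b * (𝒮.c g (x - y) : ℝ)) := by
    rw [e1]
    refine mul_nonneg (by norm_num) (Finset.sum_nonneg fun k _ => add_nonneg ?_ ?_)
    · exact 𝒮.pd (g ^ k) (A × ℚ) f.support (fun x => x.1) (fun x => f x * (ee (k * x.2)).re)
    · exact 𝒮.pd (g ^ k) (A × ℚ) f.support (fun x => x.1) (fun x => f x * (ee (k * x.2)).im)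
  exact nonneg_of_mul_nonneg_right e2 hn0

theorem sum_ee {n : ℕ} {q : ℚ} (hq : ∃ k : ℤ, (n : ℚ) * q = k)
    (hne : ∀ k : ℤ, q ≠ k) : ∑ k ∈ Finset.range n, ee (k * q) = 0 := by
  have h1 : ee q ≠ 1 := fun h => by
    obtain ⟨k, hk⟩ := ee_eq_one h
    exact hne k hk
  have h2 : ∀ k : ℕ, ee (k * q) = ee q ^ k := fun k => ee_mul k q
  simp only [h2]
  rw [geom_sum_eq h1, ← ee_mul]
  obtain ⟨k, hk⟩ := hq
  rw [hk, ee_int, sub_self, zero_div]

theorem c_zero (g : G) {q : ℚ} (hne : ∀ k : ℤ, q ≠ k) : 𝒮.c g (0, q) = 0 := by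
  obtain ⟨n, hn, h1, h2⟩ := 𝒮.exists_exp (Finset.univ : Finset Unit) (fun _ => 0) (fun _ => q)
  have e1 := 𝒮.c_eq g 0 hn (h1 () (Finset.mem_univ _)) (h2 () (Finset.mem_univ _))
  have e2 : ∀ k : ℕ, 𝒮.Θ 0 (g ^ k) = 𝒮.M := fun k => 𝒮.zero _
  simp only [e2] at e1
  rw [← Finset.mul_sum, ← Complex.re_sum, sum_ee (h2 () (Finset.mem_univ _)) hne,
    Complex.zero_re, mul_zero, mul_zero] at e1
  have hn0 : (n : ℝ) ≠ 0 := by exact_mod_cast hn.ne'
  have e3 := (mul_eq_zero.1 e1).resolve_left hn0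
  exact_mod_cast e3

theorem c_zero_zero (g : G) : 𝒮.c g (0, 0) = 2 * 𝒮.M := by
  obtain ⟨n, hn, h1, h2⟩ := 𝒮.exists_exp (Finset.univ : Finset Unit) (fun _ => 0) (fun _ => 0)
  have e1 := 𝒮.c_eq g 0 hn (h1 () (Finset.mem_univ _)) (h2 () (Finset.mem_univ _))
  have e2 : ∀ k : ℕ, 𝒮.Θ 0 (g ^ k) = 𝒮.M := fun k => 𝒮.zero _
  simp only [e2, mul_zero, ee_zero, Complex.one_re, mul_one] at e1
  rw [Finset.sum_const, Finset.card_range, nsmul_eq_mul] at e1
  have hn0 : (n : ℝ) ≠ 0 := by exact_mod_cast hn.ne'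
  have e3 : (n : ℝ) * 𝒮.c g (0, 0) = n * (2 * 𝒮.M) := by rw [e1]; ring
  have e4 := mul_left_cancel₀ hn0 e3
  exact_mod_cast e4

/-- the functions occurring are countably many -/
theorem countable_range_c [Countable A] [Module.Finite ℤ A] : (Set.range 𝒮.c).Countable := by
  refine (Pool.Agent.H848.PD.countable_pd (A := A) (2 * 𝒮.M)).mono ?_
  rintro _ ⟨g, rfl⟩
  refine ⟨𝒮.c_pd g, fun q hq => 𝒮.c_zero g hq, ?_⟩
  rw [𝒮.c_zero_zero]
  push_cast
  exact le_rfl

/-- the function determines the values of the combinations of characters -/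
theorem Θ_of_c {g g' : G} (h : 𝒮.c g = 𝒮.c g') (l : A) : 𝒮.Θ l g = 𝒮.Θ l g' := by
  classical
  obtain ⟨n, hn, h1, h2⟩ := 𝒮.exists_exp (Finset.univ : Finset Unit) (fun _ => l) (fun _ => 0)
  have hd := h1 () (Finset.mem_univ _)
  have hn0 : (n : ℝ) ≠ 0 := by exact_mod_cast hn.ne'
  have hnq : (n : ℚ) ≠ 0 := by exact_mod_cast hn.ne'
  have hq : ∀ j : ℕ, ∃ k : ℤ, (n : ℚ) * ((j : ℚ) / n) = k := fun j =>
    ⟨j, by rw [mul_div_cancel₀ _ hnq]; push_cast; rfl⟩
  -- inversion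
  have key : ∀ g : G, ∑ j ∈ Finset.range n, (n : ℝ) * (𝒮.c g (l, (j : ℚ) / n)) *
      (ee ((j : ℚ) / n)).re = 2 * (n * 𝒮.Θ l g) := by
    intro g
    have e1 : ∀ j ∈ Finset.range n, (n : ℝ) * (𝒮.c g (l, (j : ℚ) / n)) *
        (ee ((j : ℚ) / n)).re = ∑ k ∈ Finset.range n, 𝒮.Θ l (g ^ k) *
          ((ee (j * (((k : ℚ) + 1) / n))).re + (ee (j * (((k : ℚ) - 1) / n))).re) := by
      intro j _
      rw [𝒮.c_eq g l hn hd (hq j), Finset.mul_sum, Finset.sum_mul]
      refine Finset.sum_congr rfl fun k _ => ?_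
      have e2 : (j : ℚ) * (((k : ℚ) + 1) / n) = k * (j / n) + j / n := by ring
      have e3 : (j : ℚ) * (((k : ℚ) - 1) / n) = k * (j / n) + -(j / n) := by ring
      rw [e2, e3, ee_add, ee_add, ee_conj, Complex.mul_re, Complex.mul_re, Complex.conj_re,
        Complex.conj_im]
      ring
    rw [Finset.sum_congr rfl e1, Finset.sum_comm]
    have e2 : ∀ k ∈ Finset.range n, ∑ j ∈ Finset.range n, 𝒮.Θ l (g ^ k) *
        ((ee (j * (((k : ℚ) + 1) / n))).re + (ee (j * (((k : ℚ) - 1) / n))).re) =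
        (if (n : ℤ) ∣ (k : ℤ) + 1 then 𝒮.Θ l (g ^ k) * n else 0) +
        (if (n : ℤ) ∣ (k : ℤ) - 1 then 𝒮.Θ l (g ^ k) * n else 0) := by
      intro k _
      have e3 : ∀ m : ℤ, ∑ j ∈ Finset.range n, (ee (j * ((m : ℚ) / n))).re =
          if (n : ℤ) ∣ m then (n : ℝ) else 0 := by
        intro m
        split_ifs with hm
        · obtain ⟨t, rfl⟩ := hm
          have e4 : ∀ j : ℕ, ee ((j : ℚ) * ((((n : ℤ) * t : ℤ) : ℚ) / n)) = 1 := by
            intro j
            have : (j : ℚ) * ((((n : ℤ) * t : ℤ) : ℚ) / n) = ((j * t : ℤ) : ℚ) := by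
              push_cast
              field_simp
            rw [this, ee_int]
          simp only [e4, Complex.one_re]
          rw [Finset.sum_const, Finset.card_range, nsmul_eq_mul, mul_one]
        · rw [← Complex.re_sum, sum_ee, Complex.zero_re]
          · exact ⟨m, by field_simp⟩
          · intro t ht
            apply hm
            refine ⟨t, ?_⟩
            rw [div_eq_iff hnq] at ht
            have : (m : ℚ) = ((n * t : ℤ) : ℚ) := by push_cast; rw [ht]; ring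
            exact_mod_cast this
      rw [← Finset.mul_sum, Finset.sum_add_distrib]
      have e5 := e3 ((k : ℤ) + 1)
      have e6 := e3 ((k : ℤ) - 1)
      push_cast at e5 e6
      rw [e5, e6]
      split_ifs <;> ring
    rw [Finset.sum_congr rfl e2, Finset.sum_add_distrib]
    -- exactly one term in each sum
    have hmod : ∀ m : ℤ, ∀ x : ℝ, (∀ k : ℕ, (n : ℤ) ∣ (k : ℤ) - m → 𝒮.Θ l (g ^ k) = x) →
        ∑ k ∈ Finset.range n, (if (n : ℤ) ∣ (k : ℤ) - m then 𝒮.Θ l (g ^ k) * n else 0) =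
          x * n := by
      intro m x hx
      set k₀ : ℕ := (m % (n : ℤ)).toNat with hk₀
      have hnz : (n : ℤ) ≠ 0 := by exact_mod_cast hn.ne'
      have hk1 : (k₀ : ℤ) = m % n := Int.toNat_of_nonneg (Int.emod_nonneg _ hnz)
      have hk2 : k₀ < n := by
        have := Int.emod_lt_of_pos m (by exact_mod_cast hn : (0 : ℤ) < n)
        omega
      have hk3 : (n : ℤ) ∣ (k₀ : ℤ) - m := by
        rw [hk1, Int.emod_def]
        exact ⟨-(m / n), by ring⟩
      rw [Finset.sum_eq_single k₀]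
      · rw [if_pos hk3, hx k₀ hk3]
      · intro k hk hne
        rw [if_neg]
        intro h3
        apply hne
        have h4 : (n : ℤ) ∣ (k : ℤ) - k₀ := by
          have := dvd_sub h3 hk3
          have e : (k : ℤ) - m - ((k₀ : ℤ) - m) = k - k₀ := by ring
          rwa [e] at this
        have h5 := Finset.mem_range.1 hk
        obtain ⟨t, ht⟩ := h4
        have ht0 : t = 0 := by
          by_contra h0
          rcases lt_or_gt_of_ne h0 with h | h
          · nlinarith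
          · nlinarith
        rw [ht0, mul_zero] at ht
        omega
      · intro h
        exact absurd (Finset.mem_range.2 hk2) h
    have hper : ∀ (k : ℕ) (m : ℤ), (n : ℤ) ∣ (k : ℤ) - m → 𝒮.Θ l (g ^ k) = 𝒮.Θ l (g ^ m) := by
      intro k m hkm
      obtain ⟨t, ht⟩ := hkm
      have e3 : g ^ k = g ^ m * (g ^ n) ^ t := by
        rw [← zpow_natCast g k, ← zpow_natCast g n, ← zpow_mul, ← zpow_add]
        congr 1
        omega
      rw [e3]
      unfold Θ
      refine Finset.sum_congr rfl fun p hp => ?_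
      have e4 : p.2 (g ^ m * (g ^ n) ^ t) = p.2 (g ^ m) := by
        rw [map_mul, 𝒮.triv l p hp _ (Subgroup.zpow_mem _ (𝒮.pow_mem g l hd) t), mul_one]
      unfold Representation.character
      rw [e4]
    have e7 := hmod (-1) (𝒮.Θ l g) (fun k hk => by
      rw [hper k (-1) hk, zpow_neg, zpow_one, Θ_inv])
    have e8 := hmod 1 (𝒮.Θ l g) (fun k hk => by
      rw [hper k 1 hk, zpow_one])
    simp only [sub_neg_eq_add] at e7
    rw [e7, e8]
    ring
  have k1 := key g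
  have k2 := key g'
  rw [h, k2] at k1
  have k3 := mul_left_cancel₀ (two_ne_zero) k1
  exact (mul_left_cancel₀ hn0 k3).symm

end Sys

end Pool.Agent.H848.GO
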