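import Mathlib

/-!
# Multiplicities of the eigenvalues of an endomorphism of finite order
-/

set_option autoImplicit false

namespace Pool.Agent.H848.GO

open Complex ComplexConjugate

/-- the root of unity `exp (2 π i q)` -/
noncomputable def ee (q : ℚ) : ℂ := exp (2 * Real.pi * I * q)

theorem ee_add (q q' : ℚ) : ee (q + q') = ee q * ee q' := by
  unfold ee
  rw [← exp_add]
  congr 1
  push_cast
  ring

theorem ee_zero : ee 0 = 1 := by
  unfold ee
  simp

theorem ee_ne (q : ℚ) : ee q ≠ 0 := exp_ne_zero _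

theorem ee_neg (q : ℚ) : ee (-q) = (ee q)⁻¹ := by
  refine eq_inv_of_mul_eq_one_left ?_
  rw [← ee_add, neg_add_cancel, ee_zero]

theorem ee_mul (k : ℕ) (q : ℚ) : ee (k * q) = ee q ^ k := by
  induction k with
  | zero => simp [ee_zero]
  | succ k ih =>
    rw [pow_succ, ← ih, ← ee_add]
    congr 1
    push_cast
    ring

theorem ee_int (k : ℤ) : ee k = 1 := by
  unfold ee
  rw [exp_eq_one_iff]
  exact ⟨k, by push_cast; ring⟩

theorem norm_ee (q : ℚ) : ‖ee q‖ = 1 := by
  unfold ee
  rw [Complex.norm_exp]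
  simp

theorem ee_conj (q : ℚ) : ee (-q) = conj (ee q) := by
  rw [ee_neg, Complex.inv_eq_conj (norm_ee q)]

theorem ee_eq_one {q : ℚ} (h : ee q = 1) : ∃ k : ℤ, q = k := by
  unfold ee at h
  rw [exp_eq_one_iff] at h
  obtain ⟨k, hk⟩ := h
  refine ⟨k, ?_⟩
  have h1 : (2 * Real.pi * I : ℂ) ≠ 0 := Complex.two_pi_I_ne_zero
  have h2 : (2 * Real.pi * I : ℂ) * (q : ℂ) = 2 * Real.pi * I * k := by rw [hk]; ring
  have h3 := mul_left_cancel₀ h1 h2
  exact_mod_cast h3

/-- the multiplicity of the eigenvalue `exp (2 π i q)` -/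
noncomputable def mult {m : ℕ} (A : Module.End ℂ (Fin m → ℂ)) (q : ℚ) : ℕ :=
  Module.finrank ℂ (Module.End.eigenspace A (ee q))

theorem mult_eq {m : ℕ} (A : Module.End ℂ (Fin m → ℂ)) {n : ℕ} (hn : 0 < n) (hA : A ^ n = 1)
    {q : ℚ} (hq : ∃ k : ℤ, (n : ℚ) * q = k) :
    (n : ℂ) * mult A q = ∑ k ∈ Finset.range n, LinearMap.trace ℂ _ (A ^ k) * ee (-(k * q)) := by
  classical
  have hn0 : (n : ℂ) ≠ 0 := by exact_mod_cast hn.ne'
  obtain ⟨k₀, hk₀⟩ := hq
  set C : Module.End ℂ (Fin m → ℂ) := (ee q)⁻¹ • A with hC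
  have hCk : ∀ k : ℕ, C ^ k = ee (-(k * q)) • A ^ k := by
    intro k
    rw [hC, smul_pow, ee_neg, ee_mul, inv_pow]
  have hCn : C ^ n = 1 := by
    rw [hCk, hA, hk₀, ← Int.cast_neg, ee_int, one_smul]
  set P : Module.End ℂ (Fin m → ℂ) := (n : ℂ)⁻¹ • ∑ k ∈ Finset.range n, C ^ k with hP
  have hCP : C * P = P := by
    rw [hP, mul_smul_comm, Finset.mul_sum]
    congr 1
    have h1 : ∑ k ∈ Finset.range n, C * C ^ k = ∑ k ∈ Finset.range n, C ^ (k + 1) :=
      Finset.sum_congr rfl fun k _ => (pow_succ' C k).symm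
    rw [h1]
    have h2 := Finset.sum_range_succ (fun k => C ^ k) n
    rw [Finset.sum_range_succ' (fun k => C ^ k) n, hCn, pow_zero] at h2
    exact add_right_cancel h2
  have hmem : ∀ x, x ∈ Module.End.eigenspace A (ee q) ↔ C x = x := by
    intro x
    rw [Module.End.mem_eigenspace_iff, hC, LinearMap.smul_apply]
    constructor
    · intro h
      rw [h, smul_smul, inv_mul_cancel₀ (ee_ne q), one_smul]
    · intro h
      conv_rhs => rw [← h]
      rw [smul_smul, mul_inv_cancel₀ (ee_ne q), one_smul]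
  have hproj : LinearMap.IsProj (Module.End.eigenspace A (ee q)) P := by
    constructor
    · intro x
      rw [hmem]
      exact LinearMap.congr_fun hCP x
    · intro x hx
      rw [hmem] at hx
      have h1 : ∀ k : ℕ, (C ^ k) x = x := by
        intro k
        induction k with
        | zero => rfl
        | succ k ih => rw [pow_succ, Module.End.mul_apply, hx, ih]
      rw [hP, LinearMap.smul_apply, LinearMap.sum_apply]
      simp only [h1]
      rw [Finset.sum_const, Finset.card_range, ← Nat.cast_smul_eq_nsmul ℂ, smul_smul,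
        inv_mul_cancel₀ hn0, one_smul]
  have h1 := hproj.trace
  unfold mult
  rw [← h1, hP, map_smul, smul_eq_mul, mul_inv_cancel_left₀ hn0, map_sum]
  refine Finset.sum_congr rfl fun k _ => ?_
  rw [hCk, map_smul, smul_eq_mul, mul_comm]

end Pool.Agent.H848.GO
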