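import Pool.Agent.H848.GO.Sym

/-!
# The symmetrised characters
-/

set_option autoImplicit false

namespace Pool.Agent.H848.GO

open Filter Topology ComplexConjugate

section
variable {d : ℕ} {N : ℕ → ℕ}

theorem adm_one : Adm (fun _ : (i : Fin (2 * d + 1)) × Fin (N i) => (1 : ℂ)) :=
  ⟨fun _ => by simp, fun _ => by simp⟩

theorem esy_eq (i : Fin (2 * d + 1)) (k : ℕ) (x : XS d N) :
    esy i k x = (Finset.univ.val.map fun a : Fin (N i) => x.1 ⟨i, a⟩).esymm k := by
  unfold esy
  rw [Finset.esymm_map_val]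

theorem ew_congr {r : ℕ} (w : Fin r → Fin (2 * d + 1) × ℕ) {x x' : XS d N}
    (h : ∀ i : Fin (2 * d + 1), Finset.univ.val.map (fun a : Fin (N i) => x.1 ⟨i, a⟩) =
      Finset.univ.val.map fun a : Fin (N i) => x'.1 ⟨i, a⟩) : ew w x = ew w x' := by
  unfold ew
  refine Finset.prod_congr rfl fun j _ => ?_
  rw [esy_eq, esy_eq, h]

theorem norm_esy_le (i : Fin (2 * d + 1)) (k : ℕ) (x : XS d N) :
    ‖esy i k x‖ ≤ ((N i).choose k : ℝ) := by
  unfold esy
  refine (norm_sum_le _ _).trans ?_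
  rw [Finset.sum_congr rfl (fun S _ => by
    rw [norm_prod]
    exact Finset.prod_eq_one fun a _ => x.2.norm _ : ∀ S ∈
      (Finset.univ : Finset (Fin (N i))).powersetCard k, ‖∏ a ∈ S, x.1 ⟨i, a⟩‖ = 1)]
  simp

theorem norm_ew_le {r : ℕ} (w : Fin r → Fin (2 * d + 1) × ℕ) (x : XS d N) :
    ‖ew w x‖ ≤ ∏ j, ((N (w j).1).choose (w j).2 : ℝ) := by
  unfold ew
  rw [norm_prod]
  exact Finset.prod_le_prod (fun _ _ => norm_nonneg _) fun j _ => norm_esy_le _ _ _

theorem FF_bound (l : Char d N) (x : XS d N) :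
    ‖FF l x‖ ≤ ∏ i : Fin (2 * d + 1), ((N i).factorial : ℝ) := by
  unfold FF
  refine (norm_sum_le _ _).trans ?_
  rw [Finset.sum_congr rfl (fun σ _ => by
    rw [norm_prod]
    refine Finset.prod_eq_one fun y _ => ?_
    rw [norm_zpow, x.2.norm, one_zpow] : ∀ σ ∈ (Finset.univ : Finset
      (∀ i : Fin (2 * d + 1), Equiv.Perm (Fin (N i)))),
      ‖∏ y : (i : Fin (2 * d + 1)) × Fin (N i), x.1 ⟨y.1, σ y.1 y.2⟩ ^ l y‖ = 1)]
  rw [Finset.sum_const, nsmul_eq_mul, mul_one, Finset.card_univ, Fintype.card_pi]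
  simp [Fintype.card_perm]

theorem FF_neg (l : Char d N) (x : XS d N) : FF (-l) x = conj (FF l x) := by
  unfold FF
  rw [map_sum]
  refine Finset.sum_congr rfl fun σ _ => ?_
  rw [map_prod]
  refine Finset.prod_congr rfl fun y _ => ?_
  rw [map_zpow₀, Pi.neg_apply, zpow_neg, ← inv_zpow, Complex.inv_eq_conj (x.2.norm _)]

theorem parity_add (l l' : Char d N) : parity (l + l') = parity l + parity l' := by
  unfold parity
  rw [← Finset.sum_add_distrib]
  refine Finset.sum_congr rfl fun y _ => ?_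
  rw [Pi.add_apply, Int.cast_add]
  ring

theorem parity_neg (l : Char d N) : parity (-l) = -parity l := by
  unfold parity
  rw [← Finset.sum_neg_distrib]
  refine Finset.sum_congr rfl fun y _ => ?_
  rw [Pi.neg_apply, Int.cast_neg]
  ring

theorem parity_sub (l l' : Char d N) : parity (l - l') = parity l - parity l' := by
  rw [sub_eq_add_neg, parity_add, parity_neg, sub_eq_add_neg]

/-- the monomial -/
noncomputable def mo (l : Char d N) (x : XS d N)
    (σ : ∀ i : Fin (2 * d + 1), Equiv.Perm (Fin (N i))) : ℂ :=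
  ∏ y : (i : Fin (2 * d + 1)) × Fin (N i), x.1 ⟨y.1, σ y.1 y.2⟩ ^ l y

theorem FF_mo (l : Char d N) (x : XS d N) : FF l x = ∑ σ, mo l x σ := rfl

theorem xne (x : XS d N) (y : (i : Fin (2 * d + 1)) × Fin (N i)) : x.1 y ≠ 0 := by
  rw [← norm_ne_zero_iff, x.2.norm]
  exact one_ne_zero

theorem mo_sub (l l' : Char d N) (x : XS d N)
    (σ : ∀ i : Fin (2 * d + 1), Equiv.Perm (Fin (N i))) :
    mo (l - l') x σ = mo l x σ * conj (mo l' x σ) := by
  unfold mo
  rw [map_prod, ← Finset.prod_mul_distrib]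
  refine Finset.prod_congr rfl fun y _ => ?_
  rw [Pi.sub_apply, zpow_sub₀ (xne x _), map_zpow₀, ← Complex.inv_eq_conj (x.2.norm _), inv_zpow,
    div_eq_mul_inv]

theorem mo_add (l l' : Char d N) (x : XS d N)
    (σ : ∀ i : Fin (2 * d + 1), Equiv.Perm (Fin (N i))) :
    mo (l + l') x σ = mo l x σ * mo l' x σ := by
  unfold mo
  rw [← Finset.prod_mul_distrib]
  refine Finset.prod_congr rfl fun y _ => ?_
  rw [Pi.add_apply, zpow_add₀ (xne x _)]

theorem mo_zero (x : XS d N) (σ : ∀ i : Fin (2 * d + 1), Equiv.Perm (Fin (N i))) :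
    mo (0 : Char d N) x σ = 1 := by
  unfold mo
  simp

theorem mo_sum {ι : Type*} (s : Finset ι) (l : ι → Char d N) (x : XS d N)
    (σ : ∀ i : Fin (2 * d + 1), Equiv.Perm (Fin (N i))) :
    mo (∑ j ∈ s, l j) x σ = ∏ j ∈ s, mo (l j) x σ := by
  classical
  induction s using Finset.induction_on with
  | empty => simp [mo_zero]
  | insert j s hj ih => rw [Finset.sum_insert hj, Finset.prod_insert hj, mo_add, ih]

theorem mo_single (y : (i : Fin (2 * d + 1)) × Fin (N i)) (x : XS d N)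
    (σ : ∀ i : Fin (2 * d + 1), Equiv.Perm (Fin (N i))) :
    mo (Pi.single y 1 : Char d N) x σ = x.1 ⟨y.1, σ y.1 y.2⟩ := by
  unfold mo
  rw [Finset.prod_eq_single y]
  · rw [Pi.single_eq_same, zpow_one]
  · intro z _ hz
    rw [Pi.single_eq_of_ne hz, zpow_zero]
  · intro h
    exact absurd (Finset.mem_univ _) h

theorem sum_FF {r : ℕ} (w : Fin r → Fin (2 * d + 1) × ℕ) (x : XS d N) :
    ∑ S ∈ basis N w, FF (char w S) x = (∏ i : Fin (2 * d + 1), ((N i).factorial : ℂ)) * ew w x := by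
  have h1 : ∀ σ : (∀ i : Fin (2 * d + 1), Equiv.Perm (Fin (N i))),
      ∑ S ∈ basis N w, mo (char w S) x σ = ew w x := by
    intro σ
    have hadm : Adm (fun y : (i : Fin (2 * d + 1)) × Fin (N i) => x.1 ⟨y.1, σ y.1 y.2⟩) := by
      refine ⟨fun y => x.2.norm _, fun i => ?_⟩
      have := Equiv.prod_comp (σ i) (fun a => x.1 ⟨i, a⟩)
      simp only
      rw [this]
      exact x.2.sq i
    have h2 : ew w x = ew w ⟨_, hadm⟩ := by
      refine ew_congr w fun i => ?_
      simp only
      have : (fun a : Fin (N i) => x.1 ⟨i, σ i a⟩) = (fun a : Fin (N i) => x.1 ⟨i, a⟩) ∘ σ i := rfl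
      rw [this, ← Multiset.map_map, ← Finset.map_univ_equiv (σ i)]
      simp
    rw [h2, ew_eq]
    refine Finset.sum_congr rfl fun S _ => ?_
    unfold char
    rw [mo_sum]
    refine Finset.prod_congr rfl fun j _ => ?_
    rw [mo_sum]
    refine Finset.prod_congr rfl fun a _ => ?_
    rw [mo_single]
  simp only [FF_mo]
  rw [Finset.sum_comm, Finset.sum_congr rfl fun σ _ => h1 σ, Finset.sum_const, nsmul_eq_mul,
    Finset.card_univ, Fintype.card_pi]
  congr 1
  push_cast
  refine Finset.prod_congr rfl fun i _ => ?_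
  rw [Fintype.card_perm, Fintype.card_fin]

theorem parity_char {r : ℕ} (w : Fin r → Fin (2 * d + 1) × ℕ)
    {S : ∀ j, Finset (Fin (N (w j).1))} (hS : S ∈ basis N w) :
    parity (char w S) = (weight w : ZMod 2) := by
  have hS' : ∀ j, (S j).card = (w j).2 := by
    intro j
    have := (Fintype.mem_piFinset.1 hS) j
    exact (Finset.mem_powersetCard.1 this).2
  have hsum : ∀ {ι : Type} (s : Finset ι) (l : ι → Char d N),
      parity (∑ j ∈ s, l j) = ∑ j ∈ s, parity (l j) := by
    classical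
    intro ι s l
    induction s using Finset.induction_on with
    | empty => simp [parity]
    | insert j s hj ih => rw [Finset.sum_insert hj, Finset.sum_insert hj, parity_add, ih]
  have hsingle : ∀ y : (i : Fin (2 * d + 1)) × Fin (N i),
      parity (Pi.single y 1 : Char d N) = ((y.1 : ℕ) : ZMod 2) := by
    intro y
    unfold parity
    rw [Finset.sum_eq_single y]
    · simp
    · intro z _ hz
      rw [Pi.single_eq_of_ne hz]
      simp
    · intro h
      exact absurd (Finset.mem_univ _) h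
  unfold char weight
  rw [hsum]
  push_cast
  refine Finset.sum_congr rfl fun j _ => ?_
  rw [hsum, Finset.sum_congr rfl fun a _ => hsingle _]
  have e1 : ∑ a ∈ S j, ((((⟨(w j).1, a⟩ : (i : Fin (2 * d + 1)) × Fin (N i)).1 : ℕ)) : ZMod 2) =
      ∑ _a ∈ S j, (((w j).1 : ℕ) : ZMod 2) := rfl
  rw [e1, Finset.sum_const, hS' j, nsmul_eq_mul]
  ring

end

end Pool.Agent.H848.GO
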