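import Pool.Agent.H848.GO.Orders

/-!
# The sizes over all number fields
-/

set_option autoImplicit false
set_option linter.unusedSectionVars false

namespace Pool.Agent.H848.GO

open Complex Filter Topology ComplexConjugate NumberField IsDedekindDomain
  Pool.Agent.W401.Cheb Pool.Agent.W540.BE Pool.Agent.W353.L1 Polynomial
open Pool.Agent.H341R2 (lam lam_tendsto)
open Pool.Agent.W353.AT (MRep Lim Irr OK Sim exists_common exists_E invC mem_invC has_F lim_of_has)
open Pool.Agent.W353.NF (act fixn cz TT size_fix SzH vx)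
open Pool.Agent.W353.TP (HX)

section
variable {K : Type} [Field K] [NumberField K]

theorem closed_eq (H : Subgroup (GK K)) (hH : IsOpen (H : Set (GK K))) :
    (IntermediateField.fixedField H).fixingSubgroup = H :=
  InfiniteGalois.fixingSubgroup_fixedField ⟨H, H.isClosed_of_isOpen hH⟩

/-- open subgroups containing the group of `F` and `U` -/
theorem inf_le_open (F : IntermediateField K (AlgebraicClosure K)) (U : Subgroup (GK K))
    (H : Subgroup (GK K)) (hH : IsOpen (H : Set (GK K))) (hFH : F.fixingSubgroup ≤ H)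
    (hUH : U ≤ H) :
    (F ⊓ IntermediateField.fixedField U : IntermediateField K (AlgebraicClosure K)).fixingSubgroup
      ≤ H := by
  have h4 : IntermediateField.fixedField H ≤ F ⊓ IntermediateField.fixedField U := by
    refine le_inf ?_ ?_
    · have h5 : IntermediateField.fixedField H ≤
          IntermediateField.fixedField F.fixingSubgroup := by
        intro z hz
        rw [IntermediateField.mem_fixedField_iff] at hz ⊢
        exact fun g hg => hz g (hFH hg)
      rwa [InfiniteGalois.fixedField_fixingSubgroup] at h5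
    · intro z hz
      rw [IntermediateField.mem_fixedField_iff] at hz ⊢
      exact fun g hg => hz g (hUH hg)
  rw [← closed_eq H hH]
  exact IntermediateField.fixingSubgroup_le h4

/-- invariants of a representation which is trivial on `U` -/
theorem inv_inf {R : Type*} [CommRing R] {V : Type*} [AddCommGroup V] [Module R V]
    (ρ : Representation R (GK K) V) (U : Subgroup (GK K)) (hU : IsOpen (U : Set (GK K)))
    (h : ∀ u ∈ U, ρ u = 1) (F : IntermediateField K (AlgebraicClosure K)) (x : V) :
    (∀ g ∈ F.fixingSubgroup, ρ g x = x) ↔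
    ∀ g ∈ (F ⊓ IntermediateField.fixedField U :
      IntermediateField K (AlgebraicClosure K)).fixingSubgroup, ρ g x = x := by
  constructor
  · intro hx
    let H : Subgroup (GK K) :=
      { carrier := {g | ρ g x = x}
        one_mem' := by
          change ρ 1 x = x
          rw [map_one]; rfl
        mul_mem' := fun {g g'} hg hg' => by
          change ρ (g * g') x = x
          rw [map_mul]
          exact (congrArg (ρ g) hg').trans hg
        inv_mem' := fun {g} hg => by
          change ρ g⁻¹ x = x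
          have h : ρ g x = x := hg
          conv_lhs => rw [← h]
          have h3 : ρ g⁻¹ * ρ g = 1 := by rw [← map_mul, inv_mul_cancel, map_one]
          exact LinearMap.congr_fun h3 x }
    have hUH : U ≤ H := by
      intro u hu
      change ρ u x = x
      rw [h u hu]
      rfl
    have hHo : IsOpen (H : Set (GK K)) := Subgroup.isOpen_mono hUH hU
    exact fun g hg => inf_le_open F U H hHo (fun g hg => hx g hg) hUH hg
  · intro hx g hg
    exact hx g (IntermediateField.fixingSubgroup_le inf_le_left hg)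

theorem rank_inf {V : Type} [AddCommGroup V] [Module ℚ V]
    (ρ : Representation ℚ Gal(AlgebraicClosure K/K) V) (U : Subgroup (GK K))
    (hU : IsOpen (U : Set (GK K))) (h : ∀ u ∈ U, ρ u = 1)
    (F : IntermediateField K (AlgebraicClosure K)) :
    rank ρ F = rank ρ (F ⊓ IntermediateField.fixedField U) := by
  unfold rank
  have e : Representation.invariants (ρ.comp F.fixingSubgroup.subtype) =
      Representation.invariants (ρ.comp (F ⊓ IntermediateField.fixedField U :
        IntermediateField K (AlgebraicClosure K)).fixingSubgroup.subtype) := by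
    ext x
    have h1 := inv_inf ρ U hU h F x
    constructor
    · intro hx g
      exact h1.1 (fun g hg => hx ⟨g, hg⟩) g.1 g.2
    · intro hx g
      exact h1.2 (fun g hg => hx ⟨g, hg⟩) g.1 g.2
  rw [e]

variable {n : ℕ} {X : Set (MvPolynomial (Fin n) (𝓞 K))} {d : ℕ} {N : ℕ → ℕ}

open Classical in
/-- the orders of the twists of one representation -/
noncomputable def ord (H : AllOrders X d N) {r : ℕ} (w : Fin r → Fin (2 * d + 1) × ℕ)
    (hw : Even (weight w)) (x : MRep (GK K)) (_ : ℝ) : ℤ :=
  if h : Irr x then (H r w hw x.1 x.2 h.1 h.2).choose else 0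

theorem ord_spec (H : AllOrders X d N) {r : ℕ} (w : Fin r → Fin (2 * d + 1) × ℕ)
    (hw : Even (weight w)) {x : MRep (GK K)} (hx : Irr x) :
    TwistedPole X d N w x.2 (ord H w hw x 0) := by
  unfold ord
  rw [dif_pos hx]
  exact (H r w hw x.1 x.2 hx.1 hx.2).choose_spec

theorem twistedPole_unique {r : ℕ} {w : Fin r → Fin (2 * d + 1) × ℕ} {x : MRep (GK K)}
    (hx : IsArtin x.2) {m m' : ℤ} (h : TwistedPole X d N w x.2 m)
    (h' : TwistedPole X d N w x.2 m') : m = m' := by
  choose σ hσ using exists_isFrob (F := K)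
  have h1 := (has_ew hx h hσ).2
  have h2 := (has_ew hx h' hσ).2
  exact_mod_cast tendsto_nhds_unique h1 h2

/-- **The sizes over a number field.** -/
theorem size_over (H : AllOrders X d N) {σ : HeightOneSpectrum (𝓞 K) → GK K}
    (hσ : ∀ v, IsFrob v (σ v)) {r : ℕ} (w : Fin r → Fin (2 * d + 1) × ℕ)
    (hw : Even (weight w)) {E : Finset (MRep (GK K) × ℝ)} (hE : OK {0} (ord H w hw) E)
    (hE2 : ∀ x t, Irr x → t ∈ ({0} : Set ℝ) → ord H w hw x t ≠ 0 → ∃ p ∈ E, p.2 = t ∧ Sim x p.1)
    (F : IntermediateField K (AlgebraicClosure K)) [NumberField F]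
    (B : HeightOneSpectrum (𝓞 F) → ℂ[X]) (hB : IsEulerSystem X d N w B) :
    HasPole B ((weight w : ℂ) / 2 + 1) (∑ p ∈ E, ord H w hw p.1 0 *
        Module.finrank ℂ (invC p.1.2 F.fixingSubgroup) : ℤ) := by
  classical
  have hδ : ∀ x, Irr x → ∀ t ∈ ({0} : Set ℝ), Lim (tW X d N w K) σ x t (ord H w hw x t) := by
    intro x hx t ht
    rw [Set.mem_singleton_iff] at ht
    subst ht
    exact lim_twist x hx.1 (ord_spec H w hw hx) hσ
  have hE0 : ∀ p ∈ E, p.2 = 0 := fun p hp => hE.mem p hp
  have h1 := size_W B hB (fun _ : Fin 0 => (1 : 𝓞 F))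
  have h3 := size_fix _ (syW_real (X := X) (d := d) (N := N) (w := w)) σ hσ h1.2
  have h4 := has_F (T := tW X d N w K) (s := ((basis N w).card : ℝ)) (Nat.cast_nonneg _)
    (fun v => abs_tW v) hδ hE hE2 (Set.mem_singleton (0 : ℝ)) F.val
  have h5 := lim_of_has (T' := tW X d N w K) (T := TT (syW X d N w)) (fun x => ?_) h3 h4
  · rw [IntermediateField.fieldRange_val, Finset.filter_true_of_mem hE0] at h5
    exact h5
  · have e3 : TT (syW X d N w) x =
        ∑ _j ∈ ({()} : Finset Unit), (((tW X d N w K (vx x) : ℝ) : ℂ)).re := rfl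
    rw [e3, Finset.sum_singleton, Complex.ofReal_re]

/-- the poles over a number field -/
theorem pole_over (H : AllOrders X d N) {σ : HeightOneSpectrum (𝓞 K) → GK K}
    (hσ : ∀ v, IsFrob v (σ v)) {r : ℕ} (w : Fin r → Fin (2 * d + 1) × ℕ)
    (hw : Even (weight w)) {E : Finset (MRep (GK K) × ℝ)} (hE : OK {0} (ord H w hw) E)
    (hE2 : ∀ x t, Irr x → t ∈ ({0} : Set ℝ) → ord H w hw x t ≠ 0 → ∃ p ∈ E, p.2 = t ∧ Sim x p.1)
    (hex : ∀ᶠ v : HeightOneSpectrum (𝓞 K) in cofinite, ∃ α, IsFrobenius X d N v α)
    (F : IntermediateField K (AlgebraicClosure K)) (hF : FiniteDimensional K F) (m : ℤ) :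
    PoleOver X d N w F m ↔ m = (∑ p ∈ E, ord H w hw p.1 0 *
        Module.finrank ℂ (invC p.1.2 F.fixingSubgroup) : ℤ) := by
  constructor
  · rintro ⟨hNF, B, hB, hm⟩
    have h1 := size_over H hσ w hw hE hE2 F B hB
    unfold HasPole at hm h1
    exact_mod_cast tendsto_nhds_unique hm h1
  · rintro rfl
    have hNF : NumberField F := NumberField.of_module_finite K F
    obtain ⟨B, hB⟩ := exists_euler (F := F) (w := w) hex
    exact ⟨hNF, B, hB, size_over H hσ w hw hE hE2 F B hB⟩

/-- the trivial representation -/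
theorem exists_irr : ∃ x : MRep (GK K), Irr x := by
  refine ⟨⟨1, 1⟩, ⟨⊤, isOpen_univ, fun _ _ => rfl⟩, ?_⟩
  have h1 : Module.finrank ℂ (Fin 1 → ℂ) = 1 := by simp
  have h2 : IsSimpleModule ℂ (Fin 1 → ℂ) := isSimpleModule_iff_finrank_eq_one.2 h1
  have h3 : ∀ S : Subrepresentation (1 : Representation ℂ (GK K) (Fin 1 → ℂ)),
      S = ⊥ ∨ S = ⊤ := by
    intro S
    rcases eq_bot_or_eq_top S.toSubmodule with h | h
    · left
      exact Subrepresentation.toSubmodule_injective h
    · right
      exact Subrepresentation.toSubmodule_injective h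
  have h4 : Nontrivial (Subrepresentation (1 : Representation ℂ (GK K) (Fin 1 → ℂ))) := by
    refine ⟨⊥, ⊤, fun h => ?_⟩
    have h5 : (⊥ : Submodule ℂ (Fin 1 → ℂ)) = ⊤ := congrArg Subrepresentation.toSubmodule h
    exact bot_ne_top h5
  exact ⟨h3⟩

/-- **One field for all powers.** -/
theorem main (H : AllOrders X d N) (L : IntermediateField K (AlgebraicClosure K))
    (hL : FiniteDimensional K L) :
    ∃ M : IntermediateField K (AlgebraicClosure K), FiniteDimensional K M ∧ IsGalois K M ∧
      L ≤ M ∧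
      (∀ (r : ℕ) (w : Fin r → Fin (2 * d + 1) × ℕ), Even (weight w) →
        ∀ (k : ℕ) (χ : Representation ℂ Gal(AlgebraicClosure K/K) (Fin k → ℂ)), IsArtin χ →
        χ.IsIrreducible → (∃ g ∈ M.fixingSubgroup, χ g ≠ 1) →
        ∀ m, TwistedPole X d N w χ m ↔ m = 0) ∧
      ∀ F : IntermediateField K (AlgebraicClosure K), FiniteDimensional K F →
        (∀ (r : ℕ) (w : Fin r → Fin (2 * d + 1) × ℕ), Even (weight w) →
          ∃ m : ℤ, ∀ m', (PoleOver X d N w F m' ↔ m' = m) ∧
            (PoleOver X d N w (F ⊓ M : IntermediateField K (AlgebraicClosure K)) m' ↔ m' = m)) ∧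
        ∀ (V : Type) [AddCommGroup V] [Module ℚ V]
          (ρ : Representation ℚ Gal(AlgebraicClosure K/K) V),
          (∀ g ∈ L.fixingSubgroup, ρ g = 1) → rank ρ F = rank ρ (F ⊓ M) := by
  classical
  choose σ hσ using exists_isFrob (F := K)
  have := finite_A0 (d := d) (N := N)
  have := countable_A0 (d := d) (N := N)
  have hLo : IsOpen (L.fixingSubgroup : Set (GK K)) := L.fixingSubgroup_isOpen
  obtain ⟨U, hUn, hU, hUL, h1⟩ := (dat X H σ hσ).exists_U L.fixingSubgroup hLo
  set M : IntermediateField K (AlgebraicClosure K) := IntermediateField.fixedField U with hM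
  have hMU : M.fixingSubgroup = U := closed_eq U hU
  have h2 : FiniteDimensional K M ∧ IsGalois K M := by
    rw [← InfiniteGalois.isOpen_and_normal_iff_finite_and_isGalois, hMU]
    exact ⟨hU, hUn⟩
  have hLM : L ≤ M := by
    have h3 : IntermediateField.fixedField L.fixingSubgroup ≤ IntermediateField.fixedField U := by
      intro z hz
      rw [IntermediateField.mem_fixedField_iff] at hz ⊢
      exact fun g hg => hz g (hUL hg)
    rwa [InfiniteGalois.fixedField_fixingSubgroup] at h3
  obtain ⟨x₀, hx₀⟩ := exists_irr (K := K)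
  have hex : ∀ᶠ v : HeightOneSpectrum (𝓞 K) in cofinite, ∃ α, IsFrobenius X d N v α := by
    obtain ⟨m, hm⟩ := H 0 (fun j => j.elim0) (by simp [weight]) x₀.1 x₀.2 hx₀.1 hx₀.2
    exact good_of_pole hm
  have key : ∀ (r : ℕ) (w : Fin r → Fin (2 * d + 1) × ℕ), Even (weight w) →
      ∀ x : MRep (GK K), Irr x → (∃ g ∈ U, x.2 g ≠ 1) → ∀ m, TwistedPole X d N w x.2 m →
      m = 0 := by
    intro r w hw x hx hg m hm
    exact dat_del H σ hσ hx hm hw fun l => h1 l x hx hg
  refine ⟨M, h2.1, h2.2, hLM, ?_, fun F hF => ⟨fun r w hw => ?_, ?_⟩⟩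
  · intro r w hw k χ hχ hχi hg m
    rw [hMU] at hg
    constructor
    · intro hm
      exact key r w hw ⟨k, χ⟩ ⟨hχ, hχi⟩ hg m hm
    · rintro rfl
      obtain ⟨m, hm⟩ := H r w hw k χ hχ hχi
      have := key r w hw ⟨k, χ⟩ ⟨hχ, hχi⟩ hg m hm
      rwa [this] at hm
  · -- the finitely many representations
    have hδ : ∀ x, Irr x → ∀ t ∈ ({0} : Set ℝ), Lim (tW X d N w K) σ x t (ord H w hw x t) := by
      intro x hx t ht
      rw [Set.mem_singleton_iff] at ht
      subst ht
      exact lim_twist x hx.1 (ord_spec H w hw hx) hσ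
    obtain ⟨E, hE, hE2⟩ := exists_E (T := tW X d N w K) (s := (basis N w).card)
      (fun v => abs_tW v) hσ hδ
    have hF' : FiniteDimensional K (F ⊓ M : IntermediateField K (AlgebraicClosure K)) :=
      FiniteDimensional.of_injective
        (IntermediateField.inclusion (inf_le_left : F ⊓ M ≤ F)).toLinearMap
        (IntermediateField.inclusion_injective (inf_le_left : F ⊓ M ≤ F))
    have htriv : ∀ p ∈ E, ∀ u ∈ U, p.1.2 u = 1 := by
      intro p hp u hu
      by_contra hne
      have h3 := key r w hw p.1 (hE.irr p hp) ⟨u, hu, hne⟩ _ (ord_spec H w hw (hE.irr p hp))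
      have h4 := hE.ne p hp
      have h5 : p.2 = 0 := hE.mem p hp
      rw [h5] at h4
      exact h4 h3
    have heq : (∑ p ∈ E, ord H w hw p.1 0 *
        Module.finrank ℂ (invC p.1.2 F.fixingSubgroup) : ℤ) =
        ∑ p ∈ E, ord H w hw p.1 0 * Module.finrank ℂ (invC p.1.2
          (F ⊓ M : IntermediateField K (AlgebraicClosure K)).fixingSubgroup) := by
      refine Finset.sum_congr rfl fun p hp => ?_
      have e : invC p.1.2 F.fixingSubgroup = invC p.1.2
          (F ⊓ M : IntermediateField K (AlgebraicClosure K)).fixingSubgroup := by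
        ext x
        rw [mem_invC, mem_invC]
        exact inv_inf p.1.2 U hU (htriv p hp) F x
      rw [e]
    refine ⟨_, fun m' => ⟨pole_over H hσ w hw hE hE2 hex F hF m', ?_⟩⟩
    rw [heq]
    exact pole_over H hσ w hw hE hE2 hex (F ⊓ M) hF' m'
  · intro V _ _ ρ hρ
    exact rank_inf ρ U hU (fun u hu => hρ u (hUL hu)) F

end

end Pool.Agent.H848.GO
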