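import Pool.Agent.H848.GO.FF
import Pool.Graph.R_seed8.W353.PV.Eig

/-!
# The Frobenius eigenvalues over number fields
-/

set_option autoImplicit false

namespace Pool.Agent.H848.GO

open NumberField IsDedekindDomain Filter Topology Polynomial ComplexConjugate
open Pool.Agent.H921R2.TatePole (nm two_le_nm kerPrime)
open Pool.Agent.W353.PV (mult_unique one_lt_norm exists_ext)

section
variable {K : Type} [Field K] {n : ℕ} {X : Set (MvPolynomial (Fin n) (𝓞 K))}
  {d : ℕ} {N : ℕ → ℕ} {F : Type} [Field F] [NumberField F] [Algebra K F]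
  {v : HeightOneSpectrum (𝓞 F)}

theorem IsFrobenius.unique {α α' : ∀ i : Fin (2 * d + 1), Fin (N i) → ℂ}
    (h : IsFrobenius X d N v α) (h' : IsFrobenius X d N v α') (i : Fin (2 * d + 1)) :
    Finset.univ.val.map (α i) = Finset.univ.val.map (α' i) := by
  classical
  set β : (∀ i : Fin (2 * d + 1), Fin (N i) → ℂ) → ℕ → Multiset ℂ := fun α k =>
    if h : k < 2 * d + 1 then Finset.univ.val.map (α ⟨k, h⟩) else 0 with hβ
  have hβi : ∀ (α : ∀ i : Fin (2 * d + 1), Fin (N i) → ℂ) (i : Fin (2 * d + 1)),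
      β α i = Finset.univ.val.map (α i) := by
    intro α i
    rw [hβ]
    simp only [i.2, dif_pos, Fin.eta]
  have hn : ∀ α : (∀ i : Fin (2 * d + 1), Fin (N i) → ℂ), (∀ i a, ‖α i a‖ =
      (Ideal.absNorm v.asIdeal : ℝ) ^ (((i : ℕ) : ℝ) / 2)) → ∀ k, ∀ z ∈ β α k,
      ‖z‖ = (Ideal.absNorm v.asIdeal : ℝ) ^ ((k : ℝ) / 2) := by
    intro α hα k z hz
    rw [hβ] at hz
    simp only at hz
    split_ifs at hz with hk
    · obtain ⟨a, -, rfl⟩ := Multiset.mem_map.1 hz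
      exact hα ⟨k, hk⟩ a
    · simp at hz
  have hsum : ∀ (α : ∀ i : Fin (2 * d + 1), Fin (N i) → ℂ) (e : ℕ),
      ∑ k ∈ Finset.range (2 * d + 1), (-1 : ℂ) ^ k * ((β α k).map (fun z => z ^ e)).sum =
      ∑ i : Fin (2 * d + 1), (-1 : ℂ) ^ (i : ℕ) * ∑ a, α i a ^ e := by
    intro α e
    rw [Finset.sum_range]
    refine Finset.sum_congr rfl fun i _ => ?_
    rw [hβi, Multiset.map_map]
    rfl
  rw [← hβi, ← hβi]
  refine mult_unique (D := 2 * d + 1) (one_lt_norm v)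
    (hn α h.1) (hn α' h'.1) (fun e he => ?_) i.2
  rw [hsum, hsum]
  obtain ⟨κ, _, _, φ, hk, hc⟩ := exists_ext v e he
  have e1 := h.2 κ φ e hk hc
  rw [h'.2 κ φ e hk hc] at e1
  refine (mul_left_cancel₀ ?_ e1).symm
  have h4 : (1 : ℝ) < (Ideal.absNorm v.asIdeal : ℝ) ^ e :=
    one_lt_pow₀ (one_lt_norm v) (by omega)
  intro h5
  have h6 : ((Ideal.absNorm v.asIdeal : ℂ) ^ e) = 1 := sub_eq_zero.1 h5
  have h7 : ((Ideal.absNorm v.asIdeal : ℝ) ^ e) = 1 := by exact_mod_cast h6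
  linarith

theorem IsFrobenius.conj {α : ∀ i : Fin (2 * d + 1), Fin (N i) → ℂ}
    (h : IsFrobenius X d N v α) : IsFrobenius X d N v (fun i a => conj (α i a)) := by
  refine ⟨fun i a => by rw [Complex.norm_conj]; exact h.1 i a, fun κ _ _ φ e hk hc => ?_⟩
  have e1 := congrArg conj (h.2 κ φ e hk hc)
  rw [Complex.conj_natCast] at e1
  rw [e1, map_mul, map_sub, map_pow, map_one, Complex.conj_natCast, map_sum]
  congr 1
  refine Finset.sum_congr rfl fun k _ => ?_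
  rw [map_mul, map_pow, map_neg, map_one, map_sum]
  congr 1
  refine Finset.sum_congr rfl fun a _ => ?_
  rw [map_pow]

/-- the normalised eigenvalues -/
noncomputable def nrmz (v : HeightOneSpectrum (𝓞 F)) (α : ∀ i : Fin (2 * d + 1), Fin (N i) → ℂ)
    (y : (i : Fin (2 * d + 1)) × Fin (N i)) : ℂ :=
  α y.1 y.2 * (((nm v : ℝ) ^ (-(((y.1 : ℕ) : ℝ) / 2)) : ℝ) : ℂ)

theorem nm_pos (v : HeightOneSpectrum (𝓞 F)) : (0 : ℝ) < nm v := by
  have := two_le_nm v
  exact_mod_cast (by omega : 0 < nm v)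

theorem conj_prod_nrmz {α : ∀ i : Fin (2 * d + 1), Fin (N i) → ℂ} (h : IsFrobenius X d N v α)
    (i : Fin (2 * d + 1)) : (Finset.univ.val.map fun a : Fin (N i) => conj (nrmz v α ⟨i, a⟩)) =
      Finset.univ.val.map fun a : Fin (N i) => nrmz v α ⟨i, a⟩ := by
  have h3 := congrArg (fun s : Multiset ℂ =>
    (s.map fun z => z * (((nm v : ℝ) ^ (-(((i : ℕ) : ℝ) / 2)) : ℝ) : ℂ)))
    (h.conj.unique h i)
  simp only [Multiset.map_map] at h3
  refine Eq.trans ?_ h3
  refine Multiset.map_congr rfl fun a _ => ?_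
  unfold nrmz
  rw [map_mul, Complex.conj_ofReal]
  rfl

theorem adm_nrmz {α : ∀ i : Fin (2 * d + 1), Fin (N i) → ℂ} (h : IsFrobenius X d N v α) :
    Adm (nrmz v α) := by
  have hnorm : ∀ y, ‖nrmz v α y‖ = 1 := by
    intro y
    unfold nrmz
    rw [norm_mul, h.1, Complex.norm_real, Real.norm_eq_abs,
      abs_of_nonneg (Real.rpow_nonneg (nm_pos v).le _)]
    have e1 : (Ideal.absNorm v.asIdeal : ℝ) = nm v := rfl
    rw [e1, ← Real.rpow_add (nm_pos v), add_neg_cancel, Real.rpow_zero]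
  refine ⟨hnorm, fun i => ?_⟩
  set P : ℂ := ∏ a : Fin (N i), nrmz v α ⟨i, a⟩ with hP
  have h1 : ‖P‖ = 1 := by
    rw [hP, norm_prod]
    exact Finset.prod_eq_one fun a _ => hnorm _
  have h2 : conj P = P := by
    rw [hP, map_prod]
    exact congrArg Multiset.prod (conj_prod_nrmz h i)
  have h4 : P * conj P = 1 := by
    rw [Complex.mul_conj, Complex.normSq_eq_norm_sq, h1]
    simp
  rw [h2] at h4
  rw [sq]
  exact h4

variable (X d N) in
open Classical in
/-- chosen eigenvalues -/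
noncomputable def alF {F : Type} [Field F] [NumberField F] [Algebra K F]
    (v : HeightOneSpectrum (𝓞 F)) : ∀ i : Fin (2 * d + 1), Fin (N i) → ℂ :=
  if h : ∃ α, IsFrobenius X d N v α then h.choose else fun _ _ => 0

theorem alF_spec (h : ∃ α, IsFrobenius X d N v α) : IsFrobenius X d N v (alF X d N v) := by
  unfold alF
  rw [dif_pos h]
  exact h.choose_spec

variable (X d N) in
open Classical in
/-- the chosen family of normalised eigenvalues -/
noncomputable def xv {F : Type} [Field F] [NumberField F] [Algebra K F]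
    (v : HeightOneSpectrum (𝓞 F)) : XS d N :=
  if h : ∃ α, IsFrobenius X d N v α then ⟨nrmz v (alF X d N v), adm_nrmz (alF_spec h)⟩
  else ⟨fun _ => 1, adm_one⟩

theorem xv_map {α : ∀ i : Fin (2 * d + 1), Fin (N i) → ℂ} (h : IsFrobenius X d N v α)
    (i : Fin (2 * d + 1)) : Finset.univ.val.map (fun a : Fin (N i) => (xv X d N v).1 ⟨i, a⟩) =
      Finset.univ.val.map fun a : Fin (N i) => nrmz v α ⟨i, a⟩ := by
  unfold xv
  have hex : ∃ α, IsFrobenius X d N v α := ⟨α, h⟩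
  rw [dif_pos hex]
  have h3 := congrArg (fun s : Multiset ℂ =>
      s.map fun z => z * (((nm v : ℝ) ^ (-(((i : ℕ) : ℝ) / 2)) : ℝ) : ℂ))
      ((alF_spec hex).unique h i)
  simp only [Multiset.map_map] at h3
  exact h3

theorem ew_xv {r : ℕ} (w : Fin r → Fin (2 * d + 1) × ℕ)
    {α : ∀ i : Fin (2 * d + 1), Fin (N i) → ℂ} (h : IsFrobenius X d N v α) :
    ew w (xv X d N v) = ∑ S ∈ basis N w, eigenvalue w α S *
      ((nm v : ℕ) : ℂ) ^ (-(((weight w : ℝ) / 2 : ℝ) : ℂ)) := by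
  rw [ew_congr w (x' := ⟨nrmz v α, adm_nrmz h⟩) (xv_map h), ew_eq]
  refine Finset.sum_congr rfl fun S hS => ?_
  have hS' : ∀ j, (S j).card = (w j).2 := by
    intro j
    have := (Fintype.mem_piFinset.1 hS) j
    exact (Finset.mem_powersetCard.1 this).2
  unfold nrmz eigenvalue
  simp only
  have e1 : ∀ j, ∏ a ∈ S j, (α (w j).1 a * (((nm v : ℝ) ^ (-((((w j).1 : ℕ) : ℝ) / 2)) : ℝ) : ℂ)) =
      (∏ a ∈ S j, α (w j).1 a) *
        (((nm v : ℝ) ^ (-((((w j).1 : ℕ) : ℝ) / 2) * (w j).2) : ℝ) : ℂ) := by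
    intro j
    rw [Finset.prod_mul_distrib, Finset.prod_const, hS' j, ← Complex.ofReal_pow,
      ← Real.rpow_natCast, ← Real.rpow_mul (nm_pos v).le]
  simp only [e1]
  rw [Finset.prod_mul_distrib]
  congr 1
  rw [← Complex.ofReal_prod, ← Complex.ofReal_natCast, ← Complex.ofReal_neg,
    ← Complex.ofReal_cpow (nm_pos v).le]
  congr 1
  rw [← Real.rpow_sum_of_pos (nm_pos v)]
  congr 1
  unfold weight
  push_cast
  rw [Finset.sum_div, ← Finset.sum_neg_distrib]
  refine Finset.sum_congr rfl fun j _ => ?_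
  ring

theorem norm_eigenvalue {r : ℕ} (w : Fin r → Fin (2 * d + 1) × ℕ)
    {α : ∀ i : Fin (2 * d + 1), Fin (N i) → ℂ} (h : IsFrobenius X d N v α)
    {S : ∀ j, Finset (Fin (N (w j).1))} (hS : S ∈ basis N w) :
    ‖eigenvalue w α S‖ = (nm v : ℝ) ^ ((weight w : ℝ) / 2) := by
  have hS' : ∀ j, (S j).card = (w j).2 := by
    intro j
    have := (Fintype.mem_piFinset.1 hS) j
    exact (Finset.mem_powersetCard.1 this).2
  unfold eigenvalue
  rw [norm_prod]
  have e1 : ∀ j, ‖∏ a ∈ S j, α (w j).1 a‖ =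
      (nm v : ℝ) ^ ((((w j).1 : ℕ) : ℝ) / 2 * (w j).2) := by
    intro j
    rw [norm_prod, Finset.prod_congr rfl fun a _ => h.1 (w j).1 a, Finset.prod_const, hS' j,
      ← Real.rpow_natCast, ← Real.rpow_mul (Nat.cast_nonneg _)]
    rfl
  rw [Finset.prod_congr rfl fun j _ => e1 j, ← Real.rpow_sum_of_pos (nm_pos v)]
  congr 1
  unfold weight
  push_cast
  rw [Finset.sum_div]
  refine Finset.sum_congr rfl fun j _ => ?_
  ring

/-- the traces are real -/
theorem ew_im {r : ℕ} (w : Fin r → Fin (2 * d + 1) × ℕ)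
    {α : ∀ i : Fin (2 * d + 1), Fin (N i) → ℂ} (h : IsFrobenius X d N v α) :
    (ew w (xv X d N v)).im = 0 := by
  rw [ew_congr w (x' := ⟨nrmz v α, adm_nrmz h⟩) (xv_map h)]
  rw [← Complex.conj_eq_iff_im]
  unfold ew
  rw [map_prod]
  refine Finset.prod_congr rfl fun j _ => ?_
  have h1 := conj_prod_nrmz h (w j).1
  rw [esy_eq]
  have h2 : conj ((Finset.univ.val.map fun a : Fin (N (w j).1) =>
      nrmz v α ⟨(w j).1, a⟩).esymm (w j).2) =
      (Finset.univ.val.map fun a : Fin (N (w j).1) => conj (nrmz v α ⟨(w j).1, a⟩)).esymm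
        (w j).2 := by
    rw [Finset.esymm_map_val, Finset.esymm_map_val, map_sum]
    exact Finset.sum_congr rfl fun S _ => map_prod _ _ _
  exact h2.trans (by rw [h1])

/-- the sum of the eigenvalues is real -/
theorem sum_eigenvalue_im {r : ℕ} (w : Fin r → Fin (2 * d + 1) × ℕ)
    {α : ∀ i : Fin (2 * d + 1), Fin (N i) → ℂ} (h : IsFrobenius X d N v α) :
    (∑ S ∈ basis N w, eigenvalue w α S).im = 0 := by
  have h1 := ew_im w h
  rw [ew_xv w h, ← Finset.sum_mul] at h1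
  have h2 : ((nm v : ℕ) : ℂ) ^ (-(((weight w : ℝ) / 2 : ℝ) : ℂ)) =
      (((nm v : ℝ) ^ (-((weight w : ℝ) / 2)) : ℝ) : ℂ) := by
    rw [Complex.ofReal_cpow (nm_pos v).le]
    push_cast
    rfl
  rw [h2, Complex.im_mul_ofReal] at h1
  rcases mul_eq_zero.1 h1 with h3 | h3
  · exact h3
  · exact absurd h3 (Real.rpow_pos_of_pos (nm_pos v) _).ne'

end

section
variable {K : Type} [Field K] [NumberField K] {n : ℕ} {X : Set (MvPolynomial (Fin n) (𝓞 K))}
  {d : ℕ} {N : ℕ → ℕ} {F : Type} [Field F] [NumberField F] [Algebra K F]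

/-- the eigenvalues at primes of degree one -/
theorem frob_ker (p : Nat.Primes) (ψ : 𝓞 F →+* ZMod (p : ℕ))
    (α : ∀ i : Fin (2 * d + 1), Fin (N i) → ℂ) :
    IsFrobenius X d N (F := F) (kerPrime p ψ).1.1 α ↔
      IsFrobenius X d N (F := K) (kerPrime p (ψ.comp (algebraMap (𝓞 K) (𝓞 F)))).1.1 α := by
  have : Fact (p : ℕ).Prime := ⟨p.2⟩
  set ψ₀ : 𝓞 K →+* ZMod (p : ℕ) := ψ.comp (algebraMap (𝓞 K) (𝓞 F)) with hψ₀
  have hk : (kerPrime p ψ).1.1.asIdeal = RingHom.ker ψ := rfl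
  have hk₀ : (kerPrime p ψ₀).1.1.asIdeal = RingHom.ker ψ₀ := rfl
  have hn : Ideal.absNorm (kerPrime p ψ).1.1.asIdeal = (p : ℕ) :=
    Pool.Agent.H341R2.nm_kerPrime p ψ
  have hn₀ : Ideal.absNorm (kerPrime p ψ₀).1.1.asIdeal = (p : ℕ) :=
    Pool.Agent.H341R2.nm_kerPrime p ψ₀
  unfold IsFrobenius
  rw [hn, hn₀, hk, hk₀]
  refine and_congr_right fun _ => ?_
  constructor
  · intro h κ _ _ φ₀ e hφ₀ hc
    have hsurj : Function.Surjective ψ₀ := ZMod.ringHom_surjective ψ₀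
    set g : ZMod (p : ℕ) →+* κ := ψ₀.liftOfSurjective hsurj ⟨φ₀, hφ₀.symm.le⟩ with hg
    have hgc : g.comp ψ₀ = φ₀ := ψ₀.liftOfRightInverse_comp _ _ ⟨φ₀, hφ₀.symm.le⟩
    have h1 := h κ (g.comp ψ) e (by
      rw [← RingHom.comap_ker, (RingHom.injective_iff_ker_eq_bot _).1 g.injective, ← RingHom.ker])
      hc
    rw [RingHom.comp_assoc, ← hψ₀, hgc] at h1
    refine Eq.trans (congrArg (Nat.cast : ℕ → ℂ) (congrArg (cone X) (RingHom.ext fun x => ?_))) h1
    rfl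
  · intro h κ _ _ φ e hφ hc
    have h1 := h κ (φ.comp (algebraMap (𝓞 K) (𝓞 F))) e (by
      rw [hψ₀, ← RingHom.comap_ker, ← RingHom.comap_ker, hφ]) hc
    refine Eq.trans (congrArg (Nat.cast : ℕ → ℂ) (congrArg (cone X) (RingHom.ext fun x => ?_))) h1
    rfl

theorem alF_ker (p : Nat.Primes) (ψ : 𝓞 F →+* ZMod (p : ℕ)) :
    alF X d N (kerPrime p ψ).1.1 =
      alF X d N (F := K) (kerPrime p (ψ.comp (algebraMap (𝓞 K) (𝓞 F)))).1.1 := by
  have h : (fun α => IsFrobenius X d N (F := F) (kerPrime p ψ).1.1 α) =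
      fun α => IsFrobenius X d N (F := K)
        (kerPrime p (ψ.comp (algebraMap (𝓞 K) (𝓞 F)))).1.1 α :=
    funext fun α => propext (frob_ker p ψ α)
  have h2 : ∀ P P' : (∀ i : Fin (2 * d + 1), Fin (N i) → ℂ) → Prop, P = P' →
      (open scoped Classical in if h : ∃ α, P α then h.choose else fun _ _ => 0) =
      (open scoped Classical in if h : ∃ α, P' α then h.choose else fun _ _ => 0) := by
    rintro P _ rfl
    rfl
  exact h2 _ _ h

/-- the eigenvalues over a larger field -/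
theorem frob_over {v : HeightOneSpectrum (𝓞 K)} {α : ∀ i : Fin (2 * d + 1), Fin (N i) → ℂ}
    (h : IsFrobenius X d N v α) {u : HeightOneSpectrum (𝓞 F)}
    (huv : u.asIdeal.comap (algebraMap (𝓞 K) (𝓞 F)) = v.asIdeal) :
    ∃ f : ℕ, IsFrobenius X d N u (fun i a => α i a ^ f) := by
  classical
  have hmv : v.asIdeal.IsMaximal := v.isMaximal
  have hmu : u.asIdeal.IsMaximal := u.isMaximal
  let _ : Field (𝓞 K ⧸ v.asIdeal) := Ideal.Quotient.field v.asIdeal
  let _ : Field (𝓞 F ⧸ u.asIdeal) := Ideal.Quotient.field u.asIdeal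
  let g : 𝓞 K ⧸ v.asIdeal →+* 𝓞 F ⧸ u.asIdeal :=
    Ideal.quotientMap u.asIdeal (algebraMap (𝓞 K) (𝓞 F)) huv.symm.le
  let _ : Algebra (𝓞 K ⧸ v.asIdeal) (𝓞 F ⧸ u.asIdeal) := g.toAlgebra
  have hfu : Finite (𝓞 F ⧸ u.asIdeal) := by
    have := two_le_nm u
    have h : (2 : ℕ) ≤ Ideal.absNorm u.asIdeal := this
    rw [Ideal.absNorm_apply, Submodule.cardQuot_apply] at h
    exact Nat.finite_of_card_ne_zero (by omega)
  have hfv : Finite (𝓞 K ⧸ v.asIdeal) := Finite.of_injective g g.injective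
  have hfin : Module.Finite (𝓞 K ⧸ v.asIdeal) (𝓞 F ⧸ u.asIdeal) := Module.Finite.of_finite
  set f := Module.finrank (𝓞 K ⧸ v.asIdeal) (𝓞 F ⧸ u.asIdeal) with hf
  have hq : Ideal.absNorm u.asIdeal = Ideal.absNorm v.asIdeal ^ f := by
    rw [Ideal.absNorm_apply, Submodule.cardQuot_apply, Ideal.absNorm_apply,
      Submodule.cardQuot_apply]
    exact Module.natCard_eq_pow_finrank
  refine ⟨f, fun i a => ?_, fun κ _ _ φ e hk hc => ?_⟩
  · rw [norm_pow, h.1, hq]
    push_cast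
    rw [← Real.rpow_natCast, ← Real.rpow_mul (Nat.cast_nonneg _), ← Real.rpow_natCast,
      ← Real.rpow_mul (Nat.cast_nonneg _), mul_comm]
  · have h1 := h.2 κ (φ.comp (algebraMap (𝓞 K) (𝓞 F))) (f * e) (by
      rw [← RingHom.comap_ker, hk, huv]) (by rw [hc, hq, pow_mul])
    rw [hq]
    push_cast
    rw [← pow_mul]
    simp only [← pow_mul]
    refine Eq.trans (congrArg (Nat.cast : ℕ → ℂ) (congrArg (cone X) (RingHom.ext fun x => ?_))) h1
    rfl

/-- almost all primes of `F` have eigenvalues -/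
theorem eventually_over (h : ∀ᶠ v : HeightOneSpectrum (𝓞 K) in cofinite,
    ∃ α, IsFrobenius X d N v α) : ∀ᶠ u : HeightOneSpectrum (𝓞 F) in cofinite,
    ∃ α, IsFrobenius X d N u α := by
  classical
  rw [Filter.eventually_cofinite] at h ⊢
  have hinj : Function.Injective (algebraMap (𝓞 K) (𝓞 F)) :=
    FaithfulSMul.algebraMap_injective _ _
  have hne : ∀ u : HeightOneSpectrum (𝓞 F),
      u.asIdeal.comap (algebraMap (𝓞 K) (𝓞 F)) ≠ ⊥ := by
    intro u h0
    obtain ⟨x, hx, hx0⟩ := Submodule.exists_mem_ne_zero_of_ne_bot u.ne_bot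
    exact Ideal.comap_ne_bot_of_integral_mem hx0 hx (Algebra.IsIntegral.isIntegral x) h0
  let π : HeightOneSpectrum (𝓞 F) → HeightOneSpectrum (𝓞 K) := fun u =>
    ⟨u.asIdeal.comap (algebraMap (𝓞 K) (𝓞 F)), u.isPrime.comap _, hne u⟩
  refine Set.Finite.subset (Set.Finite.preimage' (f := π) h fun v _ => ?_) ?_
  · have h0 : Ideal.map (algebraMap (𝓞 K) (𝓞 F)) v.asIdeal ≠ 0 := by
      rw [Ideal.zero_eq_bot, Ne, Ideal.map_eq_bot_iff_of_injective hinj]
      exact v.ne_bot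
    refine (Ideal.finite_factors h0).subset ?_
    intro u hu
    have hu' : π u = v := hu
    rw [Set.mem_ofPred_eq, Ideal.dvd_iff_le, Ideal.map_le_iff_le_comap, ← hu']
  · intro u hu hcon
    obtain ⟨α, hα⟩ := hcon
    obtain ⟨f, hf⟩ := frob_over (F := F) hα (u := u) rfl
    exact hu ⟨_, hf⟩

end

end Pool.Agent.H848.GO
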