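import Pool.Agent.H848.GO.Theta

/-!
# The open subgroup which governs all limits
-/

set_option autoImplicit false
set_option linter.unusedSectionVars false

namespace Pool.Agent.H848.GO

open Complex Filter Topology ComplexConjugate Pool.Agent.H341R2 NumberField IsDedekindDomain
  Pool.Agent.W401.Cheb Pool.Agent.W540.BE Pool.Agent.W353.L1 MeasureTheory
open Pool.Agent.W353.AT (MRep Lim Irr OK Sim exists_common exists_E infl infl_irr infl_triv infl_char)
open Pool.Agent.TH375.ED (integral_level)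

section
variable {K : Type} [Field K] [NumberField K]

/-- common kernels -/
theorem common (S : Finset (MRep (GK K))) (h : ∀ x ∈ S, Pool.Agent.W353.AT.IsArtin x.2) :
    ∃ U : Subgroup (GK K), U.Normal ∧ IsOpen (U : Set (GK K)) ∧ ∀ x ∈ S, ∀ u ∈ U, x.2 u = 1 := by
  obtain ⟨U, h1, h2, h3⟩ := exists_common (κ := S) (n := fun k => k.1.1)
    (fun k => k.1.2) fun k => h k.1 k.2
  exact ⟨U, h1, h2, fun x hx => h3 ⟨x, hx⟩⟩

open Classical in
/-- the character on the quotient -/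
noncomputable def chU (U : Subgroup (GK K)) [U.Normal] (x : MRep (GK K)) (q : GK K ⧸ U) : ℂ :=
  if h : ∀ u ∈ U, x.2 u = 1 then (qrep U x.2 h).character q else 0

theorem chU_eq {U : Subgroup (GK K)} [U.Normal] {x : MRep (GK K)} (h : ∀ u ∈ U, x.2 u = 1) :
    chU U x = (qrep U x.2 h).character := by
  funext q
  unfold chU
  rw [dif_pos h]

theorem chU_mk {U : Subgroup (GK K)} [U.Normal] {x : MRep (GK K)} (h : ∀ u ∈ U, x.2 u = 1)
    (g : GK K) : chU U x (QuotientGroup.mk g) = x.2.character g := by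
  rw [chU_eq h]
  rfl

theorem chU_inv {U : Subgroup (GK K)} [U.Normal] [Finite (GK K ⧸ U)] {x : MRep (GK K)}
    (h : ∀ u ∈ U, x.2 u = 1) (q : GK K ⧸ U) : chU U x q⁻¹ = conj (chU U x q) := by
  rw [chU_eq h]
  exact Pool.Agent.W353.L1.char_inv _ q

open Classical in
/-- orthogonality for the combination of characters -/
theorem ortho_sum {δ : MRep (GK K) → ℝ → ℤ} {E : Finset (MRep (GK K) × ℝ)} (hE : OK {0} δ E)
    (hE2 : ∀ x t, Irr x → t ∈ ({0} : Set ℝ) → δ x t ≠ 0 → ∃ p ∈ E, p.2 = t ∧ Sim x p.1)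
    (hcong : ∀ x y, Irr x → Irr y → Sim x y → δ x 0 = δ y 0)
    (U : Subgroup (GK K)) [U.Normal] [Finite (GK K ⧸ U)] [Fintype (GK K ⧸ U)]
    (hEU : ∀ p ∈ E, ∀ u ∈ U, p.1.2 u = 1) (x : MRep (GK K)) (hx : Irr x)
    (hxU : ∀ u ∈ U, x.2 u = 1) :
    ∑ q, (∑ p ∈ E, (δ p.1 0 : ℂ) * chU U p.1 q) * chU U x q⁻¹ =
      (Fintype.card (GK K ⧸ U) : ℂ) * (δ x 0 : ℂ) := by
  have hc0 : (Fintype.card (GK K ⧸ U) : ℂ) ≠ 0 := by exact_mod_cast Fintype.card_ne_zero
  simp only [Finset.sum_mul]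
  rw [Finset.sum_comm]
  have e1 : ∀ p ∈ E, ∑ q, (δ p.1 0 : ℂ) * chU U p.1 q * chU U x q⁻¹ =
      (Fintype.card (GK K ⧸ U) : ℂ) * ((δ p.1 0 : ℂ) * if Sim p.1 x then 1 else 0) := by
    intro p hp
    have h3 := ortho U p.1.2 (hEU p hp) (hE.irr p hp).2 x.2 hxU hx.2
    rw [finsum_eq_sum_of_fintype, Nat.card_eq_fintype_card, inv_mul_eq_iff_eq_mul₀ hc0] at h3
    have h4 : (if Nonempty (p.1.2.Equiv x.2) then (1 : ℂ) else 0) =
        if Sim p.1 x then 1 else 0 := rfl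
    rw [h4] at h3
    rw [mul_left_comm, ← h3, Finset.mul_sum]
    refine Finset.sum_congr rfl fun q _ => ?_
    rw [chU_eq (hEU p hp), chU_eq hxU, mul_assoc]
  rw [Finset.sum_congr rfl e1, ← Finset.mul_sum]
  congr 1
  by_cases hd : δ x 0 = 0
  · rw [hd, Int.cast_zero]
    refine Finset.sum_eq_zero fun p hp => ?_
    rw [if_neg, mul_zero]
    intro hs
    have h3 := hcong p.1 x (hE.irr p hp) hx hs
    have h4 := hE.ne p hp
    have h5 : p.2 = 0 := hE.mem p hp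
    rw [h5, h3] at h4
    exact h4 hd
  · obtain ⟨p, hp, hpt, hs⟩ := hE2 x 0 hx rfl hd
    rw [Finset.sum_eq_single p]
    · rw [if_pos hs.symm, mul_one, hcong p.1 x (hE.irr p hp) hx hs.symm]
    · intro q hq hqp
      have hqt : q.2 = 0 := hE.mem q hq
      rw [if_neg, mul_zero]
      intro hs'
      exact hE.ineq q hq p hp hqp (hqt.trans hpt.symm) (hs'.trans hs)
    · intro h
      exact absurd hp h

variable (K) in
/-- the data: real functions on the primes indexed by an abelian group, with integral limits -/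
structure Dat (A : Type) [AddCommGroup A] where
  T : A → HeightOneSpectrum (𝓞 K) → ℝ
  M : ℕ
  σ : HeightOneSpectrum (𝓞 K) → GK K
  bd : ∀ l v, |T l v| ≤ M
  zero : ∀ v, T 0 v = M
  neg : ∀ l v, T (-l) v = T l v
  pd : ∀ v (ι : Type) (s : Finset ι) (a : ι → A) (u : ι → ℝ),
    0 ≤ ∑ i ∈ s, ∑ j ∈ s, u i * u j * T (a i - a j) v
  frob : ∀ v, IsFrob v (σ v)
  lim : ∀ l x, Irr x → ∃ δ : ℤ, Lim (T l) σ x 0 δ

namespace Dat
variable {A : Type} [AddCommGroup A] (𝒟 : Dat K A)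

open Classical in
/-- the limits -/
noncomputable def del (l : A) (x : MRep (GK K)) (_ : ℝ) : ℤ :=
  if h : Irr x then (𝒟.lim l x h).choose else 0

theorem del_lim (l : A) (x : MRep (GK K)) (h : Irr x) (t : ℝ) (ht : t ∈ ({0} : Set ℝ)) :
    Lim (𝒟.T l) 𝒟.σ x t (𝒟.del l x t) := by
  rw [Set.mem_singleton_iff] at ht
  subst ht
  unfold del
  rw [dif_pos h]
  exact (𝒟.lim l x h).choose_spec

theorem del_unique {l : A} {x : MRep (GK K)} (h : Irr x) {r : ℝ} (hr : Lim (𝒟.T l) 𝒟.σ x 0 r) :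
    r = 𝒟.del l x 0 := hr.unique (𝒟.del_lim l x h 0 rfl) (Sim.refl x)

theorem exists_set (l : A) : ∃ E : Finset (MRep (GK K) × ℝ), OK {0} (𝒟.del l) E ∧
    ∀ x t, Irr x → t ∈ ({0} : Set ℝ) → 𝒟.del l x t ≠ 0 → ∃ p ∈ E, p.2 = t ∧ Sim x p.1 :=
  exists_E (𝒟.bd l) 𝒟.frob (𝒟.del_lim l)

/-- the finite set of representations -/
noncomputable def EE (l : A) : Finset (MRep (GK K) × ℝ) := (𝒟.exists_set l).choose

theorem EE_ok (l : A) : OK {0} (𝒟.del l) (𝒟.EE l) := (𝒟.exists_set l).choose_spec.1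

theorem EE_all (l : A) : ∀ x t, Irr x → t ∈ ({0} : Set ℝ) → 𝒟.del l x t ≠ 0 →
    ∃ p ∈ 𝒟.EE l, p.2 = t ∧ Sim x p.1 := (𝒟.exists_set l).choose_spec.2

open Classical in
/-- the finite set of representations -/
noncomputable def E (l : A) : Finset (MRep (GK K)) := (𝒟.EE l).image Prod.fst

theorem E_irr {l : A} {x : MRep (GK K)} (h : x ∈ 𝒟.E l) : Irr x := by
  classical
  unfold E at h
  rw [Finset.mem_image] at h
  obtain ⟨p, hp, rfl⟩ := h
  exact (𝒟.EE_ok l).irr p hp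

theorem mem_E {l : A} {p : MRep (GK K) × ℝ} (h : p ∈ 𝒟.EE l) : p.1 ∈ 𝒟.E l := by
  classical
  unfold E
  exact Finset.mem_image_of_mem _ h

theorem sum_E {R : Type} [AddCommMonoid R] (l : A) (f : MRep (GK K) → R) :
    ∑ p ∈ 𝒟.E l, f p = ∑ p ∈ 𝒟.EE l, f p.1 := by
  classical
  unfold E
  rw [Finset.sum_image]
  intro p hp q hq hpq
  exact Prod.ext hpq (((𝒟.EE_ok l).mem p hp).trans ((𝒟.EE_ok l).mem q hq).symm)

theorem common_E (s : Finset A) (S : Finset (MRep (GK K)))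
    (hS : ∀ x ∈ S, Pool.Agent.W353.AT.IsArtin x.2) :
    ∃ U : Subgroup (GK K), U.Normal ∧ IsOpen (U : Set (GK K)) ∧
      (∀ l ∈ s, ∀ x ∈ 𝒟.E l, ∀ u ∈ U, x.2 u = 1) ∧ ∀ x ∈ S, ∀ u ∈ U, x.2 u = 1 := by
  classical
  obtain ⟨U, h1, h2, h3⟩ := common (s.biUnion 𝒟.E ∪ S) (fun x hx => by
    rcases Finset.mem_union.1 hx with hx | hx
    · obtain ⟨l, -, hl⟩ := Finset.mem_biUnion.1 hx
      exact (𝒟.E_irr hl).1
    · exact hS x hx)
  exact ⟨U, h1, h2, fun l hl x hx => h3 x (Finset.mem_union_left _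
    (Finset.mem_biUnion.2 ⟨l, hl, hx⟩)), fun x hx => h3 x (Finset.mem_union_right _ hx)⟩

/-- the open subgroup of the index -/
noncomputable def UU (l : A) : Subgroup (GK K) :=
  (𝒟.common_E {l} ∅ fun _ h => absurd h (Finset.notMem_empty _)).choose

theorem UU_normal (l : A) : (𝒟.UU l).Normal :=
  (𝒟.common_E {l} ∅ fun _ h => absurd h (Finset.notMem_empty _)).choose_spec.1

theorem UU_open (l : A) : IsOpen (𝒟.UU l : Set (GK K)) :=
  (𝒟.common_E {l} ∅ fun _ h => absurd h (Finset.notMem_empty _)).choose_spec.2.1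

theorem UU_triv (l : A) : ∀ x ∈ 𝒟.E l, ∀ u ∈ 𝒟.UU l, x.2 u = 1 :=
  (𝒟.common_E {l} ∅ fun _ h => absurd h (Finset.notMem_empty _)).choose_spec.2.2.1 l
    (Finset.mem_singleton_self l)

theorem cong (l : A) : ∀ x y, Irr x → Irr y → Sim x y → 𝒟.del l x 0 = 𝒟.del l y 0 := by
  intro x y hx hy hs
  have := (𝒟.del_lim l x hx 0 rfl).unique (𝒟.del_lim l y hy 0 rfl) hs
  exact_mod_cast this

open Classical in
/-- the combination of characters is a mean value -/
theorem mean_eq (μ : Mean K) (l : A) (U : Subgroup (GK K)) [U.Normal] [Finite (GK K ⧸ U)]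
    [Fintype (GK K ⧸ U)] (hU : IsOpen (U : Set (GK K)))
    (hEU : ∀ x ∈ 𝒟.E l, ∀ u ∈ U, x.2 u = 1) (g : GK K) :
    (((Fintype.card (GK K ⧸ U) : ℝ) * μ.m (fun v => 𝒟.T l v *
      ss (QuotientGroup.mk g : GK K ⧸ U) (QuotientGroup.mk (𝒟.σ v))) : ℝ) : ℂ) =
      ∑ p ∈ 𝒟.E l, (𝒟.del l p 0 : ℂ) * p.2.character g := by
  rw [𝒟.sum_E l (fun p => (𝒟.del l p 0 : ℂ) * p.2.character g)]
  exact theta μ (𝒟.bd l) (𝒟.del_lim l) (𝒟.EE_ok l) (𝒟.EE_all l) U hU
    (fun p hp => hEU p.1 (𝒟.mem_E hp)) g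

open Classical in
theorem mean_re (μ : Mean K) (l : A) (U : Subgroup (GK K)) [U.Normal] [Finite (GK K ⧸ U)]
    [Fintype (GK K ⧸ U)] (hU : IsOpen (U : Set (GK K)))
    (hEU : ∀ x ∈ 𝒟.E l, ∀ u ∈ U, x.2 u = 1) (g : GK K) :
    ∑ p ∈ 𝒟.E l, (𝒟.del l p 0 : ℝ) * (p.2.character g).re =
    (Fintype.card (GK K ⧸ U) : ℝ) * μ.m (fun v => 𝒟.T l v *
      ss (QuotientGroup.mk g : GK K ⧸ U) (QuotientGroup.mk (𝒟.σ v))) := by
  have h1 := congrArg Complex.re (𝒟.mean_eq μ l U hU hEU g)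
  rw [Complex.ofReal_re, Complex.re_sum] at h1
  rw [h1]
  refine Finset.sum_congr rfl fun p _ => ?_
  have : ((𝒟.del l p 0 : ℤ) : ℂ) = (((𝒟.del l p 0 : ℤ) : ℝ) : ℂ) := by push_cast; rfl
  rw [this, Complex.re_ofReal_mul]

theorem bdT (l : A) : Bd K (𝒟.T l) := ⟨𝒟.M, 𝒟.bd l⟩

theorem bd_ss {U : Subgroup (GK K)} [U.Normal] [Fintype (GK K ⧸ U)] [DecidableEq (GK K ⧸ U)]
    (q : GK K ⧸ U) (σ : HeightOneSpectrum (𝓞 K) → GK K) :
    Bd K (fun v => ss q (QuotientGroup.mk (σ v))) := ⟨1, fun v => by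
  rw [abs_of_nonneg (ss_nonneg _ _)]
  exact ss_le _ _⟩

/-- the system of integral combinations of characters -/
noncomputable def sys : Sys (GK K) A where
  E := 𝒟.E
  δ l x := 𝒟.del l x 0
  U := 𝒟.UU
  M := 𝒟.M
  normal := 𝒟.UU_normal
  fin l := Subgroup.quotient_finite_of_isOpen _ (𝒟.UU_open l)
  triv := 𝒟.UU_triv
  pd g ι s a u := by
    classical
    obtain ⟨μ⟩ := exists_mean K
    obtain ⟨U, hUn, hU, h1, -⟩ := 𝒟.common_E ((s ×ˢ s).image fun p => a p.1 - a p.2) ∅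
      fun _ h => absurd h (Finset.notMem_empty _)
    have hfin : Finite (GK K ⧸ U) := Subgroup.quotient_finite_of_isOpen U hU
    let _ : Fintype (GK K ⧸ U) := Fintype.ofFinite _
    have h2 : ∀ i ∈ s, ∀ j ∈ s, ∀ x ∈ 𝒟.E (a i - a j), ∀ u ∈ U, x.2 u = 1 := fun i hi j hj =>
      h1 _ (Finset.mem_image.2 ⟨(i, j), Finset.mem_product.2 ⟨hi, hj⟩, rfl⟩)
    set S : HeightOneSpectrum (𝓞 K) → ℝ := fun v =>
      ss (QuotientGroup.mk g : GK K ⧸ U) (QuotientGroup.mk (𝒟.σ v)) with hS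
    have hSb : Bd K S := bd_ss _ _
    have e1 : ∑ i ∈ s, ∑ j ∈ s, u i * u j *
        ∑ p ∈ 𝒟.E (a i - a j), (𝒟.del (a i - a j) p 0 : ℝ) * (p.2.character g).re =
        (Fintype.card (GK K ⧸ U) : ℝ) *
          μ.m (fun v => ∑ i ∈ s, ∑ j ∈ s, (u i * u j) * (𝒟.T (a i - a j) v * S v)) := by
      rw [μ.sum s fun i _ => Bd.sum s fun j _ => ((𝒟.bdT (a i - a j)).mul hSb).const_mul _,
        Finset.mul_sum]
      refine Finset.sum_congr rfl fun i hi => ?_
      rw [μ.sum s fun j _ => ((𝒟.bdT (a i - a j)).mul hSb).const_mul _, Finset.mul_sum]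
      refine Finset.sum_congr rfl fun j hj => ?_
      rw [𝒟.mean_re μ (a i - a j) U hU (h2 i hi j hj) g,
        μ.smul _ _ ((𝒟.bdT (a i - a j)).mul hSb)]
      ring
    rw [e1]
    refine mul_nonneg (Nat.cast_nonneg _) (μ.nonneg _ (Bd.sum s fun i _ => Bd.sum s fun j _ =>
      ((𝒟.bdT (a i - a j)).mul hSb).const_mul _) fun v => ?_)
    have e2 : ∑ i ∈ s, ∑ j ∈ s, (u i * u j) * (𝒟.T (a i - a j) v * S v) =
        (∑ i ∈ s, ∑ j ∈ s, u i * u j * 𝒟.T (a i - a j) v) * S v := by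
      rw [Finset.sum_mul]
      refine Finset.sum_congr rfl fun i _ => ?_
      rw [Finset.sum_mul]
      exact Finset.sum_congr rfl fun j _ => by ring
    rw [e2]
    exact mul_nonneg (𝒟.pd v ι s a u) (ss_nonneg _ _)
  zero g := by
    classical
    obtain ⟨μ⟩ := exists_mean K
    obtain ⟨U, hUn, hU, h1, -⟩ := 𝒟.common_E {0} ∅
      fun _ h => absurd h (Finset.notMem_empty _)
    have hfin : Finite (GK K ⧸ U) := Subgroup.quotient_finite_of_isOpen U hU
    let _ : Fintype (GK K ⧸ U) := Fintype.ofFinite _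
    have hc0 : (Fintype.card (GK K ⧸ U) : ℝ) ≠ 0 := by exact_mod_cast Fintype.card_ne_zero
    rw [𝒟.mean_re μ 0 U hU (h1 0 (Finset.mem_singleton_self _)) g]
    simp only [𝒟.zero]
    rw [μ.smul _ _ (bd_ss _ _)]
    have hlim : Has (fun v => ss (QuotientGroup.mk g : GK K ⧸ U) (QuotientGroup.mk (𝒟.σ v)))
        (Fintype.card (GK K ⧸ U) : ℝ)⁻¹ := by
      refine ⟨bd_ss _ _, ?_⟩
      have h2 := cheb_edge U hU (fun q => ((ss (QuotientGroup.mk g : GK K ⧸ U) q : ℝ) : ℂ))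
        (fun a x => by rw [ss_conj']) (Fintype.card (GK K ⧸ U) : ℝ)⁻¹ (by
          unfold avC
          rw [finsum_eq_sum_of_fintype, ← Complex.ofReal_sum, sum_ss_one,
            Nat.card_eq_fintype_card]
          push_cast
          ring) 𝒟.σ 𝒟.frob 0
      rw [if_pos rfl] at h2
      refine h2.congr fun ε => ?_
      congr 2
      funext v
      simp
    rw [μ.has _ _ hlim]
    field_simp
  symm l g := by
    classical
    obtain ⟨μ⟩ := exists_mean K
    obtain ⟨U, hUn, hU, h1, -⟩ := 𝒟.common_E {l, -l} ∅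
      fun _ h => absurd h (Finset.notMem_empty _)
    have hfin : Finite (GK K ⧸ U) := Subgroup.quotient_finite_of_isOpen U hU
    let _ : Fintype (GK K ⧸ U) := Fintype.ofFinite _
    rw [𝒟.mean_re μ l U hU (h1 l (Finset.mem_insert_self _ _)) g,
      𝒟.mean_re μ (-l) U hU (h1 (-l) (Finset.mem_insert_of_mem (Finset.mem_singleton_self _))) g]
    congr 2
    funext v
    rw [𝒟.neg]

theorem sys_Θ (l : A) (g : GK K) : 𝒟.sys.Θ l g =
    ∑ p ∈ 𝒟.E l, (𝒟.del l p 0 : ℝ) * (p.2.character g).re := rfl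

section
variable [MeasurableSpace (GK K)] [BorelSpace (GK K)] (ν : Measure (GK K)) [ν.IsHaarMeasure]
  [IsProbabilityMeasure ν]

/-- **The limits as integrals.** -/
theorem integral_eq (l : A) (x : MRep (GK K)) (hx : Irr x) :
    ∫ g, 𝒟.sys.Θ l g * (x.2.character g).re ∂ν = 𝒟.del l x 0 := by
  classical
  obtain ⟨μ⟩ := exists_mean K
  obtain ⟨U, hUn, hU, h1, h2⟩ := 𝒟.common_E {l} {x} (fun y hy => by
    rw [Finset.mem_singleton.1 hy]
    exact hx.1)
  have h1 := h1 l (Finset.mem_singleton_self _)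
  have h2 := h2 x (Finset.mem_singleton_self _)
  have hfin : Finite (GK K ⧸ U) := Subgroup.quotient_finite_of_isOpen U hU
  let _ : Fintype (GK K ⧸ U) := Fintype.ofFinite _
  have hc0 : (Fintype.card (GK K ⧸ U) : ℝ) ≠ 0 := by exact_mod_cast Fintype.card_ne_zero
  set F : GK K ⧸ U → ℝ := fun q =>
    (∑ p ∈ 𝒟.EE l, (𝒟.del l p.1 0 : ℂ) * chU U p.1 q).re * (chU U x q).re with hF
  have e1 : ∀ g, 𝒟.sys.Θ l g * (x.2.character g).re = F (QuotientGroup.mk g) := by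
    intro g
    rw [hF]
    simp only
    rw [chU_mk h2, sys_Θ, 𝒟.sum_E l (fun p => (𝒟.del l p 0 : ℝ) * (p.2.character g).re),
      Complex.re_sum]
    congr 1
    refine Finset.sum_congr rfl fun p hp => ?_
    rw [chU_mk (h1 p.1 (𝒟.mem_E hp))]
    have : ((𝒟.del l p.1 0 : ℤ) : ℂ) = (((𝒟.del l p.1 0 : ℤ) : ℝ) : ℂ) := by push_cast; rfl
    rw [this, Complex.re_ofReal_mul]
  simp only [e1]
  rw [integral_level ν hU F, finsum_eq_sum_of_fintype, Nat.card_eq_fintype_card,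
    inv_mul_eq_iff_eq_mul₀ hc0]
  have h3 := ortho_sum (𝒟.EE_ok l) (𝒟.EE_all l) (𝒟.cong l) U (fun p hp => h1 p.1 (𝒟.mem_E hp))
    x hx h2
  have h4 := congrArg Complex.re h3
  rw [Complex.re_sum] at h4
  have e2 : ((Fintype.card (GK K ⧸ U) : ℂ) * (𝒟.del l x 0 : ℂ)).re =
      (Fintype.card (GK K ⧸ U) : ℝ) * (𝒟.del l x 0 : ℝ) := by
    have : ((Fintype.card (GK K ⧸ U) : ℂ) * (𝒟.del l x 0 : ℂ)) =
        (((Fintype.card (GK K ⧸ U) : ℝ) * (𝒟.del l x 0 : ℝ) : ℝ) : ℂ) := by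
      push_cast
      rfl
    rw [this, Complex.ofReal_re]
  rw [← e2, ← h4]
  refine Finset.sum_congr rfl fun q _ => ?_
  rw [hF]
  simp only
  rw [chU_inv h2, Complex.mul_re, Complex.conj_re, Complex.conj_im]
  -- the sum is real
  have h5 : (∑ p ∈ 𝒟.EE l, (𝒟.del l p.1 0 : ℂ) * chU U p.1 q).im = 0 := by
    obtain ⟨g, rfl⟩ := QuotientGroup.mk_surjective q
    have h6 := 𝒟.mean_eq μ l U hU h1 g
    rw [𝒟.sum_E l (fun p => (𝒟.del l p 0 : ℂ) * p.2.character g)] at h6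
    have h7 : ∑ p ∈ 𝒟.EE l, (𝒟.del l p.1 0 : ℂ) * chU U p.1 (QuotientGroup.mk g) =
        ∑ p ∈ 𝒟.EE l, (𝒟.del l p.1 0 : ℂ) * p.1.2.character g :=
      Finset.sum_congr rfl fun p hp => by rw [chU_mk (h1 p.1 (𝒟.mem_E hp))]
    rw [h7, ← h6, Complex.ofReal_im]
  rw [h5, zero_mul, sub_zero]

end

/-- finite sets of different representations which occur -/
structure Good (S : Finset (MRep (GK K))) : Prop where
  irr : ∀ x ∈ S, Irr x
  ne : ∀ x ∈ S, ∃ l, 𝒟.del l x 0 ≠ 0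
  ineq : ∀ x ∈ S, ∀ y ∈ S, x ≠ y → ¬ Sim x y

theorem good_bound [Countable A] [Module.Finite ℤ A] :
    ∃ B : ℕ, ∀ S : Finset (MRep (GK K)), 𝒟.Good S → S.card ≤ B := by
  classical
  let _ : MeasurableSpace (GK K) := borel _
  have : BorelSpace (GK K) := ⟨rfl⟩
  obtain ⟨ν, hν⟩ : ∃ ν : Measure (GK K), ν.IsHaarMeasure ∧ IsProbabilityMeasure ν :=
    ⟨MeasureTheory.Measure.haarMeasure ⊤, inferInstance, ⟨by
      have := MeasureTheory.Measure.haarMeasure_self (K₀ := (⊤ : TopologicalSpace.PositiveCompacts (GK K)))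
      simpa using this⟩⟩
  obtain ⟨hν1, hν2⟩ := hν
  obtain ⟨B, hB⟩ := 𝒟.sys.exists_bound ν 𝒟.UU_open
  refine ⟨B, fun S hS => ?_⟩
  obtain ⟨V, hVn, hV, h1⟩ := common S fun x hx => (hS.irr x hx).1
  have hfin : Finite (GK K ⧸ V) := Subgroup.quotient_finite_of_isOpen V hV
  refine hB (MRep (GK K)) S (fun x => x) V hV h1 (fun x hx => (hS.irr x hx).2)
    (fun x hx y hy hxy => not_nonempty_iff.1 (hS.ineq x hx y hy hxy)) (fun x hx => ?_)
  obtain ⟨l, hl⟩ := hS.ne x hx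
  refine ⟨l, ?_⟩
  rw [𝒟.integral_eq ν l x (hS.irr x hx)]
  have : (1 : ℤ) ≤ |𝒟.del l x 0| := Int.one_le_abs hl
  exact_mod_cast this

/-- **One open subgroup governs all limits.** -/
theorem exists_U [Countable A] [Module.Finite ℤ A] (W : Subgroup (GK K))
    (hW : IsOpen (W : Set (GK K))) : ∃ U : Subgroup (GK K), U.Normal ∧
      IsOpen (U : Set (GK K)) ∧ U ≤ W ∧ ∀ l x, Irr x → (∃ u ∈ U, x.2 u ≠ 1) → 𝒟.del l x 0 = 0 := by
  classical
  obtain ⟨B, hB⟩ := 𝒟.good_bound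
  set S : Set ℕ := {k | ∃ E : Finset (MRep (GK K)), 𝒟.Good E ∧ E.card = k} with hS
  have hne : S.Nonempty := by
    refine ⟨0, ∅, ⟨?_, ?_, ?_⟩, rfl⟩
    · intro p hp
      exact absurd hp (Finset.notMem_empty _)
    · intro p hp
      exact absurd hp (Finset.notMem_empty _)
    · intro p hp
      exact absurd hp (Finset.notMem_empty _)
  have hbdd : BddAbove S := by
    refine ⟨B, ?_⟩
    rintro k ⟨E, hE, rfl⟩
    exact hB E hE
  obtain ⟨E, hE, hEc⟩ := Nat.sSup_mem hne hbdd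
  have hmax : ∀ x, Irr x → (∃ l, 𝒟.del l x 0 ≠ 0) → ∃ y ∈ E, Sim x y := by
    intro x hx hl
    by_contra hcon
    push Not at hcon
    have hnot : x ∉ E := fun h => hcon x h (Sim.refl x)
    have hOK : 𝒟.Good (insert x E) := by
      refine ⟨?_, ?_, ?_⟩
      · intro p hp
        rcases Finset.mem_insert.1 hp with rfl | hp
        · exact hx
        · exact hE.irr p hp
      · intro p hp
        rcases Finset.mem_insert.1 hp with rfl | hp
        · exact hl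
        · exact hE.ne p hp
      · intro p hp q hq hpq
        rcases Finset.mem_insert.1 hp with hp' | hp'
        · rcases Finset.mem_insert.1 hq with hq' | hq'
          · exact absurd (hp'.trans hq'.symm) hpq
          · rw [hp']
            exact hcon q hq'
        · rcases Finset.mem_insert.1 hq with hq' | hq'
          · rw [hq']
            exact fun h => hcon p hp' h.symm
          · exact hE.ineq p hp' q hq' hpq
    have h1 : (insert x E).card ≤ sSup S := le_csSup hbdd ⟨_, hOK, rfl⟩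
    rw [Finset.card_insert_of_notMem hnot, ← hEc] at h1
    omega
  obtain ⟨U, hUn, hU, h1⟩ := common E fun x hx => (hE.irr x hx).1
  -- the core of `W`
  have hWq : Finite (GK K ⧸ W) := Subgroup.quotient_finite_of_isOpen W hW
  have hWfin : W.FiniteIndex := Subgroup.finiteIndex_of_finite_quotient
  have hcore : IsOpen (W.normalCore : Set (GK K)) := by
    have h3 : W.normalCore.FiniteIndex := Subgroup.finiteIndex_normalCore W
    have h4 : IsClosed (W.normalCore : Set (GK K)) := by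
      exact W.normalCore_isClosed (W.isClosed_of_isOpen hW)
    exact W.normalCore.isOpen_of_isClosed_of_finiteIndex h4
  refine ⟨U ⊓ W.normalCore, inferInstance, ?_, inf_le_right.trans W.normalCore_le, ?_⟩
  · rw [Subgroup.coe_inf]
    exact hU.inter hcore
  · rintro l x hx ⟨u, hu, hxu⟩
    by_contra hd
    obtain ⟨y, hy, ⟨e⟩⟩ := hmax x hx ⟨l, hd⟩
    apply hxu
    have h2 := h1 y hy u hu.1
    refine LinearMap.ext fun z => ?_
    apply e.toLinearEquiv.injective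
    have h3 : e.toLinearEquiv (x.2 u z) = y.2 u (e.toLinearEquiv z) := by
      exact Representation.IntertwiningMap.isIntertwining _ _ e.toIntertwiningMap u z
    rw [h3, h2]
    rfl

end Dat

end

end Pool.Agent.H848.GO
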