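import Pool.Agent.H848.GO.Dual
import Pool.Graph.R_pool_sql_team_seeded_ab47071d.TH375.ED.Haar

/-!
# Finitely many irreducible characters occur
-/

set_option autoImplicit false
set_option linter.unusedSectionVars false
set_option linter.unusedVariables false

namespace Pool.Agent.H848.GO

open Complex ComplexConjugate MeasureTheory Filter Topology
open Pool.Agent.W353.AT (MRep)
open Pool.Agent.W540.BE (qrep ortho)
open Pool.Agent.TH375.ED (integral_level)

section
variable {G : Type} [Group G] [TopologicalSpace G] [IsTopologicalGroup G] [CompactSpace G]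
  [MeasurableSpace G] [BorelSpace G] (μ : Measure G) [μ.IsHaarMeasure] [IsProbabilityMeasure μ]

/-- functions of finite level are measurable -/
theorem measurable_level {U : Subgroup G} (hU : IsOpen (U : Set G)) {E : Type} [MeasurableSpace E]
    (f : G → E) (hf : ∀ g, ∀ u ∈ U, f (g * u) = f g) : Measurable f := by
  intro s _
  have h1 : IsOpen (f ⁻¹' s) := by
    rw [isOpen_iff_mem_nhds]
    intro g hg
    have h2 : IsOpen ((fun x => g⁻¹ * x) ⁻¹' (U : Set G)) := hU.preimage (continuous_const_mul _)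
    refine mem_of_superset (h2.mem_nhds ?_) ?_
    · rw [Set.mem_preimage, inv_mul_cancel]
      exact U.one_mem
    · intro x hx
      rw [Set.mem_preimage] at hx ⊢
      have h3 := hf g _ hx
      rw [mul_inv_cancel_left] at h3
      rw [h3]
      exact hg
  exact h1.measurableSet

/-- bounded measurable functions are integrable -/
theorem integrable_of_bound {f : G → ℝ} (hf : Measurable f) {C : ℝ} (hC : ∀ g, |f g| ≤ C) :
    Integrable f μ :=
  Integrable.of_bound hf.aestronglyMeasurable C (Eventually.of_forall hC)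

variable {κ : Type*} (S : Finset κ) (p : κ → MRep G) (V : Subgroup G) [V.Normal]
  (hV : IsOpen (V : Set G)) [Finite (G ⧸ V)] (htriv : ∀ k ∈ S, ∀ u ∈ V, (p k).2 u = 1)
  (hirr : ∀ k ∈ S, (p k).2.IsIrreducible)
  (hne : ∀ k ∈ S, ∀ l ∈ S, k ≠ l → IsEmpty ((p k).2.Equiv (p l).2))

theorem char_level {q : MRep G} {V : Subgroup G} (h : ∀ u ∈ V, q.2 u = 1) (g : G) {u : G}
    (hu : u ∈ V) : q.2.character (g * u) = q.2.character g := by
  unfold Representation.character
  rw [map_mul, h u hu, mul_one]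

theorem char_bound {q : MRep G} {V : Subgroup G} [V.Normal] [Finite (G ⧸ V)]
    (h : ∀ u ∈ V, q.2 u = 1) (g : G) : ‖q.2.character g‖ ≤ q.1 :=
  Pool.Agent.W540.BE.norm_char_le V q.2 h g

include hV htriv hirr hne in
theorem integral_sq (r : κ → ℝ) :
    ∫ g, ‖∑ k ∈ S, (r k : ℂ) * (p k).2.character g‖ ^ 2 ∂μ = ∑ k ∈ S, r k ^ 2 := by
  classical
  let _ : Fintype (G ⧸ V) := Fintype.ofFinite _
  have hc0 : (Nat.card (G ⧸ V) : ℂ) ≠ 0 := by exact_mod_cast Nat.card_pos.ne'
  -- the characters on the quotient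
  set ch : κ → G ⧸ V → ℂ := fun k q =>
    if h : k ∈ S then (qrep V (p k).2 (htriv k h)).character q else 0 with hch
  have hch1 : ∀ k ∈ S, ∀ g : G, ch k (QuotientGroup.mk g) = (p k).2.character g := by
    intro k hk g
    rw [hch]
    simp only [dif_pos hk]
    rfl
  have e1 : (fun g : G => ‖∑ k ∈ S, (r k : ℂ) * (p k).2.character g‖ ^ 2) =
      fun g : G => (fun q : G ⧸ V => ‖∑ k ∈ S, (r k : ℂ) * ch k q‖ ^ 2) (QuotientGroup.mk g) := by
    funext g
    simp only
    congr 2
    exact Finset.sum_congr rfl fun k hk => by rw [hch1 k hk]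
  rw [e1]
  refine (integral_level μ hV (fun q : G ⧸ V => ‖∑ k ∈ S, (r k : ℂ) * ch k q‖ ^ 2)).trans ?_
  rw [finsum_eq_sum_of_fintype]
  have e2 : ∀ q : G ⧸ V, ((‖∑ k ∈ S, (r k : ℂ) * ch k q‖ ^ 2 : ℝ) : ℂ) =
      ∑ k ∈ S, ∑ l ∈ S, ((r k * r l : ℝ) : ℂ) * (ch k q * ch l q⁻¹) := by
    intro q
    rw [← Complex.normSq_eq_norm_sq, ← Complex.mul_conj, map_sum, Finset.sum_mul_sum]
    refine Finset.sum_congr rfl fun k _ => Finset.sum_congr rfl fun l hl => ?_
    rw [map_mul, Complex.conj_ofReal]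
    have e3 : conj (ch l q) = ch l q⁻¹ := by
      rw [hch]
      simp only [dif_pos hl]
      exact (Pool.Agent.W353.L1.char_inv _ q).symm
    rw [e3]
    push_cast
    ring
  have e3 : (((Nat.card (G ⧸ V) : ℝ)⁻¹ * ∑ q : G ⧸ V, ‖∑ k ∈ S, (r k : ℂ) * ch k q‖ ^ 2 : ℝ) : ℂ)
      = ((∑ k ∈ S, r k ^ 2 : ℝ) : ℂ) := by
    push_cast
    have e4 : ∀ q : G ⧸ V, ((‖∑ k ∈ S, (r k : ℂ) * ch k q‖ : ℝ) : ℂ) ^ 2 =
        ∑ k ∈ S, ∑ l ∈ S, ((r k * r l : ℝ) : ℂ) * (ch k q * ch l q⁻¹) := by
      intro q
      rw [← e2 q]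
      push_cast
      rfl
    rw [Finset.sum_congr rfl fun q _ => e4 q, Finset.sum_comm, Finset.mul_sum]
    refine Finset.sum_congr rfl fun k hk => ?_
    rw [Finset.sum_comm, Finset.mul_sum]
    have e5 : ∀ l ∈ S, (Nat.card (G ⧸ V) : ℂ)⁻¹ * ∑ q : G ⧸ V,
        ((r k * r l : ℝ) : ℂ) * (ch k q * ch l q⁻¹) = if k = l then (r k : ℂ) ^ 2 else 0 := by
      intro l hl
      rw [← Finset.mul_sum, mul_left_comm]
      have h1 := ortho V (p k).2 (htriv k hk) (hirr k hk) (p l).2 (htriv l hl) (hirr l hl)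
      rw [finsum_eq_sum_of_fintype] at h1
      have h2 : ∑ q : G ⧸ V, ch k q * ch l q⁻¹ = ∑ q : G ⧸ V,
          (qrep V (p k).2 (htriv k hk)).character q *
            (qrep V (p l).2 (htriv l hl)).character q⁻¹ := by
        refine Finset.sum_congr rfl fun q _ => ?_
        rw [hch]
        simp only [dif_pos hk, dif_pos hl]
      rw [h2, h1]
      by_cases h : k = l
      · subst h
        rw [if_pos ⟨Representation.Equiv.refl _⟩, if_pos rfl]
        push_cast
        ring
      · rw [if_neg (not_nonempty_iff.2 (hne k hk l hl h)), if_neg h, mul_zero]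
    rw [Finset.sum_congr rfl e5, Finset.sum_ite_eq, if_pos hk]
  exact_mod_cast e3

/-- the real part of a character is measurable and bounded -/
theorem meas_char {q : MRep G} {V : Subgroup G} (hV : IsOpen (V : Set G))
    (h : ∀ u ∈ V, q.2 u = 1) : Measurable fun g => (q.2.character g).re :=
  measurable_level hV _ fun g u hu => by rw [char_level h g hu]

include hV htriv hirr hne in
/-- **Bessel's inequality.** -/
theorem bessel_set {D : Set G} (hD : MeasurableSet D) :
    ∑ k ∈ S, (∫ g in D, ((p k).2.character g).re ∂μ) ^ 2 ≤ 1 := by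
  classical
  set r : κ → ℝ := fun k => ∫ g in D, ((p k).2.character g).re ∂μ with hr
  set F : G → ℂ := fun g => ∑ k ∈ S, (r k : ℂ) * (p k).2.character g with hF
  have hint : ∀ k ∈ S, Integrable (fun g => ((p k).2.character g).re) μ := fun k hk =>
    integrable_of_bound μ (meas_char hV (htriv k hk)) (C := (p k).1) fun g =>
      (Complex.abs_re_le_norm _).trans (char_bound (htriv k hk) g)
  have hFm : Measurable F := measurable_level hV _ fun g u hu => by
    rw [hF]
    simp only
    exact Finset.sum_congr rfl fun k hk => by rw [char_level (htriv k hk) g hu]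
  have hFb : ∀ g, ‖F g‖ ≤ ∑ k ∈ S, |r k| * (p k).1 := by
    intro g
    rw [hF]
    refine (norm_sum_le _ _).trans (Finset.sum_le_sum fun k hk => ?_)
    rw [norm_mul, Complex.norm_real, Real.norm_eq_abs]
    exact mul_le_mul_of_nonneg_left (char_bound (htriv k hk) g) (abs_nonneg _)
  have h1 : ∫ g in D, (F g).re ∂μ = ∑ k ∈ S, r k ^ 2 := by
    have e1 : ∀ g, (F g).re = ∑ k ∈ S, r k * ((p k).2.character g).re := by
      intro g
      rw [hF]
      simp only
      rw [Complex.re_sum]
      exact Finset.sum_congr rfl fun k _ => Complex.re_ofReal_mul _ _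
    simp only [e1]
    rw [integral_finsetSum]
    · refine Finset.sum_congr rfl fun k _ => ?_
      rw [integral_const_mul]
      rw [sq]
    · intro k hk
      exact ((hint k hk).const_mul (r k)).integrableOn
  have hFr : Integrable (fun g => (F g).re) μ :=
    integrable_of_bound μ (Complex.measurable_re.comp hFm) fun g =>
      (Complex.abs_re_le_norm _).trans (hFb g)
  have hFs : Integrable (fun g => ‖F g‖ ^ 2) μ := by
    refine integrable_of_bound μ (hFm.norm.pow_const 2) (C := (∑ k ∈ S, |r k| * (p k).1) ^ 2) fun g => ?_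
    rw [abs_of_nonneg (sq_nonneg _)]
    exact pow_le_pow_left₀ (norm_nonneg _) (hFb g) 2
  have h2 : ∫ g in D, (F g).re ∂μ ≤ ∫ g in D, ((‖F g‖ ^ 2 + 1) / 2) ∂μ := by
    refine integral_mono hFr.integrableOn ((hFs.add (integrable_const 1)).div_const 2).integrableOn
      fun g => ?_
    have h3 := Complex.re_le_norm (F g)
    simp only
    nlinarith [sq_nonneg (‖F g‖ - 1)]
  have h3 : ∫ g in D, ((‖F g‖ ^ 2 + 1) / 2) ∂μ ≤ ∫ g, ((‖F g‖ ^ 2 + 1) / 2) ∂μ := by
    refine setIntegral_le_integral ((hFs.add (integrable_const 1)).div_const 2)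
      (Eventually.of_forall fun g => ?_)
    simp only [Pi.zero_apply]
    positivity
  have h4 : ∫ g, ((‖F g‖ ^ 2 + 1) / 2) ∂μ = (∑ k ∈ S, r k ^ 2 + 1) / 2 := by
    rw [integral_div, integral_add hFs (integrable_const 1), integral_const, probReal_univ,
      one_smul, hF]
    rw [integral_sq μ S p V hV htriv hirr hne r]
  rw [h1] at h2
  rw [h4] at h3
  linarith

end

end Pool.Agent.H848.GO
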