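import Pool.Agent.H848.GO.Frob
import Pool.Graph.R_seed8.W353.AT.Link

/-!
# The sizes of the L-functions of the tensor products of exterior powers
-/

set_option autoImplicit false
set_option linter.unusedSectionVars false

namespace Pool.Agent.H848.GO

open Complex Filter Topology ComplexConjugate NumberField IsDedekindDomain Asymptotics
  Pool.Agent.W401.Cheb Pool.Agent.W540.BE Pool.Agent.W353.L1 Polynomial
open Pool.Agent.W353.TP (HX sysH push push_abs_le qh qh_abs qh_eq res LL LL_tendsto E_H bdd_isLittleO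
  lam0_sub)
open Pool.Agent.W353.AB (Sy vq corr_gen)
open Pool.Agent.W353.NF (vx EP_eq)
open Pool.Agent.H921R2.TatePole (kerPrime)
open Pool.Agent.H341R2 (lam lam_tendsto sysK chi)
open Pool.Agent.W353.PV (chi_one)
open Pool.Agent.W353.AT (MRep Lim exists_common)

section
variable {K : Type} [Field K] {n : ℕ}

/-- the chosen eigenvalues of the representation `w` -/
noncomputable def alW (X : Set (MvPolynomial (Fin n) (𝓞 K))) (d : ℕ) (N : ℕ → ℕ) {r : ℕ}
    (w : Fin r → Fin (2 * d + 1) × ℕ) (F : Type) [Field F] [NumberField F] [Algebra K F]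
    (v : HeightOneSpectrum (𝓞 F)) : Fin (basis N w).card → ℂ :=
  fun j => eigenvalue w (alF X d N v) ((basis N w).equivFin.symm j).1

/-- the normalised trace -/
noncomputable def tW (X : Set (MvPolynomial (Fin n) (𝓞 K))) (d : ℕ) (N : ℕ → ℕ) {r : ℕ}
    (w : Fin r → Fin (2 * d + 1) × ℕ) (F : Type) [Field F] [NumberField F] [Algebra K F]
    (v : HeightOneSpectrum (𝓞 F)) : ℝ :=
  tr ((weight w : ℝ) / 2) (alW X d N w F) v

variable {X : Set (MvPolynomial (Fin n) (𝓞 K))} {d : ℕ} {N : ℕ → ℕ} {r : ℕ}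
  {w : Fin r → Fin (2 * d + 1) × ℕ} {F : Type} [Field F] [NumberField F] [Algebra K F]

theorem abs_tW (v : HeightOneSpectrum (𝓞 F)) : |tW X d N w F v| ≤ ((basis N w).card : ℝ) :=
  abs_tr_le _ _ _

theorem sum_alW (f : ℂ → ℂ) (v : HeightOneSpectrum (𝓞 F)) :
    ∑ j, f (alW X d N w F v j) = ∑ S ∈ basis N w, f (eigenvalue w (alF X d N v) S) := by
  unfold alW
  rw [← Finset.sum_coe_sort (basis N w) (fun S => f (eigenvalue w (alF X d N v) S))]
  exact Equiv.sum_comp (basis N w).equivFin.symm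
    (fun S => f (eigenvalue w (alF X d N v) S.1))

theorem prod_alW (f : ℂ → ℂ) (v : HeightOneSpectrum (𝓞 F)) :
    ∏ j, f (alW X d N w F v j) = ∏ S ∈ basis N w, f (eigenvalue w (alF X d N v) S) := by
  unfold alW
  rw [← Finset.prod_coe_sort (basis N w) (fun S => f (eigenvalue w (alF X d N v) S))]
  exact Equiv.prod_comp (basis N w).equivFin.symm
    (fun S => f (eigenvalue w (alF X d N v) S.1))

theorem norm_alW {v : HeightOneSpectrum (𝓞 F)} (h : ∃ α, IsFrobenius X d N v α)
    (j : Fin (basis N w).card) : ‖alW X d N w F v j‖ =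
      (Pool.Agent.W540.BE.nm F v : ℝ) ^ ((weight w : ℝ) / 2) :=
  norm_eigenvalue w (alF_spec h) ((basis N w).equivFin.symm j).2

theorem im_alW {v : HeightOneSpectrum (𝓞 F)} (h : ∃ α, IsFrobenius X d N v α) :
    (∑ j, alW X d N w F v j).im = 0 := by
  rw [sum_alW (fun z => z)]
  exact sum_eigenvalue_im w (alF_spec h)

/-- the normalised trace and the symmetric function -/
theorem tW_eq {v : HeightOneSpectrum (𝓞 F)} (h : ∃ α, IsFrobenius X d N v α) :
    tW X d N w F v = (ew w (xv X d N v)).re := by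
  have h1 := tr_eq (w := (weight w : ℝ) / 2) (α := alW X d N w F) (v := v)
    (norm_alW h) (im_alW h)
  have h2 := ew_xv w (alF_spec h)
  rw [h2, ← Finset.sum_mul, ← sum_alW (fun z => z)]
  have h3 : ((tW X d N w F v : ℝ) : ℂ) = (∑ j, alW X d N w F v j) *
      ((Pool.Agent.W540.BE.nm F v : ℕ) : ℂ) ^ (-(((weight w : ℝ) / 2 : ℝ) : ℂ)) := h1
  have h4 : tW X d N w F v = (((tW X d N w F v : ℝ) : ℂ)).re := (Complex.ofReal_re _).symm
  rw [h4, h3]
  rfl

/-- any two families of eigenvalues give the same products -/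
theorem prod_eigenvalue {v : HeightOneSpectrum (𝓞 F)}
    {α : ∀ i : Fin (2 * d + 1), Fin (N i) → ℂ} (h : IsFrobenius X d N v α) (f : ℂ → ℂ)  :
    ∏ S ∈ basis N w, f (eigenvalue w α S) =
      ∏ S ∈ basis N w, f (eigenvalue w (alF X d N v) S) := by
  classical
  have h' := alF_spec ⟨α, h⟩
  -- permutations
  have h1 : ∀ i : Fin (2 * d + 1), ∃ τ : Equiv.Perm (Fin (N i)),
      ∀ a, α i a = alF X d N v i (τ a) := by
    intro i
    have h2 := h.unique h' i
    have hcard : ∀ z : ℂ, Fintype.card {a // α i a = z} =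
        Fintype.card {a // alF X d N v i a = z} := by
      intro z
      rw [Fintype.card_subtype, Fintype.card_subtype]
      have h1 := congrArg (Multiset.count z) h2
      rw [Multiset.count_map, Multiset.count_map] at h1
      have h2 : ∀ f : Fin (N i) → ℂ, (Finset.univ.filter fun a => f a = z).card =
          (Multiset.filter (fun a => z = f a) Finset.univ.val).card := by
        intro f
        rw [Finset.card_def, Finset.filter_val]
        congr 1
        exact Multiset.filter_congr fun a _ => eq_comm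
      rw [h2, h2, h1]
    have e : ∀ z : ℂ, Nonempty ({a // α i a = z} ≃ {a // alF X d N v i a = z}) := fun z =>
      ⟨Fintype.equivOfCardEq (hcard z)⟩
    refine ⟨(Equiv.sigmaFiberEquiv (α i)).symm.trans
      ((Equiv.sigmaCongrRight fun z => (e z).some).trans
      (Equiv.sigmaFiberEquiv (alF X d N v i))), fun a => ?_⟩
    have := ((e (α i a)).some ⟨a, rfl⟩).2
    exact this.symm
  choose τ hτ using h1
  refine Finset.prod_nbij' (fun S j => (S j).map (τ (w j).1).toEmbedding)
    (fun S j => (S j).map (τ (w j).1).symm.toEmbedding) ?_ ?_ ?_ ?_ ?_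
  · intro S hS
    rw [basis, Fintype.mem_piFinset] at hS ⊢
    intro j
    have := hS j
    rw [Finset.mem_powersetCard] at this ⊢
    exact ⟨Finset.subset_univ _, by rw [Finset.card_map, this.2]⟩
  · intro S hS
    rw [basis, Fintype.mem_piFinset] at hS ⊢
    intro j
    have := hS j
    rw [Finset.mem_powersetCard] at this ⊢
    exact ⟨Finset.subset_univ _, by rw [Finset.card_map, this.2]⟩
  · intro S _
    funext j
    simp only [Finset.map_map]
    ext a
    simp
  · intro S _
    funext j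
    simp only [Finset.map_map]
    ext a
    simp
  · intro S _
    congr 1
    unfold eigenvalue
    refine Finset.prod_congr rfl fun j _ => ?_
    rw [Finset.prod_map]
    exact Finset.prod_congr rfl fun a _ => hτ _ a

end

section
variable {K : Type} [Field K] [NumberField K] {n : ℕ}
  {X : Set (MvPolynomial (Fin n) (𝓞 K))} {d : ℕ} {N : ℕ → ℕ} {r : ℕ}
  {w : Fin r → Fin (2 * d + 1) × ℕ}

theorem edge_cast : (((((weight w : ℝ) / 2 : ℝ) : ℂ)) + 1 + ((0 : ℝ) : ℂ) * Complex.I) =
    (weight w : ℂ) / 2 + 1 := by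
  push_cast
  ring

/-- **The orders of the twists are mean values.** -/
theorem lim_twist (x : MRep (GK K)) (hx : IsArtin x.2) {m : ℤ}
    (h : TwistedPole X d N w x.2 m) {σ : HeightOneSpectrum (𝓞 K) → GK K}
    (hσ : ∀ v, IsFrob v (σ v)) : Lim (tW X d N w K) σ x 0 m := by
  classical
  obtain ⟨B, ⟨hB1, hB2⟩, hB3⟩ := h
  obtain ⟨U, hUn, hU, hx1⟩ := exists_common (κ := Unit) (n := fun _ => x.1)
    (fun _ => x.2) fun _ => hx
  have hx1 : ∀ u ∈ U, x.2 u = 1 := hx1 ()
  have hfin : Finite (GK K ⧸ U) := Subgroup.quotient_finite_of_isOpen U hU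
  have hex : ∀ᶠ v : HeightOneSpectrum (𝓞 K) in cofinite, ∃ α, IsFrobenius X d N v α :=
    hB1.mono fun v hv => ⟨hv.choose, hv.choose_spec.1⟩
  have h1 := size_corr ((weight w : ℝ) / 2) (alW X d N w K)
    (hex.mono fun v hv j => norm_alW hv j) (hex.mono fun v hv => im_alW hv) U x.2 hx1 0 B
    (hB1.mono fun v hv g hg z => by
      obtain ⟨α, h1, h2⟩ := hv
      rw [h2 g hg z, prod_alW (fun a => LinearMap.det (1 - (a * z) • x.2 g⁻¹))]
      exact prod_eigenvalue h1 (fun a => LinearMap.det (1 - (a * z) • x.2 g⁻¹)))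
    (by rw [edge_cast]; exact hB2) (LFun B) (fun s _ => rfl) σ hσ
  have h2 : Tendsto (fun ε : ℝ => Real.log ‖LFun B ((((weight w : ℝ) / 2 : ℝ) : ℂ) + 1 +
      ((0 : ℝ) : ℂ) * Complex.I + ε)‖ / Real.log (1 / ε)) (𝓝[>] 0) (𝓝 (m : ℝ)) := by
    rw [edge_cast]
    exact hB3
  have h3 := h1.2.add h2
  rw [zero_add] at h3
  unfold Lim
  refine h3.congr fun ε => ?_
  rw [sub_add_cancel]
  congr 2
  funext v
  rw [Complex.re_ofReal_mul]
  rfl

variable (X d N) in
/-- the system of the representation `w` -/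
noncomputable def syW {r : ℕ} (w : Fin r → Fin (2 * d + 1) × ℕ) : Sy K where
  ι := Unit
  P := {()}
  r := 0
  A _ := ∅
  T _ x := ((tW X d N w K (vx x) : ℝ) : ℂ)
  b _ := (basis N w).card
  hb _ _ := Nat.cast_nonneg _
  hT _ _ x := by
    rw [Complex.norm_real, Real.norm_eq_abs]
    exact abs_tW _

theorem syW_real : ∀ j ∈ (syW X d N w).P, ∀ x, ((syW X d N w).T j x).im = 0 :=
  fun _ _ _ => Complex.ofReal_im _

variable {F : Type} [Field F] [NumberField F] [Algebra K F]

theorem tW_ker (p : Nat.Primes) (ψ : 𝓞 F →+* ZMod (p : ℕ)) :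
    tW X d N w F (kerPrime p ψ).1.1 =
      tW X d N w K (vx (⟨p, ψ.comp (algebraMap (𝓞 K) (𝓞 F))⟩ : HX K)) := by
  have e1 : alW X d N w F (kerPrime p ψ).1.1 =
      alW X d N w K (vx (⟨p, ψ.comp (algebraMap (𝓞 K) (𝓞 F))⟩ : HX K)) := by
    unfold alW
    have := alF_ker (X := X) (d := d) (N := N) (F := F) p ψ
    funext j
    rw [this]
    rfl
  have e2 : Pool.Agent.W540.BE.nm F (kerPrime p ψ).1.1 =
      Pool.Agent.W540.BE.nm K (vx (⟨p, ψ.comp (algebraMap (𝓞 K) (𝓞 F))⟩ : HX K)) := by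
    rw [Pool.Agent.W353.NF.nm_vx]
    exact Pool.Agent.H341R2.nm_kerPrime p ψ
  unfold tW tr
  rw [e1, e2]

/-- **The sizes over `F`.** -/
theorem size_W (B : HeightOneSpectrum (𝓞 F) → ℂ[X])
    (hB : IsEulerSystem X d N w B) (e : Fin 0 → 𝓞 F) :
    (∀ᶠ ε : ℝ in 𝓝[>] 0, LFun B ((weight w : ℂ) / 2 + 1 + ε) ≠ 0) ∧
    (syW X d N w).IsSize (F := F) e 0
      (fun ε => Real.log ‖LFun B ((weight w : ℂ) / 2 + 1 + ε)‖ / Real.log (1 / ε)) := by
  classical
  choose σ hσ using exists_isFrob (F := F)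
  -- the chosen eigenvalues
  have hgood : ∀ᶠ v : HeightOneSpectrum (𝓞 F) in cofinite, (∃ α, IsFrobenius X d N v α) ∧
      ∀ z : ℂ, (B v).eval z = ∏ j, (1 - alW X d N w F v j * z) := by
    refine hB.1.mono fun v hv => ?_
    obtain ⟨α, h1, h2⟩ := hv
    refine ⟨⟨α, h1⟩, fun z => ?_⟩
    rw [h2, prod_alW (fun a => 1 - a * z)]
    exact prod_eigenvalue h1 (fun a => 1 - a * z)
  have hsz := size_corr ((weight w : ℝ) / 2) (alW X d N w F)
    (hgood.mono fun v hv j => norm_alW hv.1 j) (hgood.mono fun v hv => im_alW hv.1)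
    (⊤ : Subgroup (GK F)) (n := 1) (1 : Representation ℂ (GK F) (Fin 1 → ℂ)) (fun _ _ => rfl) 0 B
    (hgood.mono fun v hv g _ z => by
      rw [hv.2 z]
      refine Finset.prod_congr rfl fun j _ => ?_
      have e1 : (1 : Module.End ℂ (Fin 1 → ℂ)) - (alW X d N w F v j * z) •
          ((1 : Representation ℂ (GK F) (Fin 1 → ℂ)) g⁻¹) =
          (1 - alW X d N w F v j * z) • (1 : Module.End ℂ (Fin 1 → ℂ)) := by
        have e0 : (1 : Representation ℂ (GK F) (Fin 1 → ℂ)) g⁻¹ =
            (1 : Module.End ℂ (Fin 1 → ℂ)) := rfl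
        rw [e0]
        refine LinearMap.ext fun x => ?_
        rw [LinearMap.sub_apply, LinearMap.smul_apply, LinearMap.smul_apply,
          Module.End.one_apply]
        exact (by rw [sub_smul, one_smul] : x - (alW X d N w F v j * z) • x =
          ((1 : ℂ) - alW X d N w F v j * z) • x)
      rw [e1, LinearMap.det_smul]
      simp)
    (by rw [edge_cast]; exact hB.2) (LFun B) (fun s _ => rfl) σ hσ
  rw [edge_cast] at hsz
  refine ⟨hsz.1, ?_⟩
  -- comparison with the sum over the primes of degree one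
  set u : HeightOneSpectrum (𝓞 F) → ℂ := fun v =>
    (chi (1 : 𝓞 F) v : ℂ) * ((Pool.Agent.H921R2.TatePole.nm v : ℕ) : ℂ) ^ (((0 : ℝ) : ℂ) * I)
    with hu
  have hb : ∀ v, ‖((tW X d N w F v : ℝ) : ℂ)‖ ≤ ((basis N w).card : ℝ) := by
    intro v
    rw [Complex.norm_real, Real.norm_eq_abs]
    exact abs_tW _
  have o2 := corr_gen (K := K) (fun v => ((tW X d N w F v : ℝ) : ℂ))
    (fun x => ((tW X d N w K (vx x) : ℝ) : ℂ)) hb
    (fun p ψ => by rw [tW_ker]) (1 : 𝓞 F) 0 u (fun v => rfl)
  have e2 : ∀ ε, (EP (nm F) ε fun v => ((tr ((weight w : ℝ) / 2) (alW X d N w F) v : ℂ) *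
      ((1 : Representation ℂ (GK F) (Fin 1 → ℂ)).character (σ v)⁻¹ * zz 0 v)).re) =
      (sysK F).E ε fun v => (((tW X d N w F v : ℝ) : ℂ) * conj (u v)).re := by
    intro ε
    rw [EP_eq]
    congr 1
    funext v
    have e3 : (1 : Representation ℂ (GK F) (Fin 1 → ℂ)).character (σ v)⁻¹ = 1 := by
      have : (1 : Representation ℂ (GK F) (Fin 1 → ℂ)).character (σ v)⁻¹ =
          LinearMap.trace ℂ (Fin 1 → ℂ) (1 : Module.End ℂ (Fin 1 → ℂ)) := rfl
      rw [this, LinearMap.trace_one]
      simp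
    have e4 : conj (u v) = zz 0 v := by
      rw [hu]
      simp only
      rw [chi_one, Int.cast_one, one_mul]
      exact (sysK F).conj_cpow_I v 0
    rw [e3, one_mul, e4]
    rfl
  unfold Sy.IsSize
  have o1 : (fun ε : ℝ => ((sysK F).E ε fun v => (((tW X d N w F v : ℝ) : ℂ) * conj (u v)).re) -
      Real.log ‖LFun B ((weight w : ℂ) / 2 + 1 + ε)‖ / Real.log (1 / ε) * lam ε)
      =o[𝓝[>] 0] LL := by
    have h1 : (fun ε : ℝ => (((sysK F).E ε fun v =>
        (((tW X d N w F v : ℝ) : ℂ) * conj (u v)).re) / lam ε -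
        Real.log ‖LFun B ((weight w : ℂ) / 2 + 1 + ε)‖ / Real.log (1 / ε)) * lam ε)
        =o[𝓝[>] 0] LL := by
      have h2 := hsz.2
      simp only [e2] at h2
      have h3 := (isLittleO_one_iff ℝ).2 h2
      have h4 := h3.mul_isBigO Pool.Agent.W353.TP.lam0_isBigO
      simpa using h4
    refine h1.congr' ?_ (EventuallyEq.refl _ _)
    filter_upwards [lam_tendsto.eventually_gt_atTop 0] with ε h2
    rw [sub_mul, div_mul_cancel₀ _ h2.ne']
  -- the sizes are bounded
  have hbd : (fun ε : ℝ => Real.log ‖LFun B ((weight w : ℂ) / 2 + 1 + ε)‖ /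
      Real.log (1 / ε)) =O[𝓝[>] 0] (fun _ => (1 : ℝ)) := by
    have h1 : (fun ε : ℝ => ((sysK F).E ε fun v =>
        (((tW X d N w F v : ℝ) : ℂ) * conj (u v)).re) / lam ε) =O[𝓝[>] 0] (fun _ => (1 : ℝ)) := by
      refine IsBigO.of_bound (2 * (basis N w).card) ?_
      have hEP1 : ∀ᶠ ε : ℝ in 𝓝[>] 0, (EP (nm F) ε fun _ => 1) ≤ 2 * lam ε := by
        filter_upwards [(EP_one F).eventually_lt_const (by norm_num : (1 : ℝ) < 2),
          lam_tendsto.eventually_gt_atTop 0] with ε h1 h2
        rw [div_lt_iff₀ h2] at h1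
        exact h1.le
      filter_upwards [hEP1, lam_tendsto.eventually_gt_atTop 0, self_mem_nhdsWithin]
        with ε h1 h2 h3
      have hε : (0 : ℝ) < ε := h3
      have hwn : ∀ v, ‖u v‖ = 1 := by
        intro v
        rw [hu]
        simp only
        rw [chi_one, Int.cast_one, one_mul]
        exact (sysK F).norm_cpow_I v 0
      have hb' : ∀ v, |(((tW X d N w F v : ℝ) : ℂ) * conj (u v)).re| ≤
          ((basis N w).card : ℝ) * 1 := by
        intro v
        refine (Complex.abs_re_le_norm _).trans ?_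
        rw [norm_mul, Complex.norm_conj, hwn]
        exact mul_le_mul_of_nonneg_right (hb v) zero_le_one
      have h4 : |EP (nm F) ε fun v => (((tW X d N w F v : ℝ) : ℂ) * conj (u v)).re| ≤
          ((basis N w).card : ℝ) * EP (nm F) ε fun _ => 1 := by
        rw [← EP_const_mul]
        exact EP_abs_le (ψ := fun _ => ((basis N w).card : ℝ) * 1) (B := (basis N w).card)
          (fun _ => by simp) hb' hε
      have h5 : ‖((sysK F).E ε fun v => (((tW X d N w F v : ℝ) : ℂ) * conj (u v)).re) / lam ε‖ =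
          |EP (nm F) ε fun v => (((tW X d N w F v : ℝ) : ℂ) * conj (u v)).re| / lam ε := by
        have h6 : ((sysK F).E ε fun v => (((tW X d N w F v : ℝ) : ℂ) * conj (u v)).re) =
          EP (nm F) ε fun v => (((tW X d N w F v : ℝ) : ℂ) * conj (u v)).re := rfl
        rw [h6, Real.norm_eq_abs, abs_div, abs_of_pos h2]
      rw [h5, norm_one, mul_one, div_le_iff₀ h2]
      refine h4.trans ?_
      calc ((basis N w).card : ℝ) * EP (nm F) ε (fun _ => 1) ≤ (basis N w).card * (2 * lam ε) :=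
            mul_le_mul_of_nonneg_left h1 (Nat.cast_nonneg _)
        _ = _ := by ring
    have h2 := hsz.2
    simp only [e2] at h2
    have h3 := ((isLittleO_one_iff ℝ).2 h2).isBigO
    have h4 := h1.sub h3
    refine h4.congr_left fun ε => ?_
    ring
  have o3 : (fun ε : ℝ => Real.log ‖LFun B ((weight w : ℂ) / 2 + 1 + ε)‖ /
      Real.log (1 / ε) * (lam ε - LL ε)) =o[𝓝[>] 0] LL := by
    have := hbd.mul_isLittleO lam0_sub
    simpa using this
  refine ((o2.sub o1).sub o3).congr' ?_ (EventuallyEq.refl _ _)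
  filter_upwards with ε
  have e5 : (syW X d N w).corr (F := F) e 0 ε =
      (sysH K).E ε fun x : HX K => (((tW X d N w K (vx x) : ℝ) : ℂ) *
        conj (vq K (1 : 𝓞 F) 0 x)).re := by
    have e3 : (syW X d N w).corr (F := F) e 0 ε =
        ∑ _j ∈ ({()} : Finset Unit), (sysH K).E ε fun x : HX K =>
          (((tW X d N w K (vx x) : ℝ) : ℂ) *
            conj (vq K (∏ j ∈ (∅ : Finset (Fin 0)), e j) 0 x)).re := rfl
    rw [e3, Finset.sum_singleton, Finset.prod_empty]
  rw [e5]
  ring

/-- Euler systems exist over `F`. -/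
theorem exists_euler (h : ∀ᶠ v : HeightOneSpectrum (𝓞 K) in cofinite,
    ∃ α, IsFrobenius X d N v α) : ∃ B : HeightOneSpectrum (𝓞 F) → ℂ[X],
    IsEulerSystem X d N w B := by
  classical
  have h1 := eventually_over (F := F) h
  refine ⟨fun v => if ∃ α, IsFrobenius X d N v α then
    ∏ S ∈ basis N w, (1 - Polynomial.C (eigenvalue w (alF X d N v) S) * Polynomial.X) else 1,
    h1.mono fun v hv => ⟨alF X d N v, alF_spec hv, fun z => ?_⟩, fun v => ?_⟩
  · simp only []
    rw [if_pos hv, Polynomial.eval_prod]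
    exact Finset.prod_congr rfl fun S _ => by simp
  · simp only []
    split_ifs with hv
    · rw [Polynomial.eval_prod, Finset.prod_ne_zero_iff]
      intro S hS
      simp only [Polynomial.eval_sub, Polynomial.eval_one, Polynomial.eval_mul, Polynomial.eval_C,
        Polynomial.eval_X]
      intro h0
      have h2 : ‖eigenvalue w (alF X d N v) S *
          (Ideal.absNorm v.asIdeal : ℂ) ^ (-((weight w : ℂ) / 2 + 1))‖ < 1 := by
        have h3 := norm_eigenvalue w (alF_spec hv) hS
        have h4 : (Ideal.absNorm v.asIdeal : ℝ) = Pool.Agent.H921R2.TatePole.nm v := rfl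
        have h5 := nm_pos v
        rw [norm_mul, h3, ← Complex.ofReal_natCast, h4, Complex.norm_cpow_eq_rpow_re_of_pos h5,
          ← Real.rpow_add h5]
        have h6 : (weight w : ℝ) / 2 + (-((weight w : ℂ) / 2 + 1)).re = -1 := by
          have : (-((weight w : ℂ) / 2 + 1)) = ((-((weight w : ℝ) / 2 + 1) : ℝ) : ℂ) := by
            push_cast
            rfl
          rw [this, Complex.ofReal_re]
          ring
        rw [h6, Real.rpow_neg_one]
        refine inv_lt_one_of_one_lt₀ ?_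
        exact Pool.Agent.W353.PV.one_lt_norm v
      rw [sub_eq_zero] at h0
      rw [← h0, norm_one] at h2
      exact lt_irrefl _ h2
    · simp

end

end Pool.Agent.H848.GO
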