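import Pool.Agent.H848.GO.Gov
import Pool.Agent.H848.GO.Size

/-!
# The orders of all twists
-/

set_option autoImplicit false
set_option linter.unusedSectionVars false

namespace Pool.Agent.H848.GO

open Complex Filter Topology ComplexConjugate NumberField IsDedekindDomain
  Pool.Agent.W401.Cheb Pool.Agent.W540.BE Pool.Agent.W353.L1 Polynomial
open Pool.Agent.H341R2 (lam lam_tendsto)
open Pool.Agent.W353.AT (MRep Lim Irr OK Sim exists_common exists_E)

section
variable {K : Type} [Field K] [NumberField K] {n : ℕ}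
  {X : Set (MvPolynomial (Fin n) (𝓞 K))} {d : ℕ} {N : ℕ → ℕ}

/-- change of finitely many values -/
theorem Has.change {φ ψ : HeightOneSpectrum (𝓞 K) → ℝ} {m : ℝ} (h : Has φ m) (hψ : Bd K ψ)
    (he : ∀ᶠ v in cofinite, φ v = ψ v) : Has ψ m := by
  classical
  obtain ⟨⟨B, hB⟩, hlim⟩ := h
  obtain ⟨B', hB'⟩ := hψ
  have hbad : {v | ¬ φ v = ψ v}.Finite := by rwa [Filter.eventually_cofinite] at he
  have hb : ∀ v, |ψ v + (-1) * φ v| ≤ B' + B := by
    intro v
    refine (abs_add_le _ _).trans (add_le_add (hB' v) ?_)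
    rw [abs_mul, abs_neg, abs_one, one_mul]
    exact hB v
  have hb2 : ∀ v, |(-1) * φ v| ≤ B := by
    intro v
    rw [abs_mul, abs_neg, abs_one, one_mul]
    exact hB v
  have hbd : ∀ ε : ℝ, 0 < ε → |EP (nm K) ε (fun v => ψ v + (-1) * φ v)| ≤
      hbad.toFinset.card * (B' + B) := by
    intro ε hε
    refine EP_finsupp normSys hbad.toFinset _ (fun v hv => ?_) _ (fun v => hb v) hε
    rw [Set.Finite.mem_toFinset] at hv
    have h2 : φ v = ψ v := by
      by_contra h
      exact hv h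
    rw [h2]
    ring
  have h0 : Tendsto (fun ε : ℝ => (EP (nm K) ε (fun v => ψ v + (-1) * φ v)) / lam ε) (𝓝[>] 0)
      (𝓝 0) := by
    rw [tendsto_zero_iff_abs_tendsto_zero]
    have h3 : Tendsto (fun ε : ℝ => (hbad.toFinset.card * (B' + B) : ℝ) / lam ε) (𝓝[>] 0)
        (𝓝 0) := tendsto_const_nhds.div_atTop lam_tendsto
    refine squeeze_zero' (Eventually.of_forall fun ε => abs_nonneg _) ?_ h3
    filter_upwards [self_mem_nhdsWithin, lam_tendsto.eventually_gt_atTop 0] with ε hε hε'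
    rw [Function.comp_apply, abs_div, abs_of_pos hε']
    exact div_le_div_of_nonneg_right (hbd ε hε) hε'.le
  refine ⟨⟨B', hB'⟩, ?_⟩
  have h2 := h0.add hlim
  rw [zero_add] at h2
  refine h2.congr' ?_
  filter_upwards [self_mem_nhdsWithin] with ε hε
  have hε' : (0 : ℝ) < ε := hε
  rw [EP_add normSys hε' hB' hb2, EP_const_mul, ← add_div]
  congr 1
  ring

/-- characters are bounded -/
theorem bd_RR {x : MRep (GK K)} (hx : Pool.Agent.W353.AT.IsArtin x.2)
    (σ : HeightOneSpectrum (𝓞 K) → GK K) : Bd K (RR x.2 0 σ) := by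
  obtain ⟨U, hUn, hU, hx1⟩ := exists_common (κ := Unit) (n := fun _ => x.1)
    (fun _ => x.2) fun _ => hx
  have hfin : Finite (GK K ⧸ U) := Subgroup.quotient_finite_of_isOpen U hU
  exact ⟨x.1, fun v => abs_RR_le U x.2 (hx1 ()) _ _ _⟩

theorem has_iff_lim {T : HeightOneSpectrum (𝓞 K) → ℝ} (hT : Bd K T)
    {σ : HeightOneSpectrum (𝓞 K) → GK K} {x : MRep (GK K)}
    (hx : Pool.Agent.W353.AT.IsArtin x.2) {r : ℝ} :
    Has (fun v => T v * RR x.2 0 σ v) r ↔ Lim T σ x 0 r :=
  ⟨fun h => h.2, fun h => ⟨hT.mul (bd_RR hx σ), h⟩⟩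

variable (X d N) in
/-- all orders exist -/
def AllOrders : Prop :=
  ∀ (r : ℕ) (w : Fin r → Fin (2 * d + 1) × ℕ), Even (weight w) →
    ∀ (k : ℕ) (χ : Representation ℂ Gal(AlgebraicClosure K/K) (Fin k → ℂ)), IsArtin χ →
      χ.IsIrreducible → ∃ m : ℤ, TwistedPole X d N w χ m

theorem good_of_pole {r : ℕ} {w : Fin r → Fin (2 * d + 1) × ℕ} {k : ℕ}
    {χ : Representation ℂ Gal(AlgebraicClosure K/K) (Fin k → ℂ)} {m : ℤ}
    (h : TwistedPole X d N w χ m) :
    ∀ᶠ v : HeightOneSpectrum (𝓞 K) in cofinite, ∃ α, IsFrobenius X d N v α := by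
  obtain ⟨B, ⟨hB1, -⟩, -⟩ := h
  exact hB1.mono fun v hv => ⟨hv.choose, hv.choose_spec.1⟩

theorem bd_ew {r : ℕ} (w : Fin r → Fin (2 * d + 1) × ℕ) :
    Bd K (fun v : HeightOneSpectrum (𝓞 K) => (ew w (xv X d N v)).re) :=
  ⟨_, fun _ => (Complex.abs_re_le_norm _).trans (norm_ew_le _ _)⟩

/-- the limit for one representation -/
theorem has_ew {r : ℕ} {w : Fin r → Fin (2 * d + 1) × ℕ} {x : MRep (GK K)} (hx : IsArtin x.2)
    {m : ℤ} (h : TwistedPole X d N w x.2 m) {σ : HeightOneSpectrum (𝓞 K) → GK K}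
    (hσ : ∀ v, IsFrob v (σ v)) :
    Has (fun v => (ew w (xv X d N v)).re * RR x.2 0 σ v) m := by
  have h1 := lim_twist x hx h hσ
  have h2 : Bd K (tW X d N w K) := ⟨_, fun v => abs_tW v⟩
  have h3 : Has (fun v => tW X d N w K v * RR x.2 0 σ v) m := (has_iff_lim h2 hx).2 h1
  refine Has.change h3 ((bd_ew w).mul (bd_RR hx σ)) ((good_of_pole h).mono fun v hv => ?_)
  rw [tW_eq hv]

/-- **Integral limits for all symmetric functions.** -/
theorem has_of_mem (H : AllOrders X d N) {σ : HeightOneSpectrum (𝓞 K) → GK K}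
    (hσ : ∀ v, IsFrob v (σ v)) {x : MRep (GK K)} (hx : Irr x) {φ : XS d N → ℂ}
    (hφ : φ ∈ A d N 0) : ∃ l : ℤ, Has (fun v => (φ (xv X d N v)).re * RR x.2 0 σ v) l := by
  unfold A at hφ
  induction hφ using AddSubgroup.closure_induction with
  | mem φ h =>
    obtain ⟨r, w, hw, rfl⟩ := h
    have heven : Even (weight w) := by
      rw [ZMod.natCast_eq_zero_iff_even] at hw
      exact hw
    obtain ⟨m, hm⟩ := H r w heven x.1 x.2 hx.1 hx.2
    exact ⟨m, has_ew hx.1 hm hσ⟩
  | zero =>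
    refine ⟨0, ?_⟩
    have h0 : Has (F := K) (fun _ => (0 : ℝ) * 1) (0 * 1) := has_one.const_mul 0
    refine h0.congr (fun v => ?_) ?_
    · simp
    · simp
  | add φ ψ _ _ h h' =>
    obtain ⟨l, hl⟩ := h
    obtain ⟨l', hl'⟩ := h'
    refine ⟨l + l', (hl.add hl').congr (fun v => ?_) (by push_cast; rfl)⟩
    rw [Pi.add_apply, Complex.add_re, add_mul]
  | neg φ _ h =>
    obtain ⟨l, hl⟩ := h
    refine ⟨-l, (hl.const_mul (-1)).congr (fun v => ?_) (by push_cast; ring)⟩
    rw [Pi.neg_apply, Complex.neg_re]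
    ring

variable (d N) in
/-- the characters of even weight -/
def A0 : AddSubgroup (Char d N) where
  carrier := {l | parity l = 0}
  zero_mem' := by
    change parity 0 = 0
    simp [parity]
  add_mem' {a b} ha hb := by
    change parity (a + b) = 0
    rw [parity_add, show parity a = 0 from ha, show parity b = 0 from hb, add_zero]
  neg_mem' {a} ha := by
    change parity (-a) = 0
    rw [parity_neg, show parity a = 0 from ha, neg_zero]

theorem finite_A0 : Module.Finite ℤ (A0 d N) := by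
  have h : Module.Finite ℤ (AddSubgroup.toIntSubmodule (A0 d N)) := inferInstance
  exact h

theorem countable_A0 : Countable (A0 d N) := inferInstance

/-- sums of squares -/
theorem pd_FF (x : XS d N) {ι : Type} (s : Finset ι) (a : ι → Char d N) (u : ι → ℝ) :
    0 ≤ ∑ i ∈ s, ∑ j ∈ s, u i * u j * (FF (a i - a j) x).re := by
  have h1 : ∀ σ : (∀ i : Fin (2 * d + 1), Equiv.Perm (Fin (N i))),
      (∑ i ∈ s, ∑ j ∈ s, u i * u j * (mo (a i - a j) x σ).re) =
      ‖∑ i ∈ s, (u i : ℂ) * mo (a i) x σ‖ ^ 2 := by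
    intro σ
    rw [← Complex.normSq_eq_norm_sq]
    have e2 : ((Complex.normSq (∑ i ∈ s, (u i : ℂ) * mo (a i) x σ) : ℝ) : ℂ) =
        ∑ i ∈ s, ∑ j ∈ s, ((u i * u j : ℝ) : ℂ) * mo (a i - a j) x σ := by
      rw [← Complex.mul_conj, map_sum, Finset.sum_mul_sum]
      refine Finset.sum_congr rfl fun l _ => Finset.sum_congr rfl fun l' _ => ?_
      rw [map_mul, Complex.conj_ofReal, mo_sub]
      push_cast
      ring
    have e3 := congrArg Complex.re e2
    rw [Complex.ofReal_re] at e3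
    rw [e3, Complex.re_sum]
    refine Finset.sum_congr rfl fun i _ => ?_
    rw [Complex.re_sum]
    refine Finset.sum_congr rfl fun j _ => ?_
    rw [Complex.re_ofReal_mul]
  have h2 : ∑ i ∈ s, ∑ j ∈ s, u i * u j * (FF (a i - a j) x).re =
      ∑ σ : (∀ i : Fin (2 * d + 1), Equiv.Perm (Fin (N i))),
        ∑ i ∈ s, ∑ j ∈ s, u i * u j * (mo (a i - a j) x σ).re := by
    have e5 : ∀ i ∈ s, ∀ j ∈ s, u i * u j * (FF (a i - a j) x).re =
        ∑ σ : (∀ i : Fin (2 * d + 1), Equiv.Perm (Fin (N i))),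
          u i * u j * (mo (a i - a j) x σ).re := by
      intro i _ j _
      rw [FF_mo, Complex.re_sum, Finset.mul_sum]
    rw [Finset.sum_congr rfl fun i hi => Finset.sum_congr rfl fun j hj => e5 i hi j hj,
      Finset.sum_congr rfl fun i _ => Finset.sum_comm, Finset.sum_comm]
  rw [h2]
  refine Finset.sum_nonneg fun σ _ => ?_
  rw [h1]
  positivity

variable (X) in
/-- the data of the variety -/
noncomputable def dat (H : AllOrders X d N) (σ : HeightOneSpectrum (𝓞 K) → GK K)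
    (hσ : ∀ v, IsFrob v (σ v)) : Dat K (A0 d N) where
  T l v := (FF l.1 (xv X d N v)).re
  M := ∏ i : Fin (2 * d + 1), (N i).factorial
  σ := σ
  bd l v := by
    refine (Complex.abs_re_le_norm _).trans ?_
    push_cast
    exact FF_bound _ _
  zero v := by
    have h1 : FF (0 : Char d N) (xv X d N v) = ∑ _σ : (∀ i : Fin (2 * d + 1),
        Equiv.Perm (Fin (N i))), (1 : ℂ) := by
      rw [FF_mo]
      exact Finset.sum_congr rfl fun σ _ => mo_zero _ _
    change (FF (0 : Char d N) (xv X d N v)).re = _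
    rw [h1, Finset.sum_const, nsmul_eq_mul, mul_one, Finset.card_univ, Fintype.card_pi,
      Complex.natCast_re]
    congr 1
    refine Finset.prod_congr rfl fun i _ => ?_
    rw [Fintype.card_perm, Fintype.card_fin]
  neg l v := by
    change (FF (-l.1) (xv X d N v)).re = _
    rw [FF_neg, Complex.conj_re]
  pd v ι s a u := pd_FF (xv X d N v) s (fun i => (a i).1) u
  frob := hσ
  lim l x hx := by
    have hl : parity l.1 = 0 := l.2
    obtain ⟨δ, hδ⟩ := has_of_mem H hσ hx (φ := FF l.1) (hl ▸ FF_mem l.1)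
    exact ⟨δ, hδ.2⟩

theorem dat_del (H : AllOrders X d N) (σ : HeightOneSpectrum (𝓞 K) → GK K)
    (hσ : ∀ v, IsFrob v (σ v)) {r : ℕ} {w : Fin r → Fin (2 * d + 1) × ℕ} {x : MRep (GK K)}
    (hx : Irr x) {m : ℤ} (h : TwistedPole X d N w x.2 m) (hw : Even (weight w))
    (h0 : ∀ l, (dat X H σ hσ).del l x 0 = 0) : m = 0 := by
  classical
  have hM : (0 : ℝ) < ∏ i : Fin (2 * d + 1), ((N i).factorial : ℝ) :=
    Finset.prod_pos fun i _ => by exact_mod_cast Nat.factorial_pos _
  have h1 : Has (fun v => (∏ i : Fin (2 * d + 1), ((N i).factorial : ℝ)) *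
      ((ew w (xv X d N v)).re * RR x.2 0 σ v)) ((∏ i : Fin (2 * d + 1), ((N i).factorial : ℝ)) * m) :=
    (has_ew hx.1 h hσ).const_mul _
  have hpar : ∀ S ∈ basis N w, parity (char w S) = 0 := by
    intro S hS
    rw [parity_char w hS, ZMod.natCast_eq_zero_iff_even]
    exact hw
  have h2 : Has (fun v => ∑ S ∈ basis N w, (FF (char w S) (xv X d N v)).re * RR x.2 0 σ v)
      (∑ _S ∈ basis N w, (0 : ℝ)) := by
    refine Pool.Agent.W353.AT.Has.sum (basis N w) fun S hS => ?_
    have h3 := (dat X H σ hσ).del_lim ⟨char w S, hpar S hS⟩ x hx 0 rfl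
    rw [h0, Int.cast_zero] at h3
    exact (has_iff_lim ⟨_, (dat X H σ hσ).bd ⟨char w S, hpar S hS⟩⟩ hx.1).2 h3
  have e : ∀ v, (∏ i : Fin (2 * d + 1), ((N i).factorial : ℝ)) *
      ((ew w (xv X d N v)).re * RR x.2 0 σ v) =
      ∑ S ∈ basis N w, (FF (char w S) (xv X d N v)).re * RR x.2 0 σ v := by
    intro v
    rw [← Finset.sum_mul, ← mul_assoc]
    congr 1
    have h4 := congrArg Complex.re (sum_FF w (xv X d N v))
    rw [Complex.re_sum] at h4
    rw [h4]
    have h5 : (∏ i : Fin (2 * d + 1), ((N i).factorial : ℂ)) =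
        ((∏ i : Fin (2 * d + 1), ((N i).factorial : ℝ) : ℝ) : ℂ) := by
      push_cast
      rfl
    rw [h5, Complex.re_ofReal_mul]
  have h3 := h1.2
  have h4 := h2.2
  have e' : (fun v => (∏ i : Fin (2 * d + 1), ((N i).factorial : ℝ)) *
      ((ew w (xv X d N v)).re * RR x.2 0 σ v)) =
      fun v => ∑ S ∈ basis N w, (FF (char w S) (xv X d N v)).re * RR x.2 0 σ v := funext e
  rw [e'] at h3
  have h5 := tendsto_nhds_unique h3 h4
  rw [Finset.sum_const_zero] at h5
  rcases mul_eq_zero.1 h5 with h6 | h6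
  · exact absurd h6 hM.ne'
  · exact_mod_cast h6

end

end Pool.Agent.H848.GO
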