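import Pool.Agent.H848.GO.Ultra
import Pool.Agent.H848.GO.Bound

/-!
# The class functions of the limits, and the open subgroup
-/

set_option autoImplicit false
set_option linter.unusedSectionVars false

namespace Pool.Agent.H848.GO

open Complex Filter Topology ComplexConjugate Pool.Agent.H341R2 NumberField IsDedekindDomain
  Pool.Agent.W401.Cheb Pool.Agent.W540.BE Pool.Agent.W353.L1
open Pool.Agent.W353.AT (MRep Lim Irr OK Sim exists_common exists_E infl infl_irr infl_triv infl_char)

section
variable {K : Type} [Field K] [NumberField K]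

/-- orthogonality to all irreducible characters, with inverses -/
theorem complete' {Q : Type} [Group Q] [Fintype Q] (f : Q → ℂ) (hf : ∀ a x, f (x * a * x⁻¹) = f a)
    (h : ∀ y : MRep Q, y.2.IsIrreducible → ∑ q, f q * y.2.character q⁻¹ = 0) (x : Q) : f x = 0 := by
  have h1 := complete (fun q => f q⁻¹) (fun a x => by
    have e : (x * a * x⁻¹)⁻¹ = x * a⁻¹ * x⁻¹ := by group
    rw [e, hf]) (fun y hy => by
    rw [← h y hy, ← Equiv.sum_comp (Equiv.inv Q)]
    refine Finset.sum_congr rfl fun q _ => ?_
    rw [Equiv.inv_apply, inv_inv]) x⁻¹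
  rwa [inv_inv] at h1

theorem RR_eq (x : MRep (GK K)) (σ : HeightOneSpectrum (𝓞 K) → GK K)
    (v : HeightOneSpectrum (𝓞 K)) : RR x.2 0 σ v = (x.2.character (σ v)⁻¹).re := by
  unfold RR zz
  simp

theorem character_triv {x : MRep (GK K)} {U : Subgroup (GK K)} [U.Normal]
    (h : ∀ u ∈ U, x.2 u = 1) (g : GK K) :
    x.2.character g = (qrep U x.2 h).character (QuotientGroup.mk g) := rfl

open Classical in
/-- **The value of the combination of characters as a mean value.** -/
theorem theta (μ : Mean K) {T : HeightOneSpectrum (𝓞 K) → ℝ} {s : ℕ} (hT : ∀ v, |T v| ≤ s)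
    {σ : HeightOneSpectrum (𝓞 K) → GK K} {δ : MRep (GK K) → ℝ → ℤ}
    (hδ : ∀ x, Irr x → ∀ t ∈ ({0} : Set ℝ), Lim T σ x t (δ x t))
    {E : Finset (MRep (GK K) × ℝ)} (hE : OK {0} δ E)
    (hE2 : ∀ x t, Irr x → t ∈ ({0} : Set ℝ) → δ x t ≠ 0 → ∃ p ∈ E, p.2 = t ∧ Sim x p.1)
    (U : Subgroup (GK K)) [U.Normal] [Finite (GK K ⧸ U)] [Fintype (GK K ⧸ U)]
    (hU : IsOpen (U : Set (GK K)))
    (hEU : ∀ p ∈ E, ∀ u ∈ U, p.1.2 u = 1) (g : GK K) :
    (((Fintype.card (GK K ⧸ U) : ℝ) * μ.m (fun v => T v *
      ss (QuotientGroup.mk g : GK K ⧸ U) (QuotientGroup.mk (σ v))) : ℝ) : ℂ) =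
      ∑ p ∈ E, (δ p.1 0 : ℂ) * p.1.2.character g := by
  have hTb : Bd K T := ⟨s, hT⟩
  have hc0 : (Fintype.card (GK K ⧸ U) : ℂ) ≠ 0 := by exact_mod_cast Fintype.card_ne_zero
  have hcong : ∀ x y, Irr x → Irr y → Sim x y → δ x 0 = δ y 0 := by
    intro x y hx hy hs
    have := (hδ x hx 0 rfl).unique (hδ y hy 0 rfl) hs
    exact_mod_cast this
  have hss : ∀ q : GK K ⧸ U, Bd K (fun v => T v * ss q (QuotientGroup.mk (σ v))) := fun q =>
    hTb.mul ⟨1, fun v => by
      rw [abs_of_nonneg (ss_nonneg _ _)]
      exact ss_le _ _⟩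
  -- the difference
  set H : GK K ⧸ U → ℝ := fun q => (Fintype.card (GK K ⧸ U) : ℝ) *
    μ.m (fun v => T v * ss q (QuotientGroup.mk (σ v))) with hH
  set ch : MRep (GK K) → GK K ⧸ U → ℂ := fun x q =>
    if h : ∀ u ∈ U, x.2 u = 1 then (qrep U x.2 h).character q else 0 with hch
  have hch1 : ∀ x : MRep (GK K), (h : ∀ u ∈ U, x.2 u = 1) →
      ch x = (qrep U x.2 h).character := by
    intro x h
    funext q
    rw [hch]
    simp only
    rw [dif_pos h]
  set f : GK K ⧸ U → ℂ := fun q => (H q : ℂ) - ∑ p ∈ E, (δ p.1 0 : ℂ) * ch p.1 q with hf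
  have hf0 : ∀ q, f q = 0 := by
    refine complete' f ?_ ?_
    · intro a x
      rw [hf]
      simp only
      congr 1
      · rw [hH]
        simp only
        congr 3
        funext v
        rw [ss_conj]
      · refine Finset.sum_congr rfl fun p hp => ?_
        rw [hch1 p.1 (hEU p hp), Representation.char_conj]
    · intro y hy
      have hx1 := infl_irr U y hy
      have hx2 : ∀ u ∈ U, (infl U y).2 u = 1 := fun u hu => infl_triv U y u hu
      have hx : Irr (infl U y) := ⟨⟨U, hU, hx2⟩, hx1⟩
      -- the first sum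
      have hlin : ∀ φ : GK K ⧸ U → ℝ, (∀ a x, φ (x * a * x⁻¹) = φ a) →
          ∑ q, φ q * H q = (Fintype.card (GK K ⧸ U) : ℝ) * μ.m (fun v => T v *
            ((φ (QuotientGroup.mk (σ v)) + φ (QuotientGroup.mk (σ v))⁻¹) / 2)) := by
        intro φ hφ
        have e1 : ∀ q ∈ (Finset.univ : Finset (GK K ⧸ U)), φ q * H q =
            (Fintype.card (GK K ⧸ U) : ℝ) *
              μ.m (fun v => φ q * (T v * ss q (QuotientGroup.mk (σ v)))) := by
          intro q _
          rw [hH]
          simp only
          rw [μ.smul _ _ (hss q)]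
          ring
        rw [Finset.sum_congr rfl e1, ← Finset.mul_sum,
          ← μ.sum _ fun q _ => (hss q).const_mul (φ q)]
        congr 2
        funext v
        rw [← sum_ss φ hφ, Finset.mul_sum]
        exact Finset.sum_congr rfl fun q _ => by ring
      have hm : μ.m (fun v => T v * (y.2.character (QuotientGroup.mk (σ v)⁻¹)).re) =
          (δ (infl U y) 0 : ℝ) := by
        refine μ.has _ _ ⟨?_, ?_⟩
        · have h1 : Bd K (fun v => (y.2.character (QuotientGroup.mk (σ v)⁻¹)).re) := by
            refine ⟨(infl U y).1, fun v => ?_⟩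
            refine (Complex.abs_re_le_norm _).trans ?_
            exact norm_char_le U (infl U y).2 hx2 (σ v)⁻¹
          exact hTb.mul h1
        · have h2 := hδ (infl U y) hx 0 rfl
          unfold Lim at h2
          refine h2.congr fun ε => ?_
          congr 2
          funext v
          rw [RR_eq]
          rfl
      have hcc : ∀ q : GK K ⧸ U, y.2.character q⁻¹ = conj (y.2.character q) := fun q =>
        Pool.Agent.W353.L1.char_inv y.2 q
      have h1 : ∑ q, (H q : ℂ) * y.2.character q⁻¹ =
          (Fintype.card (GK K ⧸ U) : ℂ) * (δ (infl U y) 0 : ℂ) := by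
        have hre := hlin (fun q => (y.2.character q⁻¹).re) (fun a x => by
          have e : (x * a * x⁻¹)⁻¹ = x * a⁻¹ * x⁻¹ := by group
          rw [e, Representation.char_conj])
        have him := hlin (fun q => (y.2.character q⁻¹).im) (fun a x => by
          have e : (x * a * x⁻¹)⁻¹ = x * a⁻¹ * x⁻¹ := by group
          rw [e, Representation.char_conj])
        apply Complex.ext
        · rw [Complex.re_sum]
          have e1 : ∀ q ∈ (Finset.univ : Finset (GK K ⧸ U)),
              ((H q : ℂ) * y.2.character q⁻¹).re = (y.2.character q⁻¹).re * H q := by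
            intro q _
            rw [Complex.re_ofReal_mul, mul_comm]
          rw [Finset.sum_congr rfl e1, hre]
          have e2 : ((Fintype.card (GK K ⧸ U) : ℂ) * (δ (infl U y) 0 : ℂ)).re =
              (Fintype.card (GK K ⧸ U) : ℝ) * (δ (infl U y) 0 : ℝ) := by
            have : ((Fintype.card (GK K ⧸ U) : ℂ) * (δ (infl U y) 0 : ℂ)) =
                (((Fintype.card (GK K ⧸ U) : ℝ) * (δ (infl U y) 0 : ℝ) : ℝ) : ℂ) := by
              push_cast
              rfl
            rw [this, Complex.ofReal_re]
          rw [e2, ← hm]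
          congr 2
          funext v
          congr 1
          rw [inv_inv, hcc (QuotientGroup.mk (σ v)), Complex.conj_re,
            QuotientGroup.mk_inv, hcc (QuotientGroup.mk (σ v)), Complex.conj_re]
          ring
        · rw [Complex.im_sum]
          have e1 : ∀ q ∈ (Finset.univ : Finset (GK K ⧸ U)),
              ((H q : ℂ) * y.2.character q⁻¹).im = (y.2.character q⁻¹).im * H q := by
            intro q _
            rw [Complex.im_ofReal_mul, mul_comm]
          rw [Finset.sum_congr rfl e1, him]
          have e2 : ((Fintype.card (GK K ⧸ U) : ℂ) * (δ (infl U y) 0 : ℂ)).im = 0 := by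
            have : ((Fintype.card (GK K ⧸ U) : ℂ) * (δ (infl U y) 0 : ℂ)) =
                (((Fintype.card (GK K ⧸ U) : ℝ) * (δ (infl U y) 0 : ℝ) : ℝ) : ℂ) := by
              push_cast
              rfl
            rw [this, Complex.ofReal_im]
          rw [e2]
          have e3 : (fun v => T v * (((y.2.character (QuotientGroup.mk (σ v) : GK K ⧸ U)⁻¹).im +
              (y.2.character ((QuotientGroup.mk (σ v) : GK K ⧸ U)⁻¹)⁻¹).im) / 2)) =
              fun _ => (0 : ℝ) := by
            funext v
            rw [inv_inv, hcc (QuotientGroup.mk (σ v)), Complex.conj_im]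
            ring
          rw [e3, μ.zero, mul_zero]
      -- the second sum
      have h2 : ∑ q, (∑ p ∈ E, (δ p.1 0 : ℂ) * ch p.1 q) * y.2.character q⁻¹ =
          (Fintype.card (GK K ⧸ U) : ℂ) * (δ (infl U y) 0 : ℂ) := by
        simp only [Finset.sum_mul]
        rw [Finset.sum_comm]
        have e1 : ∀ p ∈ E, ∑ q, (δ p.1 0 : ℂ) * ch p.1 q * y.2.character q⁻¹ =
            (Fintype.card (GK K ⧸ U) : ℂ) * ((δ p.1 0 : ℂ) * if Sim p.1 (infl U y) then 1 else 0) := by
          intro p hp
          have h3 := ortho U p.1.2 (hEU p hp) (hE.irr p hp).2 (infl U y).2 hx2 hx1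
          rw [finsum_eq_sum_of_fintype, Nat.card_eq_fintype_card, inv_mul_eq_iff_eq_mul₀ hc0] at h3
          have h4 : (if Nonempty (p.1.2.Equiv (infl U y).2) then (1 : ℂ) else 0) =
              if Sim p.1 (infl U y) then 1 else 0 := rfl
          rw [h4] at h3
          rw [mul_left_comm, ← h3, Finset.mul_sum]
          refine Finset.sum_congr rfl fun q _ => ?_
          rw [hch1 p.1 (hEU p hp), mul_assoc]
          congr 2
          obtain ⟨g, rfl⟩ := QuotientGroup.mk_surjective q
          rw [← QuotientGroup.mk_inv, ← character_triv hx2, infl_char]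
        rw [Finset.sum_congr rfl e1, ← Finset.mul_sum]
        congr 1
        by_cases hd : δ (infl U y) 0 = 0
        · rw [hd, Int.cast_zero]
          refine Finset.sum_eq_zero fun p hp => ?_
          rw [if_neg, mul_zero]
          intro hs
          have h3 := hcong p.1 (infl U y) (hE.irr p hp) hx hs
          have h4 := hE.ne p hp
          have h5 : p.2 = 0 := hE.mem p hp
          rw [h5, h3] at h4
          exact h4 hd
        · obtain ⟨p, hp, hpt, hs⟩ := hE2 (infl U y) 0 hx rfl hd
          rw [Finset.sum_eq_single p]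
          · rw [if_pos hs.symm, mul_one, hcong p.1 (infl U y) (hE.irr p hp) hx hs.symm]
          · intro q hq hqp
            have hqt : q.2 = 0 := hE.mem q hq
            rw [if_neg, mul_zero]
            intro hs'
            exact hE.ineq q hq p hp hqp (hqt.trans hpt.symm) (hs'.trans hs)
          · intro h
            exact absurd hp h
      rw [hf]
      simp only [sub_mul]
      rw [Finset.sum_sub_distrib, h1, h2, sub_self]
  have h1 := hf0 (QuotientGroup.mk g)
  rw [hf] at h1
  simp only at h1
  rw [sub_eq_zero] at h1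
  refine h1.trans (Finset.sum_congr rfl fun p hp => ?_)
  rw [hch1 p.1 (hEU p hp)]
  rfl

end

end Pool.Agent.H848.GO
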