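import Pool.Agent.H848.GO.Complete
import Pool.Graph.R_seed8.W353.AT.Abs2

/-!
# A mean value functional and class functions
-/

set_option autoImplicit false
set_option linter.unusedSectionVars false

namespace Pool.Agent.H848.GO

open Complex Filter Topology ComplexConjugate Pool.Agent.H341R2 NumberField IsDedekindDomain
  Pool.Agent.W401.Cheb Pool.Agent.W540.BE Pool.Agent.W353.L1
open Pool.Agent.W353.AT (MRep Lim Irr OK Sim exists_common exists_E infl infl_irr infl_triv infl_char)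

section
variable (K : Type) [Field K] [NumberField K]

/-- bounded functions -/
def Bd (φ : HeightOneSpectrum (𝓞 K) → ℝ) : Prop := ∃ B : ℝ, ∀ v, |φ v| ≤ B

/-- a mean value functional -/
structure Mean where
  m : (HeightOneSpectrum (𝓞 K) → ℝ) → ℝ
  has : ∀ φ r, Has φ r → m φ = r
  add : ∀ φ ψ, Bd K φ → Bd K ψ → m (fun v => φ v + ψ v) = m φ + m ψ
  smul : ∀ (c : ℝ) φ, Bd K φ → m (fun v => c * φ v) = c * m φ
  nonneg : ∀ φ, Bd K φ → (∀ v, 0 ≤ φ v) → 0 ≤ m φ

theorem exists_mean : Nonempty (Mean K) := by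
  classical
  set 𝒰 : Ultrafilter ℝ := Ultrafilter.of (𝓝[>] (0 : ℝ)) with h𝒰
  have hle : (𝒰 : Filter ℝ) ≤ 𝓝[>] (0 : ℝ) := Ultrafilter.of_le _
  set f : (HeightOneSpectrum (𝓞 K) → ℝ) → ℝ → ℝ := fun φ ε => EP (nm K) ε φ / lam ε with hf
  have hEP1 : ∀ᶠ ε : ℝ in 𝓝[>] 0, (EP (nm K) ε fun _ => 1) ≤ 2 * lam ε := by
    filter_upwards [(EP_one K).eventually_lt_const (by norm_num : (1 : ℝ) < 2),
      lam_tendsto.eventually_gt_atTop 0] with ε h1 h2
    rw [div_lt_iff₀ h2] at h1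
    exact h1.le
  have hb : ∀ φ B, (∀ v, |φ v| ≤ B) → 0 ≤ B → ∀ᶠ ε : ℝ in 𝓝[>] 0, |f φ ε| ≤ B * 2 := by
    intro φ B hB hB0
    filter_upwards [hEP1, lam_tendsto.eventually_gt_atTop 0, self_mem_nhdsWithin]
      with ε h1 h2 h3
    have hε : (0 : ℝ) < ε := h3
    have h4 : |EP (nm K) ε φ| ≤ B * EP (nm K) ε fun _ => 1 := by
      rw [← EP_const_mul]
      exact EP_abs_le (ψ := fun _ => B * 1) (B := B)
        (fun _ => by rw [mul_one, abs_of_nonneg hB0]) (fun v => by rw [mul_one]; exact hB v) hε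
    rw [hf]
    simp only
    rw [abs_div, abs_of_pos h2, div_le_iff₀ h2]
    refine h4.trans ?_
    rw [mul_assoc]
    exact mul_le_mul_of_nonneg_left h1 hB0
  have hconv : ∀ φ, Bd K φ → ∃ r, Tendsto (f φ) 𝒰 (𝓝 r) := by
    rintro φ ⟨B, hB⟩
    have hB' : ∀ v, |φ v| ≤ |B| := fun v => (hB v).trans (le_abs_self B)
    have h1 := (hb φ |B| hB' (abs_nonneg _)).filter_mono hle
    have hK : IsCompact (Set.Icc (-(|B| * 2)) (|B| * 2)) := isCompact_Icc
    have h2 : Set.Icc (-(|B| * 2)) (|B| * 2) ∈ 𝒰.map (f φ) := by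
      rw [Ultrafilter.mem_map]
      filter_upwards [h1] with ε hε
      exact abs_le.1 hε
    obtain ⟨r, -, hr⟩ := hK.ultrafilter_le_nhds' _ h2
    exact ⟨r, hr⟩
  set m : (HeightOneSpectrum (𝓞 K) → ℝ) → ℝ := fun φ =>
    if h : ∃ r, Tendsto (f φ) 𝒰 (𝓝 r) then h.choose else 0 with hm
  have hm1 : ∀ φ, Bd K φ → Tendsto (f φ) 𝒰 (𝓝 (m φ)) := by
    intro φ hφ
    rw [hm]
    simp only
    rw [dif_pos (hconv φ hφ)]
    exact (hconv φ hφ).choose_spec
  refine ⟨⟨m, fun φ r h => ?_, fun φ ψ hφ hψ => ?_, fun c φ hφ => ?_, fun φ hφ h0 => ?_⟩⟩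
  · exact tendsto_nhds_unique (hm1 φ h.1) (h.2.mono_left hle)
  · have h3 : Bd K (fun v => φ v + ψ v) := by
      obtain ⟨B, hB⟩ := hφ
      obtain ⟨B', hB'⟩ := hψ
      exact ⟨B + B', fun v => (abs_add_le _ _).trans (add_le_add (hB v) (hB' v))⟩
    refine tendsto_nhds_unique (hm1 _ h3) (((hm1 φ hφ).add (hm1 ψ hψ)).congr' ?_)
    have h4 : ∀ᶠ ε : ℝ in 𝓝[>] 0, f φ ε + f ψ ε = f (fun v => φ v + ψ v) ε := by
      obtain ⟨B, hB⟩ := hφ
      obtain ⟨B', hB'⟩ := hψ
      filter_upwards [self_mem_nhdsWithin] with ε hε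
      rw [hf]
      simp only
      rw [← add_div, ← EP_add normSys hε hB hB']
    exact h4.filter_mono hle
  · have h3 : Bd K (fun v => c * φ v) := by
      obtain ⟨B, hB⟩ := hφ
      exact ⟨|c| * B, fun v => by
        rw [abs_mul]
        exact mul_le_mul_of_nonneg_left (hB v) (abs_nonneg _)⟩
    refine tendsto_nhds_unique (hm1 _ h3) (((hm1 φ hφ).const_mul c).congr fun ε => ?_)
    rw [hf]
    simp only
    rw [EP_const_mul, mul_div_assoc]
  · refine ge_of_tendsto (hm1 φ hφ) ?_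
    have h4 : ∀ᶠ ε : ℝ in 𝓝[>] 0, 0 ≤ f φ ε := by
      filter_upwards [lam_tendsto.eventually_gt_atTop 0] with ε h2
      exact div_nonneg (EP_nonneg h0) h2.le
    exact h4.filter_mono hle

variable {K}

theorem Bd.mul {φ ψ : HeightOneSpectrum (𝓞 K) → ℝ} (h : Bd K φ) (h' : Bd K ψ) :
    Bd K (fun v => φ v * ψ v) := by
  obtain ⟨B, hB⟩ := h
  obtain ⟨B', hB'⟩ := h'
  refine ⟨|B| * |B'|, fun v => ?_⟩
  rw [abs_mul]
  exact mul_le_mul ((hB v).trans (le_abs_self _)) ((hB' v).trans (le_abs_self _)) (abs_nonneg _)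
    (abs_nonneg _)

theorem Bd.const_mul {φ : HeightOneSpectrum (𝓞 K) → ℝ} (h : Bd K φ) (c : ℝ) :
    Bd K (fun v => c * φ v) := by
  obtain ⟨B, hB⟩ := h
  exact ⟨|c| * B, fun v => by
    rw [abs_mul]
    exact mul_le_mul_of_nonneg_left (hB v) (abs_nonneg _)⟩

theorem Bd.sum {ι : Type*} (s : Finset ι) {φ : ι → HeightOneSpectrum (𝓞 K) → ℝ}
    (h : ∀ i ∈ s, Bd K (φ i)) : Bd K (fun v => ∑ i ∈ s, φ i v) := by
  classical
  induction s using Finset.induction_on with
  | empty => exact ⟨0, fun v => by simp⟩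
  | insert j s hj ih =>
    obtain ⟨B, hB⟩ := h j (Finset.mem_insert_self _ _)
    obtain ⟨B', hB'⟩ := ih fun i hi => h i (Finset.mem_insert_of_mem hi)
    refine ⟨B + B', fun v => ?_⟩
    change |∑ i ∈ insert j s, φ i v| ≤ B + B'
    rw [Finset.sum_insert hj]
    exact (abs_add_le _ _).trans (add_le_add (hB v) (hB' v))

theorem Mean.zero (μ : Mean K) : μ.m (fun _ => 0) = 0 := by
  have h := μ.smul 0 (fun _ => (0 : ℝ)) ⟨0, fun v => by simp⟩
  simpa using h

theorem Mean.sum (μ : Mean K) {ι : Type*} (s : Finset ι) {φ : ι → HeightOneSpectrum (𝓞 K) → ℝ}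
    (h : ∀ i ∈ s, Bd K (φ i)) : μ.m (fun v => ∑ i ∈ s, φ i v) = ∑ i ∈ s, μ.m (φ i) := by
  classical
  induction s using Finset.induction_on with
  | empty =>
    simp only [Finset.sum_empty]
    exact μ.zero
  | insert j s hj ih =>
    rw [Finset.sum_insert hj, ← ih fun i hi => h i (Finset.mem_insert_of_mem hi),
      ← μ.add _ _ (h j (Finset.mem_insert_self _ _))
        (Bd.sum s fun i hi => h i (Finset.mem_insert_of_mem hi))]
    congr 1
    funext v
    rw [Finset.sum_insert hj]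

end

section
variable {Q : Type} [Group Q] [Fintype Q] [DecidableEq Q]

/-- the symmetrised characteristic function of a class -/
noncomputable def ss (q x : Q) : ℝ :=
  (∑ a, ((if a * q * a⁻¹ = x then 1 else 0) + (if a * q⁻¹ * a⁻¹ = x then 1 else 0))) /
    (2 * Fintype.card Q)

theorem ss_nonneg (q x : Q) : 0 ≤ ss q x := by
  unfold ss
  refine div_nonneg (Finset.sum_nonneg fun a _ => ?_) (by positivity)
  split_ifs <;> norm_num

theorem ss_conj (q x y : Q) : ss (y * q * y⁻¹) x = ss q x := by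
  unfold ss
  congr 1
  rw [← Equiv.sum_comp (Equiv.mulRight y⁻¹)]
  refine Finset.sum_congr rfl fun a _ => ?_
  rw [Equiv.coe_mulRight]
  have e1 : a * y⁻¹ * (y * q * y⁻¹) * (a * y⁻¹)⁻¹ = a * q * a⁻¹ := by group
  have e2 : a * y⁻¹ * (y * q * y⁻¹)⁻¹ * (a * y⁻¹)⁻¹ = a * q⁻¹ * a⁻¹ := by group
  rw [e1, e2]

theorem ss_conj' (q x y : Q) : ss q (y * x * y⁻¹) = ss q x := by
  unfold ss
  congr 1
  rw [← Equiv.sum_comp (Equiv.mulLeft y)]
  refine Finset.sum_congr rfl fun a _ => ?_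
  rw [Equiv.coe_mulLeft]
  have e1 : ∀ z : Q, y * a * z * (y * a)⁻¹ = y * x * y⁻¹ ↔ a * z * a⁻¹ = x := by
    intro z
    have : y * a * z * (y * a)⁻¹ = y * (a * z * a⁻¹) * y⁻¹ := by group
    rw [this, mul_left_inj, mul_right_inj]
  simp only [e1]

/-- summation against the symmetrised characteristic function -/
theorem sum_ss (f : Q → ℝ) (hf : ∀ a x, f (x * a * x⁻¹) = f a) (x : Q) :
    ∑ q, f q * ss q x = (f x + f x⁻¹) / 2 := by
  have hc : (Fintype.card Q : ℝ) ≠ 0 := by exact_mod_cast Fintype.card_ne_zero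
  unfold ss
  simp only [← mul_div_assoc, Finset.mul_sum]
  rw [← Finset.sum_div, Finset.sum_comm]
  have h1 : ∀ a ∈ (Finset.univ : Finset Q), ∑ q, f q * ((if a * q * a⁻¹ = x then (1 : ℝ) else 0) +
      (if a * q⁻¹ * a⁻¹ = x then 1 else 0)) = f x + f x⁻¹ := by
    intro a _
    simp only [mul_add, mul_ite, mul_one, mul_zero]
    rw [Finset.sum_add_distrib]
    congr 1
    · rw [Finset.sum_eq_single (a⁻¹ * x * a)]
      · have e1 : a * (a⁻¹ * x * a) * a⁻¹ = x := by group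
        rw [if_pos e1]
        have := hf x a⁻¹
        rwa [inv_inv] at this
      · intro q _ hq
        rw [if_neg]
        intro h
        apply hq
        rw [← h]
        group
      · intro h
        exact absurd (Finset.mem_univ _) h
    · rw [Finset.sum_eq_single (a⁻¹ * x⁻¹ * a)]
      · have e1 : a * (a⁻¹ * x⁻¹ * a)⁻¹ * a⁻¹ = x := by group
        rw [if_pos e1]
        have := hf x⁻¹ a⁻¹
        rwa [inv_inv] at this
      · intro q _ hq
        rw [if_neg]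
        intro h
        apply hq
        rw [← h]
        group
      · intro h
        exact absurd (Finset.mem_univ _) h
  rw [Finset.sum_congr rfl h1, Finset.sum_const, nsmul_eq_mul, Finset.card_univ]
  field_simp

theorem sum_ss_one (q : Q) : ∑ x, ss q x = 1 := by
  have hc : (Fintype.card Q : ℝ) ≠ 0 := by exact_mod_cast Fintype.card_ne_zero
  unfold ss
  rw [← Finset.sum_div, Finset.sum_comm]
  have h1 : ∀ a ∈ (Finset.univ : Finset Q), ∑ x, ((if a * q * a⁻¹ = x then (1 : ℝ) else 0) +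
      (if a * q⁻¹ * a⁻¹ = x then 1 else 0)) = 2 := by
    intro a _
    rw [Finset.sum_add_distrib, Finset.sum_ite_eq, Finset.sum_ite_eq]
    simp
    norm_num
  rw [Finset.sum_congr rfl h1, Finset.sum_const, nsmul_eq_mul, Finset.card_univ]
  field_simp

theorem ss_le (q x : Q) : ss q x ≤ 1 := by
  rw [← sum_ss_one q]
  exact Finset.single_le_sum (f := fun x => ss q x) (fun y _ => ss_nonneg q y)
    (Finset.mem_univ x)

end

end Pool.Agent.H848.GO
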